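import Pool.Agent.ConnAug.Defs

/-!
# Integer arithmetic for the hub construction (modules AR1, AR2)
-/

namespace Pool.Agent.ConnAug

theorem hubLe : Stmt_HubLe := by
  intro N a c q s _ hca hq hN
  unfold hubGain
  set s₀ := N / (a + 1) ^ 2 with hs₀
  by_cases h : s ≤ s₀
  · have h1 : q ≤ c * s + (a - c) * s₀ := by
      have h2 : (a - c) * s ≤ (a - c) * s₀ := Nat.mul_le_mul_left _ h
      have h3 : a * s = c * s + (a - c) * s := by
        rw [← Nat.add_mul, Nat.add_sub_cancel' hca]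
      omega
    exact h1.trans (Nat.add_le_add_left (le_max_left _ _) _)
  · have h' : s₀ + 1 ≤ s := by omega
    have h1 : q ≤ (N - s₀ - 1) / (a + 2) := by
      rw [Nat.le_div_iff_mul_le (by omega)]
      omega
    have h2 : c * (s₀ + 1) ≤ c * s := Nat.mul_le_mul_left _ h'
    have h3 := le_max_right ((a - c) * s₀) ((N - s₀ - 1) / (a + 2) - c * (s₀ + 1))
    omega

theorem hubEq : Stmt_HubEq := by
  intro N a c hc hca
  unfold hubGain
  set s₀ := N / (a + 1) ^ 2 with hs₀
  have h0 : s₀ * (a + 1) ^ 2 ≤ N := Nat.div_mul_le_self _ _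
  have h0' : N < (s₀ + 1) * (a + 1) ^ 2 := by
    have := Nat.lt_div_mul_add (a := N) (b := (a + 1) ^ 2) (by positivity)
    rw [← hs₀] at this
    rw [Nat.add_mul, one_mul]
    exact this
  have h3 : a * s₀ = c * s₀ + (a - c) * s₀ := by
    rw [← Nat.add_mul, Nat.add_sub_cancel' hca]
  by_cases h : (N - s₀ - 1) / (a + 2) - c * (s₀ + 1) ≤ (a - c) * s₀
  · refine ⟨a * s₀, s₀, le_rfl, by omega, ?_, ?_, ?_⟩
    · intro h1
      rcases Nat.mul_eq_zero.1 h1 with h2 | h2
      · omega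
      · exact h2
    · calc a * s₀ * (a + 2) + s₀ = s₀ * (a + 1) ^ 2 := by ring
        _ ≤ N := h0
    · rw [max_eq_left h]
      exact h3
  · push Not at h
    set Q := (N - s₀ - 1) / (a + 2) with hQ
    have h4 : Q * (a + 2) ≤ N - s₀ - 1 := Nat.div_mul_le_self _ _
    have h5 : c * (s₀ + 1) = c * s₀ + c := by ring
    have h6 : a * (s₀ + 1) = a * s₀ + a := by ring
    have hQ1 : a * s₀ + c < Q := by omega
    have hQ2 : 1 * (a + 2) ≤ Q * (a + 2) := Nat.mul_le_mul_right _ (by omega)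
    refine ⟨Q, s₀ + 1, ?_, by omega, by omega, by omega, ?_⟩
    · by_contra h7
      push Not at h7
      have h8 : (a * (s₀ + 1) + 1) * (a + 2) ≤ Q * (a + 2) := Nat.mul_le_mul_right _ h7
      have h9 : (s₀ + 1) * (a + 1) ^ 2 + (a + 2) = (a * (s₀ + 1) + 1) * (a + 2) + s₀ + 1 := by
        ring
      omega
    · rw [max_eq_right h.le]
      omega

end Pool.Agent.ConnAug
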