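import Mathlib

/-!
# The closed formula for `e_e(n; k, l)`

The value of the worst-case edge-connectivity augmentation number, see `eeVal`.
-/

namespace Pool.Agent.ConnAug

/-- Gain of the hub construction, in closed form: with `s = N / (a + 1) ^ 2` it is
`max ((a - c) s) ((N - s - 1) / (a + 2) - c (s + 1))`. (It is the maximum of `q - c s` over
`0 ≤ q ≤ a s`, `q (a + 2) + s ≤ N`; this is proved in `Arith.lean`.) -/
def hubGain (N a c : ℕ) : ℕ :=
  max ((a - c) * (N / (a + 1) ^ 2))
    ((N - N / (a + 1) ^ 2 - 1) / (a + 2) - c * (N / (a + 1) ^ 2 + 1))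

/-- The bonus term. Here `a = n - 1 - k`, `b = n - 1 - l`. -/
def bonus (n a b : ℕ) : ℕ :=
  if Even a then (if Even b then 0 else n / (a + 1))
  else if Even b then hubGain n a (a - b)
  else if Even n then hubGain n a b
  else hubGain (n - a - 2) a b

/-- The value of `e_e(n; k, l)`. -/
def eeVal (n k l : ℕ) : ℕ :=
  if k = 1 then ((n - 1) * (l - 1) + 1) / 2
  else (n * (l - k) + bonus n (n - 1 - k) (n - 1 - l)) / 2

end Pool.Agent.ConnAug
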