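import Mathlib
import Pool.Agent.ConnAug.Formula

/-!
# Worst-case edge-connectivity augmentation: definitions and interface statements

Problem MP_30a809_co, Q2.  The paper proof is in the team store, file MP_30a809_PROOF.md.
All modules work with the cut form `EC` of `k`-edge-connectivity and with the pair count `eb`.
-/

namespace Pool.Agent.ConnAug

open Finset

section Basic

variable {V : Type} [Fintype V] [DecidableEq V]

open Classical in
/-- Number of ordered pairs `(u, v)` with `u ∈ A`, `v ∈ B` and `u ~ v`. -/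
noncomputable def eb (G : SimpleGraph V) (A B : Finset V) : ℕ :=
  ∑ u ∈ A, ∑ v ∈ B, if G.Adj u v then 1 else 0

/-- The degree of `v`. -/
noncomputable def dg (G : SimpleGraph V) (v : V) : ℕ := eb G {v} univ

/-- Cut form of `k`-edge-connectivity. -/
def EC (k : ℕ) (G : SimpleGraph V) : Prop :=
  ∀ X : Finset V, X.Nonempty → Xᶜ.Nonempty → k ≤ eb G X Xᶜ

/-- A barrier for simple `b`-matchings in `H`: disjoint sets `S`, `T` and a family `C` of pairwise
disjoint sets outside `S ∪ T`, each closed under `H`-adjacency outside `S ∪ T`, with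
`b |C| + e(C, T)` odd. -/
structure Barrier (H : SimpleGraph V) (b : ℕ) (S T : Finset V) (CC : Finset (Finset V)) : Prop where
  disj : Disjoint S T
  sub : ∀ C ∈ CC, Disjoint C (S ∪ T)
  pw : ∀ C ∈ CC, ∀ D ∈ CC, C ≠ D → Disjoint C D
  closed : ∀ C ∈ CC, ∀ u ∈ C, ∀ v, v ∉ C → H.Adj u v → v ∈ S ∪ T
  odd : ∀ C ∈ CC, Odd (b * C.card + eb H C T)

/-- Twice the size bound given by a barrier (without the term `- |CC|`). -/
noncomputable def barVal (H : SimpleGraph V) (b : ℕ) (S T : Finset V) : ℕ :=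
  2 * b * S.card + eb H T T + b * ((S ∪ T)ᶜ).card + eb H (S ∪ T)ᶜ T

end Basic

/-! ### Interface statements -/

/-- (BM) Min-max for simple `b`-matchings, hard direction. -/
def Stmt_BMatch : Prop :=
  ∀ (V : Type) [Fintype V] [DecidableEq V] (H : SimpleGraph V) (b : ℕ),
    ∃ (F : SimpleGraph V) (S T : Finset V) (CC : Finset (Finset V)),
      F ≤ H ∧ (∀ v, dg F v ≤ b) ∧ Barrier H b S T CC ∧
        barVal H b S T ≤ eb F univ univ + CC.card

/-- (WD) Weak duality for simple `b`-matchings. -/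
def Stmt_WeakDual : Prop :=
  ∀ (V : Type) [Fintype V] [DecidableEq V] (H F : SimpleGraph V) (b : ℕ) (S T : Finset V)
    (CC : Finset (Finset V)),
    F ≤ H → (∀ v, dg F v ≤ b) → Barrier H b S T CC →
      eb F univ univ + CC.card ≤ barVal H b S T

/-- (CNT) The counting bound for barriers in graphs of maximum degree at most `a`. -/
def Stmt_Count : Prop :=
  ∀ (V : Type) [Fintype V] [DecidableEq V] (H : SimpleGraph V) (a b : ℕ) (S T : Finset V)
    (CC : Finset (Finset V)),
    b < a → a + 3 ≤ Fintype.card V → (∀ v, dg H v ≤ a) → Barrier H b S T CC →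
      eb H univ univ + CC.card ≤
        Fintype.card V * (a - b) + bonus (Fintype.card V) a b + barVal H b S T

/-- (NR) Existence of graphs with `w` vertices of degree `a - 1` and all others of degree `a`. -/
def Stmt_NearRegular : Prop :=
  ∀ (V : Type) [Fintype V] [DecidableEq V] (a w : ℕ),
    a + 1 ≤ Fintype.card V → w ≤ Fintype.card V → (a = 0 → w = 0) →
    Even (Fintype.card V * a + w) →
    ∃ (G : SimpleGraph V) (W : Finset V), W.card = w ∧ (∀ v ∈ W, dg G v + 1 = a) ∧
      ∀ v, v ∉ W → dg G v = a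

/-- (HUB) The hub graphs. `s` hubs, `m` blocks of order `p` with `t` vertices of inner degree
`a - 1`, each joined to one hub, and a rest block of order `c` with `w` vertices of inner degree
`a - 1`, `r` of them joined to a hub. -/
def Stmt_Hub : Prop :=
  ∀ (V : Type) [Fintype V] [DecidableEq V] (a s m p t c w r : ℕ),
    a + 1 ≤ p → t ≤ p → Even (p * a + t) → a + 1 ≤ c → w ≤ c → Even (c * a + w) → r ≤ w →
    (a = 0 → t = 0 ∧ w = 0) → m * t + r ≤ a * s →
    Fintype.card V = s + m * p + c →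
    ∃ (H : SimpleGraph V) (S : Finset V) (CC : Finset (Finset V)),
      S.card = s ∧ CC.card = m ∧ (∀ v, dg H v ≤ a) ∧ eb H S S = 0 ∧
      eb H Sᶜ S = m * t + r ∧ eb H Sᶜ univ + (w - r) = a * (m * p + c) ∧
      (∀ C ∈ CC, C.card = p ∧ Disjoint C S ∧ eb H C S = t) ∧
      (∀ C ∈ CC, ∀ D ∈ CC, C ≠ D → Disjoint C D) ∧
      (∀ C ∈ CC, ∀ u ∈ C, ∀ v, v ∉ C → H.Adj u v → v ∈ S)

/-- (STEP) One step of augmentation in the sparse range. -/
def Stmt_Step : Prop :=
  ∀ (V : Type) [Fintype V] [DecidableEq V] (j : ℕ), 2 ≤ j → 2 * j + 4 ≤ Fintype.card V →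
    ∀ G : SimpleGraph V, EC j G →
      ∃ G' : SimpleGraph V, G ≤ G' ∧ EC (j + 1) G' ∧
        eb (G' \ G) univ univ + 2 * ((j * Fintype.card V + 1) / 2) ≤
          2 * (((j + 1) * Fintype.card V + 1) / 2)

/-- (TEL) Telescoping. -/
def Stmt_Sparse : Prop :=
  ∀ (V : Type) [Fintype V] [DecidableEq V] (k l : ℕ), 2 ≤ k → k ≤ l →
    2 * l + 2 ≤ Fintype.card V →
    ∀ G : SimpleGraph V, EC k G →
      ∃ G' : SimpleGraph V, G ≤ G' ∧ EC l G' ∧
        eb (G' \ G) univ univ + 2 * ((k * Fintype.card V + 1) / 2) ≤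
          2 * ((l * Fintype.card V + 1) / 2)

/-- (HAR) Existence of `k`-edge-connected graphs with `⌈k n / 2⌉` edges. -/
def Stmt_Harary : Prop :=
  ∀ (V : Type) [Fintype V] [DecidableEq V] (k : ℕ), 2 ≤ k → k < Fintype.card V →
    ∃ G : SimpleGraph V, EC k G ∧ eb G univ univ ≤ 2 * ((k * Fintype.card V + 1) / 2)

/-- (K1U) The upper bound for `k = 1`. -/
def Stmt_K1Upper : Prop :=
  ∀ (V : Type) [Fintype V] [DecidableEq V] (l : ℕ), 2 ≤ l → l < Fintype.card V →
    ∀ G : SimpleGraph V, EC 1 G →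
      ∃ G' : SimpleGraph V, G ≤ G' ∧ EC l G' ∧
        eb (G' \ G) univ univ ≤ 2 * (((Fintype.card V - 1) * (l - 1) + 1) / 2)

/-- (K1L) The lower bound for `k = 1` (the star). -/
def Stmt_K1Lower : Prop :=
  ∀ (V : Type) [Fintype V] [DecidableEq V] (l : ℕ), 2 ≤ l → l < Fintype.card V →
    ∃ G : SimpleGraph V, EC 1 G ∧ ∀ G' : SimpleGraph V, G ≤ G' → EC l G' →
      (Fintype.card V - 1) * (l - 1) ≤ eb (G' \ G) univ univ

/-- (AR1) Upper estimate of `q - c s` by the closed form. -/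
def Stmt_HubLe : Prop :=
  ∀ N a c q s : ℕ, 1 ≤ c → c ≤ a → q ≤ a * s → q * (a + 2) + s ≤ N → q ≤ c * s + hubGain N a c

/-- (AR2) The closed form is attained. -/
def Stmt_HubEq : Prop :=
  ∀ N a c : ℕ, 1 ≤ c → c ≤ a → ∃ q s : ℕ, q ≤ a * s ∧ a * s < q + a ∧ (q = 0 → s = 0) ∧
    q * (a + 2) + s ≤ N ∧ q = c * s + hubGain N a c

end Pool.Agent.ConnAug
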