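import Mathlib

/-!
# Tutte-Berge barriers, from Tutte's theorem
-/

namespace Pool.Agent.ConnAug.TB

open Finset

variable {W : Type} [Fintype W] [DecidableEq W]

/-- A barrier: a family of disjoint odd sets, closed under adjacency outside `U`. -/
structure Bar (G : SimpleGraph W) (U : Finset W) (O : Finset (Finset W)) : Prop where
  disj : ∀ X ∈ O, Disjoint X U
  pw : ∀ X ∈ O, ∀ Y ∈ O, X ≠ Y → Disjoint X Y
  closed : ∀ X ∈ O, ∀ x ∈ X, ∀ y, y ∉ X → G.Adj x y → y ∈ U
  odd : ∀ X ∈ O, Odd X.card

open Classical in
/-- The odd components of `G - u` form a barrier. -/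
theorem exists_bar (G : SimpleGraph W) (u : Set W) :
    ∃ O : Finset (Finset W), Bar G u.toFinset O ∧
      O.card = ((⊤ : G.Subgraph).deleteVerts u).coe.oddComponents.ncard := by
  set G' := ((⊤ : G.Subgraph).deleteVerts u).coe with hG'
  let φ : G'.ConnectedComponent → Finset W := fun c =>
    (c.supp.toFinset).map ⟨Subtype.val, Subtype.val_injective⟩
  have hφmem : ∀ c x, x ∈ φ c ↔ ∃ h : x ∈ ((⊤ : G.Subgraph).deleteVerts u).verts,
      G'.connectedComponentMk ⟨x, h⟩ = c := by
    intro c x
    simp only [φ, Finset.mem_map, Set.mem_toFinset, SimpleGraph.ConnectedComponent.mem_supp_iff,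
      Function.Embedding.coeFn_mk]
    constructor
    · rintro ⟨⟨y, hy⟩, h1, rfl⟩
      exact ⟨hy, h1⟩
    · rintro ⟨h, h1⟩
      exact ⟨⟨x, h⟩, h1, rfl⟩
  have hcard : ∀ c : G'.ConnectedComponent, (φ c).card = c.supp.ncard := by
    intro c
    simp only [φ, Finset.card_map]
    rw [Set.ncard_eq_toFinset_card']
  have hinj : ∀ c₁ ∈ G'.oddComponents, ∀ c₂, φ c₁ = φ c₂ → c₁ = c₂ := by
    intro c₁ h₁ c₂ h
    have hodd : Odd c₁.supp.ncard := h₁
    have : (φ c₁).Nonempty := by
      rw [← Finset.card_pos, hcard]; exact hodd.pos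
    obtain ⟨x, hx⟩ := this
    have hx2 := hx
    rw [h] at hx2
    obtain ⟨h1, h2⟩ := (hφmem _ _).1 hx
    obtain ⟨h3, h4⟩ := (hφmem _ _).1 hx2
    rw [← h2, ← h4]
  refine ⟨G'.oddComponents.toFinset.image φ, ⟨?_, ?_, ?_, ?_⟩, ?_⟩
  · intro X hX
    simp only [Finset.mem_image, Set.mem_toFinset] at hX
    obtain ⟨c, hc, rfl⟩ := hX
    rw [Finset.disjoint_left]
    intro x hx hu
    obtain ⟨h1, -⟩ := (hφmem _ _).1 hx
    simp only [SimpleGraph.Subgraph.deleteVerts_verts, SimpleGraph.Subgraph.verts_top,
      Set.mem_sdiff, Set.mem_univ, true_and] at h1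
    exact h1 (by simpa using hu)
  · intro X hX Y hY hne
    simp only [Finset.mem_image, Set.mem_toFinset] at hX hY
    obtain ⟨c, hc, rfl⟩ := hX
    obtain ⟨c', hc', rfl⟩ := hY
    rw [Finset.disjoint_left]
    intro x hx hy
    obtain ⟨h1, h2⟩ := (hφmem _ _).1 hx
    obtain ⟨h3, h4⟩ := (hφmem _ _).1 hy
    exact hne (by rw [← h2, ← h4])
  · intro X hX x hx y hy hadj
    simp only [Finset.mem_image, Set.mem_toFinset] at hX
    obtain ⟨c, hc, rfl⟩ := hX
    by_contra hyu
    have hyu' : y ∉ u := by simpa using hyu
    obtain ⟨h1, h2⟩ := (hφmem _ _).1 hx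
    have h3 : y ∈ ((⊤ : G.Subgraph).deleteVerts u).verts := by
      simp [hyu']
    apply hy
    rw [hφmem]
    refine ⟨h3, ?_⟩
    rw [← h2]
    apply SimpleGraph.ConnectedComponent.sound
    apply SimpleGraph.Adj.reachable
    rw [hG']
    simp only [SimpleGraph.Subgraph.coe_adj]
    have h1' : x ∉ u := by
      simpa [SimpleGraph.Subgraph.deleteVerts_verts] using h1
    rw [SimpleGraph.Subgraph.deleteVerts_adj]
    exact ⟨trivial, hyu', trivial, h1', hadj.symm⟩
  · intro X hX
    simp only [Finset.mem_image, Set.mem_toFinset] at hX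
    obtain ⟨c, hc, rfl⟩ := hX
    rw [hcard]; exact hc
  · rw [Finset.card_image_of_injOn, Set.ncard_eq_toFinset_card']
    intro c₁ h₁ c₂ h₂ h
    exact hinj c₁ (by simpa using h₁) c₂ h

/-- `G` together with `d` universal vertices. -/
def plus (G : SimpleGraph W) (d : ℕ) : SimpleGraph (W ⊕ Fin d) where
  Adj x y := x ≠ y ∧ ∀ a b, x = Sum.inl a → y = Sum.inl b → G.Adj a b
  symm := ⟨by
    rintro x y ⟨h1, h2⟩
    exact ⟨h1.symm, fun a b ha hb => (h2 b a hb ha).symm⟩⟩
  loopless := ⟨by rintro x ⟨h1, -⟩; exact h1 rfl⟩

/-- Tutte-Berge, matching part. -/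
theorem exists_matching (G : SimpleGraph W) (d : ℕ)
    (hd : ∀ U O, Bar G U O → O.card ≤ U.card + d) (hev : Even (Fintype.card W + d)) :
    ∃ f : W ⊕ Fin d → W ⊕ Fin d, (∀ x, f (f x) = x) ∧
      (∀ x y : W, f (Sum.inl x) = Sum.inl y → G.Adj x y) := by
  classical
  have key : ∃ M : SimpleGraph.Subgraph (plus G d), M.IsPerfectMatching := by
    rw [SimpleGraph.tutte]
    intro u hu
    unfold SimpleGraph.IsTutteViolator at hu
    obtain ⟨O, hO, hcard⟩ := exists_bar (plus G d) u
    rw [← hcard] at hu
    by_cases hz : ∃ z : Fin d, Sum.inr z ∉ u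
    · obtain ⟨z, hz⟩ := hz
      have hzU : (Sum.inr z : W ⊕ Fin d) ∉ u.toFinset := by simpa using hz
      have hall : ∀ X ∈ O, (Sum.inr z : W ⊕ Fin d) ∈ X := by
        intro X hX
        by_contra hzX
        obtain ⟨x, hx⟩ : X.Nonempty := Finset.card_pos.1 (hO.odd X hX).pos
        refine hzU (hO.closed X hX x hx _ hzX ⟨?_, ?_⟩)
        · rintro rfl; exact hzX hx
        · intro a b ha hb; cases hb
      have hle : O.card ≤ 1 := by
        rw [Finset.card_le_one]
        intro X hX Y hY
        by_contra hne
        exact Finset.disjoint_left.1 (hO.pw X hX Y hY hne) (hall X hX) (hall Y hY)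
      have hu0 : u = ∅ := by
        rw [← Set.ncard_eq_zero (Set.toFinite u)]; omega
      have hO1 : 0 < O.card := by omega
      obtain ⟨X, hX⟩ := Finset.card_pos.1 hO1
      have hXuniv : X = univ := by
        rw [Finset.eq_univ_iff_forall]
        intro y
        by_contra hy
        have := hO.closed X hX _ (hall X hX) y hy ⟨?_, ?_⟩
        · rw [hu0] at this; simp at this
        · rintro rfl; exact hy (hall X hX)
        · intro a b ha hb; cases ha
      have := hO.odd X hX
      rw [hXuniv, Finset.card_univ, Fintype.card_sum, Fintype.card_fin] at this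
      exact (Nat.not_odd_iff_even.2 hev) this
    · push Not at hz
      -- restrict to W
      let U' : Finset W := univ.filter (fun x => (Sum.inl x : W ⊕ Fin d) ∈ u)
      let ψ : Finset (W ⊕ Fin d) → Finset W := fun X => univ.filter (fun x => Sum.inl x ∈ X)
      have hψ : ∀ X ∈ O, X = (ψ X).map ⟨Sum.inl, Sum.inl_injective⟩ := by
        intro X hX
        ext x
        rcases x with x | z
        · simp [ψ]
        · simp only [Finset.mem_map, Function.Embedding.coeFn_mk, reduceCtorEq, and_false,
            exists_false, iff_false]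
          intro hzX
          exact Finset.disjoint_left.1 (hO.disj X hX) hzX (by simpa using hz z)
      have hψc : ∀ X ∈ O, (ψ X).card = X.card := by
        intro X hX
        conv_rhs => rw [hψ X hX]
        rw [Finset.card_map]
      have hψinj : Set.InjOn ψ O := by
        intro X hX Y hY h
        rw [hψ X hX, hψ Y hY, h]
      have hbar : Bar G U' (O.image ψ) := by
        refine ⟨?_, ?_, ?_, ?_⟩
        · intro X hX
          simp only [Finset.mem_image] at hX
          obtain ⟨X, hX, rfl⟩ := hX
          rw [Finset.disjoint_left]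
          intro x hx hu
          simp only [ψ, U', Finset.mem_filter, Finset.mem_univ, true_and] at hx hu
          exact Finset.disjoint_left.1 (hO.disj X hX) hx (by simpa using hu)
        · intro X hX Y hY hne
          simp only [Finset.mem_image] at hX hY
          obtain ⟨X, hX, rfl⟩ := hX
          obtain ⟨Y, hY, rfl⟩ := hY
          rw [Finset.disjoint_left]
          intro x hx hy
          simp only [ψ, Finset.mem_filter, Finset.mem_univ, true_and] at hx hy
          refine Finset.disjoint_left.1 (hO.pw X hX Y hY ?_) hx hy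
          rintro rfl; exact hne rfl
        · intro X hX x hx y hy hadj
          simp only [Finset.mem_image] at hX
          obtain ⟨X, hX, rfl⟩ := hX
          simp only [ψ, Finset.mem_filter, Finset.mem_univ, true_and] at hx hy
          have := hO.closed X hX _ hx (Sum.inl y) hy ⟨?_, ?_⟩
          · simpa [U'] using this
          · simpa using hadj.ne
          · intro a b ha hb
            cases ha; cases hb; exact hadj
        · intro X hX
          simp only [Finset.mem_image] at hX
          obtain ⟨X, hX, rfl⟩ := hX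
          rw [hψc X hX]; exact hO.odd X hX
      have h1 := hd _ _ hbar
      rw [Finset.card_image_of_injOn hψinj] at h1
      have h2 : u.ncard = U'.card + d := by
        rw [Set.ncard_eq_toFinset_card']
        have : u.toFinset = (U'.map ⟨Sum.inl, Sum.inl_injective⟩) ∪
            (univ.map ⟨Sum.inr, Sum.inr_injective⟩ : Finset (W ⊕ Fin d)) := by
          ext x
          rcases x with x | z
          · simp [U']
          · simp [hz z]
        rw [this, Finset.card_union_of_disjoint, Finset.card_map, Finset.card_map,
          Finset.card_univ, Fintype.card_fin]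
        rw [Finset.disjoint_left]
        intro x hx hy
        simp only [Finset.mem_map, Function.Embedding.coeFn_mk, Finset.mem_univ, true_and] at hx hy
        obtain ⟨a, -, rfl⟩ := hx
        obtain ⟨z, hz⟩ := hy
        cases hz
      omega
  obtain ⟨M, hM⟩ := key
  rw [SimpleGraph.Subgraph.isPerfectMatching_iff] at hM
  choose f hf using hM
  refine ⟨f, ?_, ?_⟩
  · intro x
    exact ((hf (f x)).2 x (hf x).1.symm).symm
  · intro x y hxy
    have h1 := (hf (Sum.inl x)).1
    rw [hxy] at h1
    exact (M.adj_sub h1).2 x y rfl rfl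

omit [Fintype W] [DecidableEq W] in
/-- The trivial barrier. -/
theorem bar_empty (G : SimpleGraph W) : Bar G ∅ ∅ :=
  ⟨by simp, by simp, by simp, by simp⟩

/-- The value of a barrier. -/
theorem card_le (G : SimpleGraph W) {U : Finset W} {O : Finset (Finset W)} (h : Bar G U O) :
    O.card ≤ Fintype.card W := by
  classical
  have : O.card ≤ (O.biUnion id).card := by
    rw [Finset.card_biUnion]
    · calc O.card = ∑ _X ∈ O, 1 := by simp
        _ ≤ _ := Finset.sum_le_sum fun X hX => (h.odd X hX).pos
    · intro X hX Y hY hne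
      exact h.pw X hX Y hY hne
  exact this.trans (Finset.card_le_univ _)

/-- Optimal barrier with minimal `U`: every element of `U` touches at least three sets. -/
theorem exists_opt (G : SimpleGraph W) :
    ∃ (d : ℕ) (U : Finset W) (O : Finset (Finset W)), Bar G U O ∧ O.card = U.card + d ∧
      (∀ U' O', Bar G U' O' → O'.card ≤ U'.card + d) ∧ Even (Fintype.card W + d) ∧
      ∀ p ∈ U, ∃ X ∈ O, ∃ Y ∈ O, ∃ Z ∈ O, X ≠ Y ∧ X ≠ Z ∧ Y ≠ Z ∧
        (∃ x ∈ X, G.Adj p x) ∧ (∃ x ∈ Y, G.Adj p x) ∧ (∃ x ∈ Z, G.Adj p x) := by
  classical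
  -- the maximal value
  let P : ℕ → Prop := fun d => ∃ U O, Bar G U O ∧ O.card = U.card + d
  have hP0 : P 0 := ⟨∅, ∅, bar_empty G, by simp⟩
  have hPb : ∀ d, P d → d ≤ Fintype.card W := by
    rintro d ⟨U, O, h, hc⟩
    have := card_le G h
    omega
  let d := Nat.findGreatest P (Fintype.card W)
  have hPd : P d := Nat.findGreatest_spec (m := 0) (Nat.zero_le _) hP0
  have hmax : ∀ U' O', Bar G U' O' → O'.card ≤ U'.card + d := by
    intro U' O' h
    by_contra hlt
    push Not at hlt
    have hP : P (O'.card - U'.card) := ⟨U', O', h, by omega⟩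
    have := Nat.le_findGreatest (hPb _ hP) hP
    change O'.card - U'.card ≤ d at this
    omega
  -- minimal |U|
  let Q : ℕ → Prop := fun m => ∃ U O, Bar G U O ∧ O.card = U.card + d ∧ U.card = m
  have hQ : ∃ m, Q m := by
    obtain ⟨U, O, h, hc⟩ := hPd
    exact ⟨U.card, U, O, h, hc, rfl⟩
  obtain ⟨U, O, hB, hc, hm⟩ := Nat.find_spec hQ
  have hmin : ∀ U' O', Bar G U' O' → O'.card = U'.card + d → U.card ≤ U'.card := by
    intro U' O' h h'
    rw [hm]
    exact Nat.find_min' hQ ⟨U', O', h, h', rfl⟩
  -- the rest
  let E : Finset W := (U ∪ O.biUnion id)ᶜ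
  have hEU : Disjoint E U := by
    rw [Finset.disjoint_left]
    intro x hx hu
    simp only [E, Finset.mem_compl, Finset.mem_union, not_or] at hx
    exact hx.1 hu
  have hEX : ∀ X ∈ O, Disjoint E X := by
    intro X hX
    rw [Finset.disjoint_left]
    intro x hx hu
    simp only [E, Finset.mem_compl, Finset.mem_union, not_or, Finset.mem_biUnion, id] at hx
    exact hx.2 ⟨X, hX, hu⟩
  have hEcl : ∀ x ∈ E, ∀ y, y ∉ E → G.Adj x y → y ∈ U := by
    intro x hx y hy hadj
    by_contra hyU
    simp only [E, Finset.mem_compl, Finset.mem_union, not_or, Finset.mem_biUnion, id, not_and,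
      not_not] at hy
    obtain ⟨X, hX, hyX⟩ := hy hyU
    have hxX : x ∉ X := Finset.disjoint_left.1 (hEX X hX) hx
    have := hB.closed X hX y hyX x hxX hadj.symm
    exact Finset.disjoint_left.1 hEU hx this
  have hEeven : Even E.card := by
    rw [← Nat.not_odd_iff_even]
    intro hodd
    have hEne : E ∉ O := by
      intro h
      obtain ⟨x, hx⟩ := Finset.card_pos.1 hodd.pos
      exact Finset.disjoint_left.1 (hEX E h) hx hx
    have hB' : Bar G U (insert E O) := by
      refine ⟨?_, ?_, ?_, ?_⟩
      · intro X hX
        rcases Finset.mem_insert.1 hX with rfl | hX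
        · exact hEU
        · exact hB.disj X hX
      · intro X hX Y hY hne
        rcases Finset.mem_insert.1 hX with rfl | hX
        · rcases Finset.mem_insert.1 hY with rfl | hY
          · exact absurd rfl hne
          · exact hEX Y hY
        · rcases Finset.mem_insert.1 hY with rfl | hY
          · exact (hEX X hX).symm
          · exact hB.pw X hX Y hY hne
      · intro X hX
        rcases Finset.mem_insert.1 hX with rfl | hX
        · exact hEcl
        · exact hB.closed X hX
      · intro X hX
        rcases Finset.mem_insert.1 hX with rfl | hX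
        · exact hodd
        · exact hB.odd X hX
    have := hmax _ _ hB'
    rw [Finset.card_insert_of_notMem hEne] at this
    omega
  have hsum : Fintype.card W = U.card + (∑ X ∈ O, X.card) + E.card := by
    have h1 : (O.biUnion id).card = ∑ X ∈ O, X.card := by
      rw [Finset.card_biUnion]
      · simp
      · intro X hX Y hY hne
        exact hB.pw X hX Y hY hne
    have h2 : Disjoint U (O.biUnion id) := by
      rw [Finset.disjoint_right]
      intro x hx hu
      simp only [Finset.mem_biUnion, id] at hx
      obtain ⟨X, hX, hxX⟩ := hx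
      exact Finset.disjoint_left.1 (hB.disj X hX) hxX hu
    have h3 : E.card = Fintype.card W - (U ∪ O.biUnion id).card := Finset.card_compl _
    have h4 : (U ∪ O.biUnion id).card ≤ Fintype.card W := Finset.card_le_univ _
    rw [Finset.card_union_of_disjoint h2] at h3 h4
    omega
  have hpar : ∀ O' : Finset (Finset W), (∀ X ∈ O', Odd X.card) →
      (Even (∑ X ∈ O', X.card) ↔ Even O'.card) := by
    intro O' hO'
    induction O' using Finset.induction_on with
    | empty => simp
    | insert X O' hX ih =>
      rw [Finset.sum_insert hX, Finset.card_insert_of_notMem hX]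
      have h1 := hO' X (Finset.mem_insert_self _ _)
      have h2 := ih (fun Y hY => hO' Y (Finset.mem_insert_of_mem hY))
      rw [Nat.even_add, Nat.even_add, h2]
      simp [Nat.not_even_iff_odd.2 h1]
  refine ⟨d, U, O, hB, hc, hmax, ?_, ?_⟩
  · have h1 := hpar O hB.odd
    rw [hsum]
    rw [hc] at h1
    obtain ⟨e, he⟩ := hEeven
    by_cases h2 : Even (U.card + d)
    · obtain ⟨s, hs⟩ := h1.2 h2
      obtain ⟨t, ht⟩ := h2
      exact ⟨s + t + e, by omega⟩
    · have h3 : ¬ Even (∑ X ∈ O, X.card) := fun h => h2 (h1.1 h)
      rw [Nat.not_even_iff_odd] at h2 h3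
      obtain ⟨s, hs⟩ := h3
      obtain ⟨t, ht⟩ := h2
      exact ⟨s + t + e + 1, by omega⟩
  · intro p hp
    -- touched sets
    obtain ⟨Op, hOp⟩ : ∃ Op : Finset (Finset W), ∀ X, X ∈ Op ↔ X ∈ O ∧ ∃ x ∈ X, G.Adj p x :=
      ⟨O.filter (fun X => ∃ x ∈ X, G.Adj p x), fun X => by simp⟩
    have hOpO : Op ⊆ O := fun X hX => ((hOp X).1 hX).1
    by_contra hno
    have hle : Op.card ≤ 2 := by
      by_contra hlt
      push Not at hlt
      rw [Finset.two_lt_card] at hlt
      obtain ⟨X, hX, Y, hY, Z, hZ, h1, h2, h3⟩ := hlt
      rw [hOp] at hX hY hZ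
      exact hno ⟨X, hX.1, Y, hY.1, Z, hZ.1, h1, h2, h3, hX.2, hY.2, hZ.2⟩
    have hpE : p ∉ E := fun h => Finset.disjoint_left.1 hEU h hp
    have hpX : ∀ X ∈ O, p ∉ X := fun X hX h => Finset.disjoint_left.1 (hB.disj X hX) h hp
    -- untouched sets stay closed
    have huntouched : ∀ X ∈ O, X ∉ Op → ∀ x ∈ X, ∀ y, y ∉ X → G.Adj x y → y ∈ U.erase p := by
      intro X hX hXp x hx y hy hadj
      rw [Finset.mem_erase]
      refine ⟨?_, hB.closed X hX x hx y hy hadj⟩
      rintro rfl
      exact hXp ((hOp X).2 ⟨hX, x, hx, hadj.symm⟩)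
    have hUe : (U.erase p).card + 1 = U.card := Finset.card_erase_add_one hp
    -- merged set
    by_cases h1 : Op.card = 1
    · -- just remove the touched set
      have hB' : Bar G (U.erase p) (O \ Op) := by
        refine ⟨?_, ?_, ?_, ?_⟩
        · intro X hX
          rw [Finset.mem_sdiff] at hX
          exact (hB.disj X hX.1).mono_right (Finset.erase_subset _ _)
        · intro X hX Y hY hne
          rw [Finset.mem_sdiff] at hX hY
          exact hB.pw X hX.1 Y hY.1 hne
        · intro X hX
          rw [Finset.mem_sdiff] at hX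
          exact huntouched X hX.1 hX.2
        · intro X hX
          rw [Finset.mem_sdiff] at hX
          exact hB.odd X hX.1
      have hcard : (O \ Op).card + 1 = O.card := by
        have := Finset.card_sdiff_add_card_eq_card hOpO
        omega
      have := hmin _ _ hB' (by omega)
      omega
    · -- merge everything
      let N : Finset W := insert p (E ∪ Op.biUnion id)
      have hN1 : ∀ x, x ∈ N ↔ x = p ∨ x ∈ E ∨ ∃ X ∈ Op, x ∈ X := by
        intro x; simp [N]
      have hNcard : N.card = 1 + E.card + ∑ X ∈ Op, X.card := by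
        have h2 : (Op.biUnion id).card = ∑ X ∈ Op, X.card := by
          rw [Finset.card_biUnion]
          · simp
          · intro X hX Y hY hne
            exact hB.pw X (hOpO hX) Y (hOpO hY) hne
        have h3 : Disjoint E (Op.biUnion id) := by
          rw [Finset.disjoint_right]
          intro x hx hu
          simp only [Finset.mem_biUnion, id] at hx
          obtain ⟨X, hX, hxX⟩ := hx
          exact Finset.disjoint_left.1 (hEX X (hOpO hX)) hu hxX
        have h4 : p ∉ E ∪ Op.biUnion id := by
          simp only [Finset.mem_union, Finset.mem_biUnion, id, not_or, not_exists, not_and]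
          exact ⟨hpE, fun X hX => hpX X (hOpO hX)⟩
        simp only [N]
        rw [Finset.card_insert_of_notMem h4, Finset.card_union_of_disjoint h3, h2]
        omega
      have hNodd : Odd N.card := by
        rw [hNcard]
        have h2 := (hpar Op (fun X hX => hB.odd X (hOpO hX))).2 (by
          have : Op.card = 0 ∨ Op.card = 2 := by omega
          rcases this with h | h <;> rw [h] <;> decide)
        obtain ⟨s, hs⟩ := h2
        obtain ⟨e, he⟩ := hEeven
        exact ⟨s + e, by omega⟩
      have hNX : ∀ X ∈ O \ Op, Disjoint N X := by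
        intro X hX
        rw [Finset.mem_sdiff] at hX
        rw [Finset.disjoint_left]
        intro x hx hxX
        rcases (hN1 x).1 hx with rfl | hx | ⟨Y, hY, hxY⟩
        · exact hpX X hX.1 hxX
        · exact Finset.disjoint_left.1 (hEX X hX.1) hx hxX
        · refine Finset.disjoint_left.1 (hB.pw Y (hOpO hY) X hX.1 ?_) hxY hxX
          rintro rfl; exact hX.2 hY
      have hNnot : N ∉ O \ Op := by
        intro h
        have := Finset.disjoint_left.1 (hNX N h) ((hN1 p).2 (Or.inl rfl))
        exact this ((hN1 p).2 (Or.inl rfl))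
      have hB' : Bar G (U.erase p) (insert N (O \ Op)) := by
        refine ⟨?_, ?_, ?_, ?_⟩
        · intro X hX
          rcases Finset.mem_insert.1 hX with rfl | hX
          · rw [Finset.disjoint_left]
            intro x hx hxU
            rw [Finset.mem_erase] at hxU
            rcases (hN1 x).1 hx with rfl | hx | ⟨Y, hY, hxY⟩
            · exact hxU.1 rfl
            · exact Finset.disjoint_left.1 hEU hx hxU.2
            · exact Finset.disjoint_left.1 (hB.disj Y (hOpO hY)) hxY hxU.2
          · rw [Finset.mem_sdiff] at hX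
            exact (hB.disj X hX.1).mono_right (Finset.erase_subset _ _)
        · intro X hX Y hY hne
          rcases Finset.mem_insert.1 hX with rfl | hX
          · rcases Finset.mem_insert.1 hY with rfl | hY
            · exact absurd rfl hne
            · exact hNX Y hY
          · rcases Finset.mem_insert.1 hY with rfl | hY
            · exact (hNX X hX).symm
            · rw [Finset.mem_sdiff] at hX hY
              exact hB.pw X hX.1 Y hY.1 hne
        · intro X hX
          rcases Finset.mem_insert.1 hX with rfl | hX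
          · intro x hx y hy hadj
            have hyp : y ≠ p := by rintro rfl; exact hy ((hN1 _).2 (Or.inl rfl))
            rw [Finset.mem_erase]
            refine ⟨hyp, ?_⟩
            rcases (hN1 x).1 hx with rfl | hx | ⟨Y, hY, hxY⟩
            · -- neighbour of p
              by_contra hyU
              apply hy
              rw [hN1]
              by_cases hyE : y ∈ E
              · exact Or.inr (Or.inl hyE)
              · simp only [E, Finset.mem_compl, Finset.mem_union, not_or, Finset.mem_biUnion, id,
                  not_and, not_not] at hyE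
                obtain ⟨X, hX, hyX⟩ := hyE hyU
                exact Or.inr (Or.inr ⟨X, (hOp X).2 ⟨hX, y, hyX, hadj⟩, hyX⟩)
            · refine hEcl x hx y ?_ hadj
              intro h; exact hy ((hN1 y).2 (Or.inr (Or.inl h)))
            · refine hB.closed Y (hOpO hY) x hxY y ?_ hadj
              intro h; exact hy ((hN1 y).2 (Or.inr (Or.inr ⟨Y, hY, h⟩)))
          · rw [Finset.mem_sdiff] at hX
            exact huntouched X hX.1 hX.2
        · intro X hX
          rcases Finset.mem_insert.1 hX with rfl | hX
          · exact hNodd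
          · rw [Finset.mem_sdiff] at hX
            exact hB.odd X hX.1
      have hcard : (O \ Op).card + Op.card = O.card :=
        Finset.card_sdiff_add_card_eq_card hOpO
      have h5 : (insert N (O \ Op)).card ≤ (U.erase p).card + d := hmax _ _ hB'
      have h6 : (insert N (O \ Op)).card = (O \ Op).card + 1 :=
        Finset.card_insert_of_notMem hNnot
      by_cases h7 : Op.card = 0
      · omega
      · have h8 : (insert N (O \ Op)).card = (U.erase p).card + d → U.card ≤ (U.erase p).card :=
          hmin _ _ hB'
        have := h8 (by omega)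
        omega

end Pool.Agent.ConnAug.TB
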