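import Mathlib
import Pool.Agent.ConnAug.Defs
import Pool.Agent.ConnAug.TutteBerge

/-!
# Module BM: min-max for simple `b`-matchings
-/

namespace Pool.Agent.ConnAug.BM

open Finset Pool.Agent.ConnAug

variable {V : Type} [Fintype V] [DecidableEq V]

/-- Darts of `H`. -/
abbrev Dt (H : SimpleGraph V) : Type := {p : V × V // H.Adj p.1 p.2}

/-- Reversal of a dart. -/
def rev {H : SimpleGraph V} (p : Dt H) : Dt H := ⟨(p.1.2, p.1.1), p.2.symm⟩

/-- Vertices of the gadget graph: `b` copies of each vertex and the darts. -/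
abbrev GW (H : SimpleGraph V) (b : ℕ) : Type := (V × Fin b) ⊕ Dt H

/-- The gadget graph. -/
def gad (H : SimpleGraph V) (b : ℕ) : SimpleGraph (GW H b) where
  Adj x y := match x, y with
    | Sum.inl _, Sum.inl _ => False
    | Sum.inl a, Sum.inr p => p.1.1 = a.1
    | Sum.inr p, Sum.inl a => p.1.1 = a.1
    | Sum.inr p, Sum.inr q => q.1 = (p.1.2, p.1.1)
  symm := ⟨by
    rintro (a | p) (a' | q) h
    · exact h
    · exact h
    · exact h
    · have h' : q.1 = (p.1.2, p.1.1) := h
      change p.1 = (q.1.2, q.1.1)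
      rw [h']⟩
  loopless := ⟨by
    rintro (a | p) h
    · exact h
    · have h' : p.1 = (p.1.2, p.1.1) := h
      have h1 : p.1.1 = p.1.2 := congrArg Prod.fst h'
      exact p.2.ne h1⟩

omit [Fintype V] [DecidableEq V] in
open Classical in
theorem eb_eq_filter (H : SimpleGraph V) (A B : Finset V) :
    eb H A B = ((A ×ˢ B).filter (fun p => H.Adj p.1 p.2)).card := by
  rw [eb, Finset.card_filter, Finset.sum_product]

open Classical in
theorem eb_eq_card (H : SimpleGraph V) (A B : Finset V) :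
    eb H A B = (univ.filter (fun p : Dt H => p.1.1 ∈ A ∧ p.1.2 ∈ B)).card := by
  rw [eb_eq_filter, ← Finset.card_map ⟨Subtype.val, Subtype.val_injective⟩]
  congr 1
  ext ⟨x, y⟩
  simp only [Finset.mem_filter, Finset.mem_product, Finset.mem_map, Finset.mem_univ, true_and,
    Function.Embedding.coeFn_mk]
  constructor
  · rintro ⟨⟨h1, h2⟩, h3⟩
    exact ⟨⟨(x, y), h3⟩, ⟨h1, h2⟩, rfl⟩
  · rintro ⟨⟨⟨x', y'⟩, h3⟩, ⟨h1, h2⟩, h4⟩
    cases h4
    exact ⟨⟨h1, h2⟩, h3⟩

open Classical in
theorem eb_univ (H : SimpleGraph V) : eb H univ univ = Fintype.card (Dt H) := by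
  rw [eb_eq_card]
  simp [Finset.card_univ]

omit [Fintype V] [DecidableEq V] in
theorem eb_symm (H : SimpleGraph V) (A B : Finset V) : eb H A B = eb H B A := by
  classical
  unfold eb
  rw [Finset.sum_comm]
  refine Finset.sum_congr rfl fun u _ => Finset.sum_congr rfl fun v _ => ?_
  simp only [H.adj_comm]

omit [Fintype V] in
theorem eb_union_right (H : SimpleGraph V) (A B C : Finset V) (h : Disjoint B C) :
    eb H A (B ∪ C) = eb H A B + eb H A C := by
  classical
  unfold eb
  rw [← Finset.sum_add_distrib]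
  exact Finset.sum_congr rfl fun u _ => Finset.sum_union h

/-- A disjoint family each of whose members meets `Z` has at most `|Z|` members. -/
theorem card_le_of_hit {α : Type} [DecidableEq α] (A : Finset (Finset α)) (Z : Finset α)
    (hpw : ∀ X ∈ A, ∀ Y ∈ A, X ≠ Y → Disjoint X Y) (hit : ∀ X ∈ A, ∃ x ∈ X, x ∈ Z) :
    A.card ≤ Z.card := by
  classical
  have h : ∀ X : Finset α, ∃ x : Option α, X ∈ A → ∃ y, x = some y ∧ y ∈ X ∧ y ∈ Z := by
    intro X
    by_cases hX : X ∈ A
    · obtain ⟨x, h1, h2⟩ := hit X hX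
      exact ⟨some x, fun _ => ⟨x, rfl, h1, h2⟩⟩
    · exact ⟨none, fun h => absurd h hX⟩
  choose g hg using h
  have : A.card ≤ (Z.map ⟨some, Option.some_injective α⟩).card := by
    apply Finset.card_le_card_of_injOn g
    · intro X hX
      obtain ⟨y, h1, h2, h3⟩ := hg X hX
      rw [h1]
      simpa using h3
    · intro X hX Y hY hXY
      obtain ⟨y, h1, h2, h3⟩ := hg X hX
      obtain ⟨z, h4, h5, h6⟩ := hg Y hY
      by_contra hne
      rw [h1, h4] at hXY
      cases hXY
      exact Finset.disjoint_left.1 (hpw X hX Y hY hne) h2 h5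
  rwa [Finset.card_map] at this

omit [Fintype V] [DecidableEq V] in
/-- A finset of darts closed under reversal has even cardinality. -/
theorem even_of_rev {H : SimpleGraph V} (Y : Finset (Dt H)) (h : ∀ p ∈ Y, rev p ∈ Y) :
    Even Y.card := by
  classical
  have h1 : ∑ p ∈ Y, (1 : ZMod 2) = 0 := by
    apply Finset.sum_involution (fun p _ => rev p)
    · intro p _; decide
    · intro p _ _ hp
      have h2 : (p.1.2, p.1.1) = p.1 := congrArg Subtype.val hp
      have h3 : p.1.2 = p.1.1 := congrArg Prod.fst h2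
      exact p.2.ne h3.symm
    · intro p hp; exact h p hp
    · intro p _; rfl
  rw [Finset.sum_const, nsmul_eq_mul, mul_one, ZMod.natCast_eq_zero_iff] at h1
  exact even_iff_two_dvd.2 h1

/-- Module BM. -/
theorem bm_proof : Stmt_BMatch := by
  intro V _ _ H b
  classical
  rcases Nat.eq_zero_or_pos b with rfl | hb
  · refine ⟨⊥, univ, ∅, ∅, bot_le, ?_, ⟨by simp, by simp, by simp, by simp, by simp⟩, ?_⟩
    · intro v
      simp [dg, eb]
    · simp [barVal, eb]
  obtain ⟨d, U, O, hB, hc, hmax, hev, h3⟩ := TB.exists_opt (gad H b)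
  obtain ⟨f, hf, hadj⟩ := TB.exists_matching (gad H b) d hmax hev
  -- the matching
  let F : SimpleGraph V :=
    { Adj := fun v w => ∃ h : H.Adj v w,
        (∃ i, f (Sum.inl (Sum.inr ⟨(v, w), h⟩)) = Sum.inl (Sum.inl (v, i))) ∧
        (∃ j, f (Sum.inl (Sum.inr ⟨(w, v), h.symm⟩)) = Sum.inl (Sum.inl (w, j)))
      symm := ⟨by
        rintro v w ⟨h, h1, h2⟩
        exact ⟨h.symm, h2, h1⟩⟩
      loopless := ⟨by rintro v ⟨h, -⟩; exact h.ne rfl⟩ }
  have hFH : F ≤ H := by
    rintro v w ⟨h, -⟩; exact h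
  have hFdeg : ∀ v, dg F v ≤ b := by
    intro v
    have h1 : dg F v = (univ.filter (fun w => F.Adj v w)).card := by
      unfold dg
      rw [eb, Finset.sum_singleton, Finset.card_filter]
      exact Finset.sum_congr rfl fun w _ => by split_ifs <;> rfl
    rw [h1]
    have h2 : ∀ w : V, ∃ i : Fin b, F.Adj v w → ∃ h : H.Adj v w,
        f (Sum.inl (Sum.inr ⟨(v, w), h⟩)) = Sum.inl (Sum.inl (v, i)) := by
      intro w
      by_cases hw : F.Adj v w
      · obtain ⟨h, ⟨i, hi⟩, -⟩ := hw
        exact ⟨i, fun _ => ⟨h, hi⟩⟩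
      · exact ⟨⟨0, hb⟩, fun h => absurd h hw⟩
    choose g hg using h2
    have h3 : (univ.filter (fun w => F.Adj v w)).card ≤ (univ : Finset (Fin b)).card := by
      apply Finset.card_le_card_of_injOn g (fun _ _ => Finset.mem_coe.2 (Finset.mem_univ _))
      intro w hw w' hw' hww
      simp only [Finset.coe_filter, Finset.mem_univ, true_and, Set.mem_ofPred_eq] at hw hw'
      obtain ⟨h, h4⟩ := hg w hw
      obtain ⟨h', h5⟩ := hg w' hw'
      rw [hww, ← h5] at h4
      have h6 := congrArg f h4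
      rw [hf, hf] at h6
      have h7 : (⟨(v, w), h⟩ : Dt H) = ⟨(v, w'), h'⟩ := Sum.inr_injective (Sum.inl_injective h6)
      exact congrArg (fun q : Dt H => q.1.2) h7
    simpa using h3
  have hFsize : Fintype.card V * b ≤ eb F univ univ + d := by
    let R : V × Fin b → Dt F ⊕ Fin d → Prop := fun c y => match y with
      | Sum.inl p => f (Sum.inl (Sum.inl c)) = Sum.inl (Sum.inr ⟨p.1, hFH p.2⟩)
      | Sum.inr z => f (Sum.inl (Sum.inl c)) = Sum.inr z ∨
          ∃ p : Dt H, f (Sum.inl (Sum.inl c)) = Sum.inl (Sum.inr p) ∧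
            f (Sum.inl (Sum.inr (rev p))) = Sum.inr z
    have hR : ∀ c, ∃ y, R c y := by
      intro c
      rcases hfc : f (Sum.inl (Sum.inl c)) with (c' | p) | z
      · exact absurd (hadj _ _ hfc) (fun h => h)
      · have hpc : p.1.1 = c.1 := hadj _ _ hfc
        have hfp : f (Sum.inl (Sum.inr p)) = Sum.inl (Sum.inl c) := by rw [← hfc, hf]
        rcases hfr : f (Sum.inl (Sum.inr (rev p))) with (c' | q) | z
        · -- F edge
          have hc' : (rev p).1.1 = c'.1 := hadj _ _ hfr
          have hF : F.Adj p.1.1 p.1.2 := by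
            refine ⟨p.2, ⟨c.2, ?_⟩, ⟨c'.2, ?_⟩⟩
            · change f (Sum.inl (Sum.inr p)) = _
              rw [hfp, hpc]
            · change f (Sum.inl (Sum.inr (rev p))) = _
              rw [hfr]
              have : p.1.2 = c'.1 := hc'
              rw [this]
          refine ⟨Sum.inl ⟨p.1, hF⟩, ?_⟩
          change f (Sum.inl (Sum.inl c)) = _
          rw [hfc]
        · have hq : q.1 = ((rev p).1.2, (rev p).1.1) := hadj _ _ hfr
          have hqp : q = p := Subtype.ext hq
          subst hqp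
          have := congrArg f hfr
          rw [hf, hfp] at this
          cases this
        · exact ⟨Sum.inr z, Or.inr ⟨p, hfc, hfr⟩⟩
      · exact ⟨Sum.inr z, Or.inl hfc⟩
    choose g hg using hR
    have finj : Function.Injective f := fun x y h => by
      have := congrArg f h
      rwa [hf, hf] at this
    have hginj : Function.Injective g := by
      intro c c' hcc
      have h1 := hg c
      have h2 := hg c'
      rw [← hcc] at h2
      rcases hgc : g c with p | z
      · rw [hgc] at h1 h2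
        change f (Sum.inl (Sum.inl c)) = _ at h1
        change f (Sum.inl (Sum.inl c')) = _ at h2
        rw [← h2] at h1
        have := finj h1
        exact Sum.inl_injective (Sum.inl_injective this)
      · rw [hgc] at h1 h2
        rcases h1 with h1 | ⟨p, h1, h1'⟩ <;> rcases h2 with h2 | ⟨q, h2, h2'⟩
        · rw [← h2] at h1
          exact Sum.inl_injective (Sum.inl_injective (finj h1))
        · rw [← h2'] at h1
          have := finj h1
          cases this
        · rw [← h2] at h1'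
          have := finj h1'
          cases this
        · rw [← h2'] at h1'
          have h4 : rev p = rev q := Sum.inr_injective (Sum.inl_injective (finj h1'))
          have h5 : p = q := by
            have := congrArg rev h4
            exact this
          rw [h5, ← h2] at h1
          exact Sum.inl_injective (Sum.inl_injective (finj h1))
    have := Fintype.card_le_of_injective g hginj
    rw [Fintype.card_prod, Fintype.card_sum, Fintype.card_fin, Fintype.card_fin] at this
    rw [eb_univ]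
    convert this
  -- the barrier
  let S : Finset V := univ.filter (fun v => ∀ i : Fin b, (Sum.inl (v, i) : GW H b) ∈ U)
  let T : Finset V := univ.filter (fun v => ∀ p : Dt H, p.1.1 = v → (Sum.inr p : GW H b) ∈ U)
  have hS : ∀ v, v ∈ S ↔ ∀ i : Fin b, (Sum.inl (v, i) : GW H b) ∈ U := by simp [S]
  have hT : ∀ v, v ∈ T ↔ ∀ p : Dt H, p.1.1 = v → (Sum.inr p : GW H b) ∈ U := by
    intro v; simp only [T, Finset.mem_filter, Finset.mem_univ, true_and]
  have hXU : ∀ X ∈ O, ∀ x ∈ X, x ∉ U := fun X hX x hx h =>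
    Finset.disjoint_left.1 (hB.disj X hX) hx h
  have hPort : ∀ p : Dt H, (Sum.inr p : GW H b) ∈ U → p.1.1 ∈ T := by
    intro p hp
    rw [hT]
    intro q hq
    by_contra hqU
    -- sets touched through a copy contain `q`
    have hcopy : ∀ X ∈ O, (∃ x ∈ X, (gad H b).Adj (Sum.inr p) x) →
        (Sum.inr (rev p) : GW H b) ∈ X ∨ (Sum.inr q : GW H b) ∈ X := by
      rintro X hX ⟨x, hx, hax⟩
      rcases x with c | r
      · right
        by_contra hqX
        have h1 : p.1.1 = c.1 := hax
        refine hqU (hB.closed X hX _ hx _ hqX ?_)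
        change q.1.1 = c.1
        rw [hq, h1]
      · left
        have h1 : r.1 = (p.1.2, p.1.1) := hax
        have : r = rev p := Subtype.ext h1
        rwa [← this]
    obtain ⟨X, hX, Y, hY, Z, hZ, hXY, hXZ, hYZ, tX, tY, tZ⟩ := h3 _ hp
    have disj : ∀ A ∈ O, ∀ B ∈ O, A ≠ B → ∀ x, x ∈ A → x ∈ B → False :=
      fun A hA B hB' hne x h1 h2 => Finset.disjoint_left.1 (hB.pw A hA B hB' hne) h1 h2
    rcases hcopy X hX tX with h1 | h1 <;> rcases hcopy Y hY tY with h2 | h2 <;>
      rcases hcopy Z hZ tZ with h4 | h4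
    · exact disj _ hX _ hY hXY _ h1 h2
    · exact disj _ hX _ hY hXY _ h1 h2
    · exact disj _ hX _ hZ hXZ _ h1 h4
    · exact disj _ hY _ hZ hYZ _ h2 h4
    · exact disj _ hY _ hZ hYZ _ h2 h4
    · exact disj _ hX _ hZ hXZ _ h1 h4
    · exact disj _ hX _ hY hXY _ h1 h2
    · exact disj _ hX _ hY hXY _ h1 h2
  have hCopy : ∀ c : V × Fin b, (Sum.inl c : GW H b) ∈ U → c.1 ∈ S := by
    intro c hcU
    rw [hS]
    intro j
    by_contra hjU
    have htouch : ∀ X ∈ O, (∃ x ∈ X, (gad H b).Adj (Sum.inl c) x) →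
        (Sum.inl (c.1, j) : GW H b) ∈ X := by
      rintro X hX ⟨x, hx, hax⟩
      rcases x with c' | r
      · exact absurd hax (fun h => h)
      · by_contra hjX
        have h1 : r.1.1 = c.1 := hax
        exact hjU (hB.closed X hX _ hx _ hjX h1)
    obtain ⟨X, hX, Y, hY, Z, hZ, hXY, hXZ, hYZ, tX, tY, tZ⟩ := h3 _ hcU
    exact Finset.disjoint_left.1 (hB.pw X hX Y hY hXY) (htouch X hX tX) (htouch Y hY tY)
  have hST : Disjoint S T := by
    rw [Finset.disjoint_left]
    intro v hvS hvT
    rw [hS] at hvS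
    rw [hT] at hvT
    obtain ⟨X, hX, -, -, -, -, -, -, -, ⟨x, hx, hax⟩, -, -⟩ := h3 _ (hvS ⟨0, hb⟩)
    rcases x with c' | r
    · exact hax
    · exact hXU X hX _ hx (hvT r hax)
  -- size of U
  have hUcard : U.card = b * S.card + eb H T univ := by
    rw [← Finset.card_toLeft_add_card_toRight]
    congr 1
    · have : U.toLeft = S ×ˢ (univ : Finset (Fin b)) := by
        ext ⟨v, i⟩
        simp only [Finset.mem_toLeft, Finset.mem_product, Finset.mem_univ, and_true]
        exact ⟨fun h => hCopy (v, i) h, fun h => (hS v).1 h i⟩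
      rw [this, Finset.card_product, Finset.card_univ, Fintype.card_fin, mul_comm]
    · rw [eb_eq_card]
      congr 1
      ext p
      simp only [Finset.mem_toRight, Finset.mem_filter, Finset.mem_univ, true_and, and_true]
      exact ⟨fun h => hPort p h, fun h => (hT p.1.1).1 h p rfl⟩
  -- the three kinds of sets
  let P1 : Finset (GW H b) → Prop := fun X => ∃ x ∈ X, x ∈ (T ×ˢ (univ : Finset (Fin b))).map
    ⟨(Sum.inl : _ → GW H b), Sum.inl_injective⟩
  let P2 : Finset (GW H b) → Prop := fun X => ∃ x ∈ X, x ∈ (univ.filter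
    (fun p : Dt H => p.1.1 ∈ S ∧ p.1.2 ∈ T)).map ⟨(Sum.inr : _ → GW H b), Sum.inr_injective⟩
  let O1 := O.filter P1
  let O2 := O.filter (fun X => ¬ P1 X ∧ P2 X)
  let O3 := O.filter (fun X => ¬ P1 X ∧ ¬ P2 X)
  have hOsum : O.card = O1.card + O2.card + O3.card := by
    have h1 : O1.card + (O.filter (fun X => ¬ P1 X)).card = O.card :=
      Finset.card_filter_add_card_filter_not (s := O) P1
    have h2 : O2.card + O3.card = (O.filter (fun X => ¬ P1 X)).card := by
      have := Finset.card_filter_add_card_filter_not (s := O.filter (fun X => ¬ P1 X)) P2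
      rw [Finset.filter_filter, Finset.filter_filter] at this
      convert this
    rw [← h1, ← h2, add_assoc]
  have hpwsub : ∀ Q : Finset (Finset (GW H b)), Q ⊆ O → ∀ X ∈ Q, ∀ Y ∈ Q, X ≠ Y → Disjoint X Y :=
    fun Q hQ X hX Y hY hne => hB.pw X (hQ hX) Y (hQ hY) hne
  have hO1 : O1.card ≤ b * T.card := by
    have := card_le_of_hit O1 _ (hpwsub _ (Finset.filter_subset _ _))
      (fun X hX => (Finset.mem_filter.1 hX).2)
    rw [Finset.card_map, Finset.card_product, Finset.card_univ, Fintype.card_fin] at this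
    rw [mul_comm]; exact this
  have hO2 : O2.card ≤ eb H S T := by
    have := card_le_of_hit O2 _ (hpwsub _ (Finset.filter_subset _ _))
      (fun X hX => (Finset.mem_filter.1 hX).2.2)
    rw [Finset.card_map, ← eb_eq_card] at this
    exact this
  let CX : Finset (GW H b) → Finset V := fun X =>
    univ.filter (fun v => v ∉ S ∪ T ∧ (Sum.inl (v, ⟨0, hb⟩) : GW H b) ∈ X)
  have hCX : ∀ X v, v ∈ CX X ↔ v ∉ S ∪ T ∧ (Sum.inl (v, ⟨0, hb⟩) : GW H b) ∈ X := by
    intro X v; simp only [CX, Finset.mem_filter, Finset.mem_univ, true_and]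
  -- facts on R-vertices
  have hRport : ∀ v, v ∉ T → ∀ p : Dt H, p.1.1 = v → (Sum.inr p : GW H b) ∉ U := by
    intro v hv p hp hU
    exact hv (hp ▸ hPort p hU)
  have hRcopy : ∀ v, v ∉ S → ∀ i, (Sum.inl (v, i) : GW H b) ∉ U := fun v hv i hU =>
    hv (hCopy (v, i) hU)
  have hc2p : ∀ X ∈ O, ∀ v, v ∉ T → ∀ i, (Sum.inl (v, i) : GW H b) ∈ X →
      ∀ p : Dt H, p.1.1 = v → (Sum.inr p : GW H b) ∈ X := by
    intro X hX v hv i hi p hp
    by_contra hpX
    exact hRport v hv p hp (hB.closed X hX _ hi _ hpX hp)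
  have hp2c : ∀ X ∈ O, ∀ v, v ∉ S → ∀ p : Dt H, p.1.1 = v → (Sum.inr p : GW H b) ∈ X →
      ∀ i, (Sum.inl (v, i) : GW H b) ∈ X := by
    intro X hX v hv p hp hpX i
    by_contra hi
    exact hRcopy v hv i (hB.closed X hX _ hpX _ hi hp)
  have hp2p : ∀ X ∈ O, ∀ p : Dt H, (Sum.inr p : GW H b) ∈ X → p.1.2 ∉ T →
      (Sum.inr (rev p) : GW H b) ∈ X := by
    intro X hX p hpX hp2
    by_contra hi
    exact hRport p.1.2 hp2 (rev p) rfl (hB.closed X hX _ hpX _ hi rfl)
  have hhasport : ∀ v, v ∉ T → ∃ p : Dt H, p.1.1 = v := by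
    intro v hv
    by_contra hno
    push Not at hno
    exact hv ((hT v).2 (fun p hp => absurd hp (hno p)))
  have hc2c : ∀ X ∈ O, ∀ v, v ∉ S ∪ T → ∀ i j, (Sum.inl (v, i) : GW H b) ∈ X →
      (Sum.inl (v, j) : GW H b) ∈ X := by
    intro X hX v hv i j hi
    rw [Finset.mem_union, not_or] at hv
    obtain ⟨p, hp⟩ := hhasport v hv.2
    exact hp2c X hX v hv.1 p hp (hc2p X hX v hv.2 i hi p hp) j
  have hodd3 : ∀ X ∈ O3, Odd (b * (CX X).card + eb H (CX X) T) := by
    intro X hX3
    obtain ⟨hX, hn1, hn2⟩ := Finset.mem_filter.1 hX3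
    have h1 := hB.odd X hX
    rw [← Finset.card_toLeft_add_card_toRight] at h1
    have h2 : X.toLeft = (CX X) ×ˢ (univ : Finset (Fin b)) := by
      ext ⟨v, i⟩
      simp only [Finset.mem_toLeft, Finset.mem_product, Finset.mem_univ, and_true]
      constructor
      · intro h
        have hvS : v ∉ S := fun hvS => hXU X hX _ h ((hS v).1 hvS i)
        have hvT : v ∉ T := fun hvT => hn1 ⟨_, h, by simp [hvT]⟩
        rw [hCX]
        have hv : v ∉ S ∪ T := by rw [Finset.mem_union, not_or]; exact ⟨hvS, hvT⟩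
        exact ⟨hv, hc2c X hX v hv i _ h⟩
      · intro h
        rw [hCX] at h
        exact hc2c X hX v h.1 _ i h.2
    have h4 := Finset.card_filter_add_card_filter_not (s := X.toRight)
      (fun p : Dt H => p.1.2 ∈ T)
    have h5 : X.toRight.filter (fun p : Dt H => p.1.2 ∈ T) =
        univ.filter (fun p : Dt H => p.1.1 ∈ CX X ∧ p.1.2 ∈ T) := by
      ext p
      simp only [Finset.mem_filter, Finset.mem_toRight, Finset.mem_univ, true_and]
      constructor
      · rintro ⟨hpX, hp2⟩
        refine ⟨?_, hp2⟩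
        have hT' : p.1.1 ∉ T := fun h => hXU X hX _ hpX ((hT _).1 h p rfl)
        have hS' : p.1.1 ∉ S := fun h => hn2 ⟨_, hpX, by simp [h, hp2]⟩
        rw [hCX]
        refine ⟨by rw [Finset.mem_union, not_or]; exact ⟨hS', hT'⟩, ?_⟩
        exact hp2c X hX _ hS' p rfl hpX _
      · rintro ⟨hp1, hp2⟩
        rw [hCX, Finset.mem_union, not_or] at hp1
        exact ⟨hc2p X hX _ hp1.1.2 _ hp1.2 p rfl, hp2⟩
    have h6 : Even (X.toRight.filter (fun p : Dt H => ¬ p.1.2 ∈ T)).card := by
      apply even_of_rev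
      intro p hp
      simp only [Finset.mem_filter, Finset.mem_toRight] at hp ⊢
      refine ⟨hp2p X hX p hp.1 hp.2, ?_⟩
      exact fun h => hXU X hX _ hp.1 ((hT _).1 h p rfl)
    rw [h5, ← eb_eq_card] at h4
    rw [h2, Finset.card_product, Finset.card_univ, Fintype.card_fin] at h1
    obtain ⟨e, he⟩ := h6
    obtain ⟨o, ho⟩ := h1
    refine ⟨o - e, ?_⟩
    have h7 : b * (CX X).card = (CX X).card * b := mul_comm _ _
    omega
  have hne3 : ∀ X ∈ O3, (CX X).Nonempty := by
    intro X hX
    rw [Finset.nonempty_iff_ne_empty]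
    intro h
    have := hodd3 X hX
    rw [h] at this
    simp [eb] at this
  have hinj3 : Set.InjOn CX O3 := by
    intro X hX Y hY hXY
    have hX' := (Finset.mem_filter.1 (Finset.mem_coe.1 hX)).1
    have hY' := (Finset.mem_filter.1 (Finset.mem_coe.1 hY)).1
    by_contra hne
    obtain ⟨v, hv⟩ := hne3 X hX
    have hv2 := hv
    rw [hXY] at hv2
    rw [hCX] at hv hv2
    exact Finset.disjoint_left.1 (hB.pw X hX' Y hY' hne) hv.2 hv2.2
  have hBar : Barrier H b S T (O3.image CX) := by
    refine ⟨hST, ?_, ?_, ?_, ?_⟩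
    · intro C hC
      obtain ⟨X, hX, rfl⟩ := Finset.mem_image.1 hC
      rw [Finset.disjoint_left]
      intro v hv
      exact ((hCX X v).1 hv).1
    · intro C hC D hD hne
      obtain ⟨X, hX, rfl⟩ := Finset.mem_image.1 hC
      obtain ⟨Y, hY, rfl⟩ := Finset.mem_image.1 hD
      have hXY : X ≠ Y := by rintro rfl; exact hne rfl
      rw [Finset.disjoint_left]
      intro v hv hv2
      exact Finset.disjoint_left.1 (hB.pw X (Finset.mem_filter.1 hX).1 Y
        (Finset.mem_filter.1 hY).1 hXY) ((hCX X v).1 hv).2 ((hCX Y v).1 hv2).2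
    · intro C hC u hu v hv huv
      obtain ⟨X, hX3, rfl⟩ := Finset.mem_image.1 hC
      have hX := (Finset.mem_filter.1 hX3).1
      by_contra hvR
      have hu' := (hCX X u).1 hu
      have huT : u ∉ T := fun h => hu'.1 (Finset.mem_union_right _ h)
      have hvS : v ∉ S := fun h => hvR (Finset.mem_union_left _ h)
      have hvT : v ∉ T := fun h => hvR (Finset.mem_union_right _ h)
      have h1 : (Sum.inr (⟨(u, v), huv⟩ : Dt H) : GW H b) ∈ X :=
        hc2p X hX u huT _ hu'.2 ⟨(u, v), huv⟩ rfl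
      have h2 := hp2p X hX ⟨(u, v), huv⟩ h1 hvT
      have h4 := hp2c X hX v hvS (rev ⟨(u, v), huv⟩) rfl h2 ⟨0, hb⟩
      exact hv ((hCX X v).2 ⟨hvR, h4⟩)
    · intro C hC
      obtain ⟨X, hX, rfl⟩ := Finset.mem_image.1 hC
      exact hodd3 X hX
  refine ⟨F, S, T, O3.image CX, hFH, hFdeg, hBar, ?_⟩
  have hCCcard : (O3.image CX).card = O3.card := Finset.card_image_of_injOn hinj3
  rw [hCCcard]
  -- final computation
  have hRc : Disjoint (S ∪ T) (S ∪ T)ᶜ := disjoint_compl_right
  have e1 : eb H T univ = eb H T S + eb H T T + eb H T (S ∪ T)ᶜ := by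
    rw [← eb_union_right H T S T hST, ← eb_union_right H T (S ∪ T) _ hRc, Finset.union_compl]
  have e2 : eb H T S = eb H S T := eb_symm _ _ _
  have e3 : eb H (S ∪ T)ᶜ T = eb H T (S ∪ T)ᶜ := eb_symm _ _ _
  have e4 : Fintype.card V = S.card + T.card + ((S ∪ T)ᶜ).card := by
    have := Finset.card_add_card_compl (S ∪ T)
    rw [Finset.card_union_of_disjoint hST] at this
    omega
  unfold barVal
  have e5 : Fintype.card V * b = b * S.card + b * T.card + b * ((S ∪ T)ᶜ).card := by
    rw [e4]; ring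
  have e6 : 2 * b * S.card = b * S.card + b * S.card := by ring
  omega

end Pool.Agent.ConnAug.BM
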