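import Pool.Agent.ConnAug.Defs

/-!
# Basic facts on `eb`, `dg` and `EC`
-/

set_option linter.unusedSectionVars false

namespace Pool.Agent.ConnAug

open Finset

variable {V : Type} [Fintype V] [DecidableEq V]

section bilinear

theorem eb_comm (G : SimpleGraph V) (A B : Finset V) : eb G A B = eb G B A := by
  classical
  unfold eb
  rw [Finset.sum_comm]
  refine Finset.sum_congr rfl fun x _ => Finset.sum_congr rfl fun y _ => ?_
  simp only [G.adj_comm]

@[simp] theorem eb_empty_left (G : SimpleGraph V) (B : Finset V) : eb G ∅ B = 0 := by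
  simp [eb]

@[simp] theorem eb_empty_right (G : SimpleGraph V) (A : Finset V) : eb G A ∅ = 0 := by
  simp [eb]

theorem eb_union_left (G : SimpleGraph V) {A A' : Finset V} (h : Disjoint A A') (B : Finset V) :
    eb G (A ∪ A') B = eb G A B + eb G A' B := by
  classical
  unfold eb
  rw [Finset.sum_union h]

theorem eb_union_right (G : SimpleGraph V) (A : Finset V) {B B' : Finset V} (h : Disjoint B B') :
    eb G A (B ∪ B') = eb G A B + eb G A B' := by
  rw [eb_comm, eb_union_left G h, eb_comm G B, eb_comm G B']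

theorem eb_biUnion_left (G : SimpleGraph V) {ι : Type*} [DecidableEq ι] (s : Finset ι)
    (f : ι → Finset V) (h : ∀ i ∈ s, ∀ j ∈ s, i ≠ j → Disjoint (f i) (f j)) (B : Finset V) :
    eb G (s.biUnion f) B = ∑ i ∈ s, eb G (f i) B := by
  classical
  unfold eb
  rw [Finset.sum_biUnion]
  intro i hi j hj hij
  exact h i hi j hj hij

theorem eb_eq_sum_left (G : SimpleGraph V) (A B : Finset V) :
    eb G A B = ∑ u ∈ A, eb G {u} B := by
  classical
  simp [eb]

theorem eb_eq_sum_right (G : SimpleGraph V) (A B : Finset V) :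
    eb G A B = ∑ v ∈ B, eb G A {v} := by
  rw [eb_comm, eb_eq_sum_left]
  exact Finset.sum_congr rfl fun v _ => eb_comm G _ _

theorem eb_univ_right (G : SimpleGraph V) (A : Finset V) : eb G A univ = ∑ v ∈ A, dg G v :=
  eb_eq_sum_left G A univ

theorem eb_mono_left (G : SimpleGraph V) {A A' : Finset V} (h : A ⊆ A') (B : Finset V) :
    eb G A B ≤ eb G A' B := by
  classical
  unfold eb
  exact Finset.sum_le_sum_of_subset h

theorem eb_mono_right (G : SimpleGraph V) (A : Finset V) {B B' : Finset V} (h : B ⊆ B') :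
    eb G A B ≤ eb G A B' := by
  rw [eb_comm, eb_comm G A]
  exact eb_mono_left G h A

theorem eb_mono {G G' : SimpleGraph V} (h : G ≤ G') (A B : Finset V) : eb G A B ≤ eb G' A B := by
  classical
  unfold eb
  refine Finset.sum_le_sum fun u _ => Finset.sum_le_sum fun v _ => ?_
  by_cases h1 : G.Adj u v
  · simp [h1, h h1]
  · simp [h1]

/-- Split the right argument into `B` and its complement. -/
theorem eb_add_compl (G : SimpleGraph V) (A B : Finset V) :
    eb G A B + eb G A Bᶜ = eb G A univ := by
  rw [← eb_union_right G A disjoint_compl_right, Finset.union_compl]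

theorem eb_add_compl_left (G : SimpleGraph V) (A B : Finset V) :
    eb G A B + eb G Aᶜ B = eb G univ B := by
  rw [← eb_union_left G disjoint_compl_right, Finset.union_compl]

theorem eb_inter_sdiff_left (G : SimpleGraph V) (A X B : Finset V) :
    eb G A B = eb G (A ∩ X) B + eb G (A \ X) B := by
  rw [← eb_union_left G (Finset.disjoint_sdiff_inter A X).symm]
  congr 1
  rw [Finset.union_comm]
  exact (Finset.sdiff_union_inter A X).symm

theorem eb_inter_sdiff_right (G : SimpleGraph V) (A B X : Finset V) :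
    eb G A B = eb G A (B ∩ X) + eb G A (B \ X) := by
  rw [eb_comm, eb_inter_sdiff_left G B X A, eb_comm G _ A, eb_comm G _ A]

theorem eb_singleton (G : SimpleGraph V) (u v : V) [Decidable (G.Adj u v)] :
    eb G {u} {v} = if G.Adj u v then 1 else 0 := by
  unfold eb
  rw [Finset.sum_singleton, Finset.sum_singleton]
  congr

theorem eb_eq_zero_iff (G : SimpleGraph V) (A B : Finset V) :
    eb G A B = 0 ↔ ∀ u ∈ A, ∀ v ∈ B, ¬ G.Adj u v := by
  classical
  simp [eb]

theorem eb_pos_iff (G : SimpleGraph V) (A B : Finset V) :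
    0 < eb G A B ↔ ∃ u ∈ A, ∃ v ∈ B, G.Adj u v := by
  rw [Nat.pos_iff_ne_zero, Ne, eb_eq_zero_iff]
  push Not
  rfl

/-- Members of `A × B` that are adjacent. -/
theorem eb_eq_card (G : SimpleGraph V) (A B : Finset V) [DecidableRel G.Adj] :
    eb G A B = ((A ×ˢ B).filter fun p => G.Adj p.1 p.2).card := by
  classical
  rw [Finset.card_filter, Finset.sum_product]
  unfold eb
  refine Finset.sum_congr rfl fun u _ => Finset.sum_congr rfl fun v _ => ?_
  congr

theorem eb_singleton_eq_card (G : SimpleGraph V) (u : V) (B : Finset V) [DecidablePred (G.Adj u)] :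
    eb G {u} B = (B.filter fun v => G.Adj u v).card := by
  classical
  rw [Finset.card_filter]
  unfold eb
  rw [Finset.sum_singleton]
  refine Finset.sum_congr rfl fun v _ => ?_
  congr

theorem dg_eq_card (G : SimpleGraph V) (u : V) [DecidablePred (G.Adj u)] :
    dg G u = ((univ : Finset V).filter fun v => G.Adj u v).card :=
  eb_singleton_eq_card G u univ

theorem dg_eq_degree (G : SimpleGraph V) (v : V) [Fintype (G.neighborSet v)] :
    dg G v = G.degree v := by
  classical
  rw [dg_eq_card, ← SimpleGraph.card_neighborFinset_eq_degree]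
  congr 1
  ext w
  simp

theorem eb_le_card_mul (G : SimpleGraph V) (A B : Finset V) : eb G A B ≤ A.card * B.card := by
  classical
  unfold eb
  calc ∑ u ∈ A, ∑ v ∈ B, (if G.Adj u v then 1 else 0) ≤ ∑ u ∈ A, ∑ v ∈ B, 1 :=
        Finset.sum_le_sum fun u _ => Finset.sum_le_sum fun v _ => by split_ifs <;> simp
    _ = A.card * B.card := by simp

/-- A vertex has at most `|B| - 1` neighbours in a set `B` containing it. -/
theorem eb_singleton_self_le (G : SimpleGraph V) {u : V} {B : Finset V} (hu : u ∈ B) :
    eb G {u} B + 1 ≤ B.card := by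
  classical
  have h0 : eb G {u} {u} = 0 := by
    rw [eb_eq_zero_iff]
    intro x hx y hy
    rw [Finset.mem_singleton] at hx hy
    subst hx; subst hy
    exact G.irrefl
  have h : B = {u} ∪ B.erase u := by
    ext x
    simp only [Finset.mem_union, Finset.mem_singleton, Finset.mem_erase]
    by_cases hx : x = u
    · simp [hx, hu]
    · simp [hx]
  have h1 : eb G {u} B = eb G {u} (B.erase u) := by
    conv_lhs => rw [h]
    rw [eb_union_right _ _ (by simp), h0, zero_add]
  rw [h1]
  have h2 := eb_le_card_mul G {u} (B.erase u)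
  have h3 := Finset.card_erase_add_one hu
  simp only [Finset.card_singleton, one_mul] at h2
  omega

theorem eb_self_le (G : SimpleGraph V) (A : Finset V) : eb G A A + A.card ≤ A.card * A.card := by
  classical
  rw [eb_eq_sum_left]
  have : ∀ u ∈ A, eb G {u} A + 1 ≤ A.card := fun u hu => eb_singleton_self_le G hu
  calc ∑ u ∈ A, eb G {u} A + A.card = ∑ u ∈ A, (eb G {u} A + 1) := by
        rw [Finset.sum_add_distrib]; simp
    _ ≤ ∑ u ∈ A, A.card := Finset.sum_le_sum this
    _ = A.card * A.card := by simp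

theorem eb_self_even (G : SimpleGraph V) (A : Finset V) : Even (eb G A A) := by
  classical
  induction A using Finset.induction_on with
  | empty => simp
  | insert a s ha ih =>
    have h0 : eb G {a} {a} = 0 := by
      rw [eb_eq_zero_iff]
      intro x hx y hy
      rw [Finset.mem_singleton] at hx hy
      subst hx; subst hy
      exact G.irrefl
    have hd : Disjoint ({a} : Finset V) s := by simpa using ha
    rw [Finset.insert_eq, eb_union_left G hd, eb_union_right G _ hd, eb_union_right G _ hd, h0,
      eb_comm G s {a}]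
    rcases ih with ⟨r, hr⟩
    exact ⟨eb G {a} s + r, by omega⟩

/-- Twice the number of edges. -/
theorem two_mul_ncard (J : SimpleGraph V) : 2 * J.edgeSet.ncard = eb J univ univ := by
  classical
  rw [eb_univ_right]
  have h := J.sum_degrees_eq_twice_card_edges
  have h2 : ∑ v, dg J v = ∑ v, J.degree v := Finset.sum_congr rfl fun v _ => dg_eq_degree J v
  rw [h2, h, ← SimpleGraph.coe_edgeFinset, Set.ncard_coe_finset]

theorem dg_lt_card (G : SimpleGraph V) (v : V) : dg G v + 1 ≤ Fintype.card V :=
  eb_singleton_self_le G (Finset.mem_univ v)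

theorem dg_mono {G G' : SimpleGraph V} (h : G ≤ G') (v : V) : dg G v ≤ dg G' v := eb_mono h _ _

/-- `eb` of a difference. -/
theorem eb_sdiff {F H : SimpleGraph V} (h : F ≤ H) (A B : Finset V) :
    eb (H \ F) A B + eb F A B = eb H A B := by
  classical
  unfold eb
  rw [← Finset.sum_add_distrib]
  refine Finset.sum_congr rfl fun u _ => ?_
  rw [← Finset.sum_add_distrib]
  refine Finset.sum_congr rfl fun v _ => ?_
  by_cases h1 : F.Adj u v
  · have h2 := h h1
    simp [h1, h2]
  · by_cases h2 : H.Adj u v <;> simp [h1, h2]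

/-- `eb` of a disjoint union of graphs. -/
theorem eb_sup {F H : SimpleGraph V} (h : Disjoint F H) (A B : Finset V) :
    eb (F ⊔ H) A B = eb F A B + eb H A B := by
  classical
  unfold eb
  rw [← Finset.sum_add_distrib]
  refine Finset.sum_congr rfl fun u _ => ?_
  rw [← Finset.sum_add_distrib]
  refine Finset.sum_congr rfl fun v _ => ?_
  have hd : ¬ (F.Adj u v ∧ H.Adj u v) := by
    intro hc
    have := h.le_bot (show (F ⊓ H).Adj u v from hc)
    simpa using this
  by_cases h1 : F.Adj u v <;> by_cases h2 : H.Adj u v <;> simp [h1, h2]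
  exact hd ⟨h1, h2⟩

theorem eb_sup_le (F H : SimpleGraph V) (A B : Finset V) :
    eb (F ⊔ H) A B ≤ eb F A B + eb H A B := by
  classical
  unfold eb
  rw [← Finset.sum_add_distrib]
  refine Finset.sum_le_sum fun u _ => ?_
  rw [← Finset.sum_add_distrib]
  refine Finset.sum_le_sum fun v _ => ?_
  by_cases h1 : F.Adj u v <;> by_cases h2 : H.Adj u v <;> simp [h1, h2]

theorem dg_compl (G : SimpleGraph V) (v : V) : dg Gᶜ v + dg G v + 1 = Fintype.card V := by
  classical
  rw [dg_eq_degree, dg_eq_degree, SimpleGraph.degree_compl]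
  have := G.degree_lt_card_verts v
  omega

/-- Relating the augmentation edges to complements. -/
theorem compl_sdiff_compl {F H : SimpleGraph V} : Fᶜ \ Hᶜ = H \ F := by
  ext u v
  simp only [SimpleGraph.sdiff_adj, SimpleGraph.compl_adj]
  constructor
  · rintro ⟨⟨h1, h2⟩, h3⟩
    exact ⟨by by_contra h; exact h3 ⟨h1, h⟩, h2⟩
  · rintro ⟨h1, h2⟩
    exact ⟨⟨h1.ne, h2⟩, fun h => h.2 h1⟩

end bilinear

section cuts

theorem eb_compl_comm (G : SimpleGraph V) (X : Finset V) : eb G Xᶜ (Xᶜ)ᶜ = eb G X Xᶜ := by
  rw [compl_compl, eb_comm]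

/-- Sum of degrees over `X` equals inner pairs plus the cut. -/
theorem sum_dg (G : SimpleGraph V) (X : Finset V) :
    ∑ v ∈ X, dg G v = eb G X X + eb G X Xᶜ := by
  rw [← eb_univ_right, eb_add_compl]

/-- Lemma A: small sets have large cuts. -/
theorem small_cut (G : SimpleGraph V) {m : ℕ} {X : Finset V} (hne : X.Nonempty)
    (hcard : X.card ≤ m) (hdeg : ∀ v ∈ X, m ≤ dg G v) : m ≤ eb G X Xᶜ := by
  have h1 := sum_dg G X
  have h2 : X.card * m ≤ ∑ v ∈ X, dg G v := by
    rw [← smul_eq_mul]
    exact Finset.card_nsmul_le_sum _ _ _ hdeg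
  have h3 := eb_self_le G X
  have h4 : 1 ≤ X.card := hne.card_pos
  have h5 : X.card * m ≤ eb G X X + eb G X Xᶜ := by omega
  -- x * m - x * (x - 1) ≥ m
  obtain ⟨x, hx⟩ : ∃ x, X.card = x + 1 := ⟨X.card - 1, by omega⟩
  obtain ⟨y, hy⟩ : ∃ y, m = x + 1 + y := ⟨m - (x + 1), by omega⟩
  rw [hx] at h3 h5
  have h6 : (x + 1) * m = x * (x + 1) + x * y + m := by rw [hy]; ring
  have h7 : (x + 1) * (x + 1) = x * (x + 1) + (x + 1) := by ring
  have h8 : 0 ≤ x * y := Nat.zero_le _
  omega

/-- Minimum degree at least `l` and `n ≤ 2 l + 1` imply `l`-edge-connectivity. -/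
theorem EC_of_dg {l : ℕ} (G : SimpleGraph V) (hn : Fintype.card V ≤ 2 * l + 1)
    (hdeg : ∀ v, l ≤ dg G v) : EC l G := by
  intro X hX hX'
  have hc := Finset.card_add_card_compl X
  by_cases h : X.card ≤ l
  · exact small_cut G hX h fun v _ => hdeg v
  · have h2 : (Xᶜ).card ≤ l := by omega
    have := small_cut G hX' h2 fun v _ => hdeg v
    rwa [eb_compl_comm] at this

theorem EC.mono {k : ℕ} {G G' : SimpleGraph V} (h : EC k G) (hG : G ≤ G') : EC k G' :=
  fun X h1 h2 => (h X h1 h2).trans (eb_mono hG _ _)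

theorem EC.anti {k l : ℕ} {G : SimpleGraph V} (h : EC l G) (hk : k ≤ l) : EC k G :=
  fun X h1 h2 => hk.trans (h X h1 h2)

theorem EC.le_dg {k : ℕ} {G : SimpleGraph V} (h : EC k G) (hn : 2 ≤ Fintype.card V) (v : V) :
    k ≤ dg G v := by
  have h1 := h {v} (Finset.singleton_nonempty v) (by
    rw [← Finset.card_pos, Finset.card_compl, Finset.card_singleton]; omega)
  exact h1.trans (eb_mono_right G _ (Finset.subset_univ _))

theorem EC.total {l : ℕ} {G : SimpleGraph V} (h : EC l G) (hn : 2 ≤ Fintype.card V) :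
    l * Fintype.card V ≤ eb G univ univ := by
  rw [eb_univ_right]
  calc l * Fintype.card V = ∑ _v : V, l := by simp [mul_comm]
    _ ≤ ∑ v : V, dg G v := Finset.sum_le_sum fun v _ => h.le_dg hn v

/-- Ceiling form of the previous bound. -/
theorem EC.total' {l : ℕ} {G : SimpleGraph V} (h : EC l G) (hn : 2 ≤ Fintype.card V) :
    2 * ((l * Fintype.card V + 1) / 2) ≤ eb G univ univ := by
  have h1 := h.total hn
  obtain ⟨r, hr⟩ := eb_self_even G (univ : Finset V)
  omega

/-- Submodularity of the cut function with the error term. -/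
theorem cut_submod (G : SimpleGraph V) (X Y : Finset V) :
    eb G X Xᶜ + eb G Y Yᶜ =
      eb G (X ∩ Y) (X ∩ Y)ᶜ + eb G (X ∪ Y) (X ∪ Y)ᶜ + 2 * eb G (X \ Y) (Y \ X) := by
  -- atoms
  set A := X ∩ Y with hA
  set B := X \ Y with hB
  set C := Y \ X with hC
  set D := (X ∪ Y)ᶜ with hD
  have dAB : Disjoint A B := by
    rw [Finset.disjoint_left]; intro x; simp only [hA, hB, Finset.mem_inter, Finset.mem_sdiff]; tauto
  have dAC : Disjoint A C := by
    rw [Finset.disjoint_left]; intro x; simp only [hA, hC, Finset.mem_inter, Finset.mem_sdiff]; tauto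
  have dAD : Disjoint A D := by
    rw [Finset.disjoint_left]; intro x
    simp only [hA, hD, Finset.mem_inter, Finset.mem_compl, Finset.mem_union]; tauto
  have dBC : Disjoint B C := by
    rw [Finset.disjoint_left]; intro x; simp only [hB, hC, Finset.mem_sdiff]; tauto
  have dBD : Disjoint B D := by
    rw [Finset.disjoint_left]; intro x
    simp only [hB, hD, Finset.mem_sdiff, Finset.mem_compl, Finset.mem_union]; tauto
  have dCD : Disjoint C D := by
    rw [Finset.disjoint_left]; intro x
    simp only [hC, hD, Finset.mem_sdiff, Finset.mem_compl, Finset.mem_union]; tauto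
  have hX : X = A ∪ B := by
    ext x; simp only [hA, hB, Finset.mem_union, Finset.mem_inter, Finset.mem_sdiff]; tauto
  have hXc : Xᶜ = C ∪ D := by
    ext x
    simp only [hC, hD, Finset.mem_union, Finset.mem_compl, Finset.mem_sdiff]; tauto
  have hY : Y = A ∪ C := by
    ext x; simp only [hA, hC, Finset.mem_union, Finset.mem_inter, Finset.mem_sdiff]; tauto
  have hYc : Yᶜ = B ∪ D := by
    ext x
    simp only [hB, hD, Finset.mem_union, Finset.mem_compl, Finset.mem_sdiff]; tauto
  have hAc : Aᶜ = B ∪ (C ∪ D) := by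
    ext x
    simp only [hA, hB, hC, hD, Finset.mem_union, Finset.mem_compl, Finset.mem_sdiff,
      Finset.mem_inter]; tauto
  have hU : X ∪ Y = A ∪ (B ∪ C) := by
    ext x
    simp only [hA, hB, hC, Finset.mem_union, Finset.mem_sdiff, Finset.mem_inter]; tauto
  have dA_BC : Disjoint A (B ∪ C) := Finset.disjoint_union_right.2 ⟨dAB, dAC⟩
  have dB_CD : Disjoint B (C ∪ D) := Finset.disjoint_union_right.2 ⟨dBC, dBD⟩
  rw [hXc, hYc, hAc]
  conv_lhs => rw [hX]
  conv_lhs => rw [hY]
  rw [hU]
  simp only [eb_union_left G dAB, eb_union_left G dAC, eb_union_right G _ dCD,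
    eb_union_right G _ dBD, eb_union_right G _ dB_CD, eb_union_left G dA_BC, eb_union_left G dBC]
  have := eb_comm G C B
  omega

theorem cut_posi (G : SimpleGraph V) (X Y : Finset V) :
    eb G X Xᶜ + eb G Y Yᶜ =
      eb G (X \ Y) (X \ Y)ᶜ + eb G (Y \ X) (Y \ X)ᶜ + 2 * eb G (X ∩ Y) (X ∪ Y)ᶜ := by
  have h := cut_submod G X Yᶜ
  rw [compl_compl, eb_comm G Yᶜ Y] at h
  have h1 : X ∩ Yᶜ = X \ Y := by ext x; simp
  have h2 : X ∪ Yᶜ = (Y \ X)ᶜ := by
    ext x; simp only [Finset.mem_union, Finset.mem_compl, Finset.mem_sdiff]; tauto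
  have h3 : X \ Yᶜ = X ∩ Y := by ext x; simp
  have h4 : Yᶜ \ X = (X ∪ Y)ᶜ := by
    ext x; simp only [Finset.mem_union, Finset.mem_compl, Finset.mem_sdiff]; tauto
  rw [h1, h2, h3, h4, compl_compl, eb_comm G (Y \ X)ᶜ] at h
  exact h

end cuts

section edgeConnected

/-- The cut form of edge-connectivity agrees with Mathlib's definition. -/
theorem isEdgeConnected_iff (k : ℕ) (G : SimpleGraph V) : G.IsEdgeConnected k ↔ EC k G := by
  classical
  constructor
  · intro h X hX hX'
    by_contra hlt
    push Not at hlt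
    obtain ⟨u, hu⟩ := hX
    obtain ⟨v, hv⟩ := hX'
    rw [Finset.mem_compl] at hv
    -- the crossing edges
    let P : Finset (V × V) := (X ×ˢ Xᶜ).filter fun p => G.Adj p.1 p.2
    let s : Finset (Sym2 V) := P.image fun p => s(p.1, p.2)
    have hs : (s : Set (Sym2 V)).encard < k := by
      rw [Set.encard_coe_eq_coe_finsetCard]
      have h1 : s.card ≤ P.card := Finset.card_image_le
      have h2 : P.card = eb G X Xᶜ := (eb_eq_card G X Xᶜ).symm
      exact_mod_cast lt_of_le_of_lt (h1.trans h2.le) hlt
    have hr := h u v hs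
    obtain ⟨w⟩ := hr
    have key : ∀ (x y : V) (p : (G.deleteEdges (s : Set (Sym2 V))).Walk x y), x ∈ X → y ∈ X := by
      intro x y p
      induction p with
      | nil => exact id
      | cons hadj p ih =>
        intro hx
        apply ih
        by_contra hy
        rw [SimpleGraph.deleteEdges_adj] at hadj
        apply hadj.2
        simp only [s, P, Finset.coe_image, Set.mem_image, Finset.mem_coe, Finset.mem_filter,
          Finset.mem_product, Finset.mem_compl, Prod.exists]
        exact ⟨_, _, ⟨⟨hx, hy⟩, hadj.1⟩, rfl⟩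
    exact hv (key u v w hu)
  · intro h u v s hs
    by_contra hr
    let X : Finset V := univ.filter fun x => (G.deleteEdges s).Reachable u x
    have hu : u ∈ X := by simp [X]
    have hv : v ∈ Xᶜ := by simp [X, hr]
    have h1 := h X ⟨u, hu⟩ ⟨v, hv⟩
    have hfin : s.Finite := by
      apply Set.finite_of_encard_le_coe (k := k)
      exact hs.le
    let P : Finset (V × V) := (X ×ˢ Xᶜ).filter fun p => G.Adj p.1 p.2
    have h2 : P.card = eb G X Xᶜ := (eb_eq_card G X Xᶜ).symm
    have h3 : P.card ≤ hfin.toFinset.card := by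
      apply Finset.card_le_card_of_injOn (fun p => s(p.1, p.2))
      · intro p hp
        simp only [P, Finset.coe_filter, Finset.mem_product, Set.mem_setOf_eq, X,
          Finset.mem_compl, Finset.mem_filter, Finset.mem_univ, true_and] at hp
        simp only [Set.Finite.coe_toFinset]
        by_contra hc
        apply hp.1.2
        refine hp.1.1.trans (SimpleGraph.Adj.reachable ?_)
        rw [SimpleGraph.deleteEdges_adj]
        exact ⟨hp.2, hc⟩
      · intro p hp q hq hpq
        simp only [P, Finset.coe_filter, Finset.mem_product, Set.mem_setOf_eq,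
          Finset.mem_compl] at hp hq
        simp only [Sym2.eq_iff] at hpq
        rcases hpq with ⟨h1, h2⟩ | ⟨h1, h2⟩
        · exact Prod.ext h1 h2
        · exfalso
          rw [h1] at hp
          exact hq.1.2 hp.1.1
    have h4 : s.encard = hfin.toFinset.card := by
      rw [← Set.encard_coe_eq_coe_finsetCard, Set.Finite.coe_toFinset]
    rw [h4] at hs
    have h5 : hfin.toFinset.card < k := by exact_mod_cast hs
    omega

end edgeConnected

end Pool.Agent.ConnAug
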