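import Pool.Agent.ConnAug.Defs

set_option autoImplicit false

namespace Pool.Agent.ConnAug

open Finset

/-! ### The numeric core of the counting bound -/

section Core

variable {ι : Type*} [DecidableEq ι]

/-- Case `a`, `b` even or `a` even, `b` odd: `a` times the value is at most `a` times the number
of big sets. -/
theorem core_even (CC : Finset ι) (x y δ : ι → ℕ) (a b sS sT eST dS dT dR : ℕ)
    (hab : b < a)
    (hS : ∑ C ∈ CC, x C + eST + dS ≤ a * sS)
    (hT : ∑ C ∈ CC, y C + eST + dT ≤ a * sT)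
    (hR : ∑ C ∈ CC, δ C ≤ dR)
    (B : Finset ι) (hB : B ⊆ CC)
    (hC : ∀ C ∈ CC, C ∉ B → a ≤ a * δ C + b * x C + (a - b) * y C) :
    CC.card + eST ≤ b * sS + (a - b) * sT + dS + dR + B.card := by
  obtain ⟨e, rfl⟩ : ∃ e, a = b + e := ⟨a - b, by omega⟩
  have he : b + e - b = e := by omega
  rw [he] at hC ⊢
  have hsum : (b + e) * CC.card ≤
      (b + e) * ∑ C ∈ CC, δ C + b * ∑ C ∈ CC, x C + e * ∑ C ∈ CC, y C + (b + e) * B.card := by
    have h1 : ∀ C ∈ CC, (b + e) ≤ (b + e) * δ C + b * x C + e * y C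
        + (if C ∈ B then (b + e) else 0) := by
      intro C hCC
      by_cases hCB : C ∈ B
      · simp only [hCB, if_true]
        omega
      · simp only [hCB, if_false, add_zero]
        exact hC C hCC hCB
    have h2 := Finset.sum_le_sum h1
    rw [Finset.sum_const, smul_eq_mul, Finset.sum_add_distrib, Finset.sum_add_distrib,
      Finset.sum_add_distrib, ← Finset.mul_sum, ← Finset.mul_sum, ← Finset.mul_sum,
      ← Finset.sum_filter] at h2
    have h3 : CC.filter (fun C => C ∈ B) = B := by
      ext C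
      simp only [Finset.mem_filter]
      exact ⟨fun h => h.2, fun h => ⟨hB h, h⟩⟩
    rw [h3, Finset.sum_const, smul_eq_mul] at h2
    nlinarith [h2]
  by_contra hcon
  push Not at hcon
  have h4 : (b + e) * (b * sS + e * sT + dS + dR + B.card + 1) ≤ (b + e) * (CC.card + eST) :=
    Nat.mul_le_mul_left _ hcon
  have h5 := Nat.mul_le_mul_left b hS
  have h6 := Nat.mul_le_mul_left e hT
  have h7 := Nat.mul_le_mul_left (b + e) hR
  have h8 : 0 < b + e := by omega
  nlinarith [h4, h5, h6, h7, hsum, h8, Nat.zero_le (e * dS), Nat.zero_le (e * dT),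
    Nat.zero_le (b * dS)]

/-- The final step in the two cases with `a` odd. -/
theorem core_hub (h : Stmt_HubLe) (N a c q : ℕ) (u val : ℤ) (hc : 1 ≤ c) (hca : c ≤ a)
    (h1 : val ≤ q - c * u) (h2 : val ≤ (a - c) * u)
    (h3 : 0 ≤ u → q * (a + 2) + u ≤ N) : val ≤ hubGain N a c := by
  have hcZ : (1 : ℤ) ≤ c := by exact_mod_cast hc
  have hcaZ : (c : ℤ) ≤ a := by exact_mod_cast hca
  by_cases hu : 0 ≤ u
  · obtain ⟨s, rfl⟩ := Int.eq_ofNat_of_zero_le hu
    have h3' : q * (a + 2) + s ≤ N := by
      have := h3 hu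
      exact_mod_cast this
    by_cases hq : q ≤ a * s
    · have := h N a c q s hc hca hq h3'
      have : (q : ℤ) ≤ c * s + hubGain N a c := by exact_mod_cast this
      linarith
    · have hq' : a * s ≤ q := by omega
      have h4 : a * s * (a + 2) + s ≤ N :=
        le_trans (Nat.add_le_add_right (Nat.mul_le_mul_right _ hq') _) h3'
      have := h N a c (a * s) s hc hca le_rfl h4
      have : ((a * s : ℕ) : ℤ) ≤ c * s + hubGain N a c := by exact_mod_cast this
      push_cast at this
      nlinarith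
  · have hu' : u ≤ 0 := by omega
    have : ((a : ℤ) - c) * u ≤ 0 := mul_nonpos_of_nonneg_of_nonpos (by linarith) hu'
    have h0 : (0 : ℤ) ≤ hubGain N a c := Int.natCast_nonneg _
    linarith

theorem core_oe (h : Stmt_HubLe) (CC : Finset ι) (c x y δ : ι → ℕ)
    (n a b sS sT eST dS dT dR : ℕ) (hab : b < a) (ha : Odd a) (hb : Even b)
    (hS : ∑ C ∈ CC, x C + eST + dS ≤ a * sS)
    (hT : ∑ C ∈ CC, y C + eST + dT ≤ a * sT)
    (hR : ∑ C ∈ CC, δ C ≤ dR)
    (hc : ∑ C ∈ CC, c C + sS + sT ≤ n)
    (hpar1 : ∀ C ∈ CC, Odd (b * c C + y C))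
    (hpar2 : ∀ C ∈ CC, Even (a * c C + x C + y C + δ C))
    (hsmall : ∀ C ∈ CC, c C ≤ a → a ≤ x C + y C + δ C) :
    ((CC.card : ℤ) + eST - b * sS - (a - b) * sT - dS - dR) ≤ hubGain n a (a - b) := by
  have hy : ∀ C ∈ CC, Odd (y C) := by
    intro C hC
    have h1 := hpar1 C hC
    rcases Nat.even_or_odd (y C) with h2 | h2
    · exact absurd (Even.add (hb.mul_right (c C)) h2) (Nat.not_even_iff_odd.mpr h1)
    · exact h2
  set Bf : Finset ι := CC.filter fun C => c C ≤ a ∧ x C + δ C = 0 with hBf
  set Q : Finset ι := CC.filter fun C => a + 2 ≤ c C ∧ x C + δ C = 0 with hQ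
  have hcl : ∀ C ∈ CC, 1 ≤ x C + δ C + (if a + 2 ≤ c C ∧ x C + δ C = 0 then 1 else 0)
      + (if c C ≤ a ∧ x C + δ C = 0 then 1 else 0) := by
    intro C hC
    by_cases h0 : x C + δ C = 0
    · by_cases h1 : c C ≤ a
      · simp [h1, h0]
      · by_cases h2 : a + 2 ≤ c C
        · simp [h2, h0]
        · exfalso
          have h3 : c C = a + 1 := by omega
          have h4 := hpar2 C hC
          have h5 : x C = 0 := by omega
          have h6 : δ C = 0 := by omega
          rw [h3, h5, h6, add_zero, add_zero] at h4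
          have h7 : Even (a * (a + 1)) := Nat.even_mul_succ_self a
          have h8 := hy C hC
          rcases h8 with ⟨k, hk⟩
          rcases h7 with ⟨l, hl⟩
          rcases h4 with ⟨m, hm⟩
          omega
    · omega
  have hsum1 := Finset.sum_le_sum hcl
  rw [Finset.sum_const, smul_eq_mul, mul_one, Finset.sum_add_distrib, Finset.sum_add_distrib,
    Finset.sum_add_distrib, ← Finset.card_filter, ← Finset.card_filter, ← hBf, ← hQ] at hsum1
  have hcl2 : ∀ C ∈ CC, 1 + (a - 1) * (if c C ≤ a ∧ x C + δ C = 0 then 1 else 0) ≤ y C := by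
    intro C hC
    have h1 := hy C hC
    have h1' : 1 ≤ y C := h1.pos
    split_ifs with h2
    · have := hsmall C hC h2.1
      omega
    · omega
  have hsum2 := Finset.sum_le_sum hcl2
  rw [Finset.sum_add_distrib, ← Finset.mul_sum, ← Finset.card_filter, ← hBf, Finset.sum_const,
    smul_eq_mul, mul_one] at hsum2
  have hQc : Q.card * (a + 2) ≤ ∑ C ∈ CC, c C := by
    calc Q.card * (a + 2) = ∑ _C ∈ Q, (a + 2) := by rw [Finset.sum_const, smul_eq_mul]
      _ ≤ ∑ C ∈ Q, c C := Finset.sum_le_sum fun C hC => (Finset.mem_filter.mp hC).2.1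
      _ ≤ ∑ C ∈ CC, c C := Finset.sum_le_sum_of_subset (Finset.filter_subset _ _)
  obtain ⟨e, rfl⟩ : ∃ e, a = b + e := ⟨a - b, by omega⟩
  have he : b + e - b = e := by omega
  have he1 : 1 ≤ e := by omega
  rw [he]
  have hcast : (((b + e : ℕ) : ℤ) - b) = e := by push_cast; ring
  rw [hcast]
  apply core_hub h n (b + e) e Q.card ((sT : ℤ) - sS - Bf.card) _ he1 (by omega)
  · have hBe : (Bf.card : ℤ) ≤ e * Bf.card := by
      have : (1 : ℤ) ≤ e := by exact_mod_cast he1
      nlinarith [Int.natCast_nonneg Bf.card]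
    zify at hsum1 hS hR
    nlinarith [hsum1, hS, hR, hBe]
  · have hsum2' : (CC.card : ℤ) + ((b : ℤ) + e - 1) * Bf.card ≤ ∑ C ∈ CC, (y C : ℤ) := by
      have h1 : 1 ≤ b + e := by omega
      zify [h1] at hsum2
      exact_mod_cast hsum2
    zify at hT
    have hBe : (b : ℤ) * Bf.card ≤ ((b : ℤ) + e - 1) * Bf.card := by
      have : (1 : ℤ) ≤ e := by exact_mod_cast he1
      nlinarith [Int.natCast_nonneg Bf.card]
    push_cast
    nlinarith [hsum2', hT, hBe, Int.natCast_nonneg dT, Int.natCast_nonneg dS,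
      Int.natCast_nonneg dR]
  · intro _
    zify at hQc hc
    push_cast
    linarith [Int.natCast_nonneg sS, Int.natCast_nonneg sS, Int.natCast_nonneg Bf.card]

theorem core_oo (CC : Finset ι) (c x y δ : ι → ℕ)
    (n a b sS sT eST dS dT dR : ℕ) (hab : b < a) (ha : Odd a) (hb : Odd b)
    (hS : ∑ C ∈ CC, x C + eST + dS ≤ a * sS)
    (hT : ∑ C ∈ CC, y C + eST + dT ≤ a * sT)
    (hR : ∑ C ∈ CC, δ C ≤ dR)
    (hc : ∑ C ∈ CC, c C + sS + sT ≤ n)
    (hpar1 : ∀ C ∈ CC, Odd (b * c C + y C))
    (hpar2 : ∀ C ∈ CC, Even (a * c C + x C + y C + δ C))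
    (hsmall : ∀ C ∈ CC, c C ≤ a → a ≤ x C + y C + δ C) :
    ∃ (q : ℕ) (u : ℤ),
      ((CC.card : ℤ) + eST - b * sS - (a - b) * sT - dS - dR) ≤ q - b * u - (dS + dT + dR) ∧
      ((CC.card : ℤ) + eST - b * sS - (a - b) * sT - dS - dR) ≤ (a - b) * u ∧
      q * (a + 2) + u ≤ n := by
  have hb1 : 1 ≤ b := hb.pos
  set Bf : Finset ι := CC.filter fun C => c C ≤ a ∧ y C = 0 with hBf
  set Q : Finset ι := CC.filter fun C => a + 2 ≤ c C ∧ y C = 0 with hQ
  have hcl : ∀ C ∈ CC, 1 ≤ y C + (if a + 2 ≤ c C ∧ y C = 0 then 1 else 0)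
      + (if c C ≤ a ∧ y C = 0 then 1 else 0) := by
    intro C hC
    by_cases h0 : y C = 0
    · by_cases h1 : c C ≤ a
      · simp [h1, h0]
      · by_cases h2 : a + 2 ≤ c C
        · simp [h2, h0]
        · exfalso
          have h3 : c C = a + 1 := by omega
          have h4 := hpar1 C hC
          rw [h3, h0, add_zero] at h4
          have h5 : Even (a + 1) := ha.add_one
          exact absurd (h5.mul_left b) (Nat.not_even_iff_odd.mpr h4)
    · omega
  have hsum1 := Finset.sum_le_sum hcl
  rw [Finset.sum_const, smul_eq_mul, mul_one, Finset.sum_add_distrib, Finset.sum_add_distrib,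
    ← Finset.card_filter, ← Finset.card_filter, ← hBf, ← hQ] at hsum1
  have hcl2 : ∀ C ∈ CC, 1 + (a - 1) * (if c C ≤ a ∧ y C = 0 then 1 else 0) ≤ x C + δ C := by
    intro C hC
    have h1 : Odd (x C + δ C) := by
      have h2 := hpar1 C hC
      have h3 := hpar2 C hC
      rcases ha with ⟨i, hi⟩
      rcases hb with ⟨j, hj⟩
      rcases h2 with ⟨k, hk⟩
      rcases h3 with ⟨l, hl⟩
      subst hi hj
      rcases Nat.even_or_odd (x C + δ C) with h4 | h4
      · exfalso
        rcases h4 with ⟨m, hm⟩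
        have h5 : (2 * i + 1) * c C = 2 * (i * c C) + c C := by ring
        have h6 : (2 * j + 1) * c C = 2 * (j * c C) + c C := by ring
        rw [h5] at hl
        rw [h6] at hk
        omega
      · exact h4
    have h1' : 1 ≤ x C + δ C := h1.pos
    split_ifs with h2
    · have := hsmall C hC h2.1
      omega
    · omega
  have hsum2 := Finset.sum_le_sum hcl2
  rw [Finset.sum_add_distrib, ← Finset.mul_sum, ← Finset.card_filter, ← hBf, Finset.sum_const,
    smul_eq_mul, mul_one, Finset.sum_add_distrib] at hsum2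
  have hQc : Q.card * (a + 2) ≤ ∑ C ∈ CC, c C := by
    calc Q.card * (a + 2) = ∑ _C ∈ Q, (a + 2) := by rw [Finset.sum_const, smul_eq_mul]
      _ ≤ ∑ C ∈ Q, c C := Finset.sum_le_sum fun C hC => (Finset.mem_filter.mp hC).2.1
      _ ≤ ∑ C ∈ CC, c C := Finset.sum_le_sum_of_subset (Finset.filter_subset _ _)
  refine ⟨Q.card, (sS : ℤ) - sT - Bf.card, ?_, ?_, ?_⟩
  · have hBe : (Bf.card : ℤ) ≤ b * Bf.card := by
      have : (1 : ℤ) ≤ b := by exact_mod_cast hb1
      nlinarith [Int.natCast_nonneg Bf.card]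
    zify at hsum1 hT
    nlinarith [hsum1, hT, hBe]
  · have h1 : 1 ≤ a := by omega
    zify [h1] at hsum2 hS hR
    have hBe : ((a : ℤ) - b) * Bf.card ≤ ((a : ℤ) - 1) * Bf.card := by
      have : (1 : ℤ) ≤ b := by exact_mod_cast hb1
      nlinarith [Int.natCast_nonneg Bf.card]
    nlinarith [hsum2, hS, hR, hBe, Int.natCast_nonneg dS]
  · zify at hQc hc
    linarith [Int.natCast_nonneg sT, Int.natCast_nonneg Bf.card]

theorem core (h : Stmt_HubLe) (CC : Finset ι) (c x y δ : ι → ℕ)
    (n a b sS sT eST dS dT dR : ℕ) (hab : b < a) (han : a + 3 ≤ n)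
    (hS : ∑ C ∈ CC, x C + eST + dS ≤ a * sS)
    (hT : ∑ C ∈ CC, y C + eST + dT ≤ a * sT)
    (hR : ∑ C ∈ CC, δ C ≤ dR)
    (hc : ∑ C ∈ CC, c C + sS + sT ≤ n)
    (hpar1 : ∀ C ∈ CC, Odd (b * c C + y C))
    (hpar2 : ∀ C ∈ CC, Even (a * c C + x C + y C + δ C))
    (hsmall : ∀ C ∈ CC, c C ≤ a → a ≤ x C + y C + δ C)
    (htot : Even (n * a + dS + dT + dR)) :
    CC.card + eST ≤ b * sS + (a - b) * sT + dS + dR + bonus n a b := by
  have key : ((CC.card : ℤ) + eST - b * sS - (a - b) * sT - dS - dR) ≤ bonus n a b →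
      CC.card + eST ≤ b * sS + (a - b) * sT + dS + dR + bonus n a b := by
    intro hk
    have hab' : b ≤ a := hab.le
    zify [hab']
    linarith
  rcases Nat.even_or_odd a with ha | ha
  · rcases Nat.even_or_odd b with hb | hb
    · have hbon : bonus n a b = 0 := by simp [bonus, ha, hb]
      rw [hbon]
      have := core_even CC x y δ a b sS sT eST dS dT dR hab hS hT hR ∅ (Finset.empty_subset _) ?_
      · simpa using this
      · intro C hC _
        have h1 := hpar1 C hC
        have h2 := hpar2 C hC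
        have hy : Odd (y C) := by
          rcases Nat.even_or_odd (y C) with h3 | h3
          · exact absurd (Even.add (hb.mul_right (c C)) h3) (Nat.not_even_iff_odd.mpr h1)
          · exact h3
        have hy1 : 1 ≤ y C := hy.pos
        have hac : Even (a * c C) := ha.mul_right _
        have hxd : 1 ≤ x C + δ C := by
          rcases hy with ⟨k, hk⟩
          rcases hac with ⟨l, hl⟩
          rcases h2 with ⟨m, hm⟩
          omega
        by_cases hd : 1 ≤ δ C
        · nlinarith [Nat.zero_le (b * x C), Nat.zero_le ((a - b) * y C)]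
        · have hx : 1 ≤ x C := by omega
          obtain ⟨e, rfl⟩ : ∃ e, a = b + e := ⟨a - b, by omega⟩
          have he : b + e - b = e := by omega
          rw [he]
          nlinarith [Nat.zero_le ((b + e) * δ C), Nat.mul_le_mul_left b hx,
            Nat.mul_le_mul_left e hy1]
    · have hbon : bonus n a b = n / (a + 1) := by
        simp [bonus, ha, Nat.not_even_iff_odd.mpr hb]
      rw [hbon]
      have hb1 : 1 ≤ b := hb.pos
      have h3 := core_even CC x y δ a b sS sT eST dS dT dR hab hS hT hR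
        (CC.filter fun C => a + 1 ≤ c C) (Finset.filter_subset _ _) ?_
      · have h4 : (CC.filter fun C => a + 1 ≤ c C).card ≤ n / (a + 1) := by
          rw [Nat.le_div_iff_mul_le (by omega)]
          calc (CC.filter fun C => a + 1 ≤ c C).card * (a + 1)
              = ∑ _C ∈ CC.filter (fun C => a + 1 ≤ c C), (a + 1) := by
                rw [Finset.sum_const, smul_eq_mul]
            _ ≤ ∑ C ∈ CC.filter (fun C => a + 1 ≤ c C), c C :=
                Finset.sum_le_sum fun C hC => (Finset.mem_filter.mp hC).2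
            _ ≤ ∑ C ∈ CC, c C := Finset.sum_le_sum_of_subset (Finset.filter_subset _ _)
            _ ≤ n := by omega
        omega
      · intro C hC hCB
        have h4 : c C ≤ a := by
          by_contra h5
          exact hCB (Finset.mem_filter.mpr ⟨hC, by omega⟩)
        have h5 := hsmall C hC h4
        obtain ⟨e, rfl⟩ : ∃ e, a = b + e := ⟨a - b, by omega⟩
        have he : b + e - b = e := by omega
        have he1 : 1 ≤ e := by omega
        rw [he]
        by_cases hd : 1 ≤ δ C
        · nlinarith [Nat.zero_le (b * x C), Nat.zero_le (e * y C)]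
        · have hd0 : δ C = 0 := by omega
          rw [hd0] at h5 ⊢
          nlinarith [Nat.mul_le_mul_right (x C) hb1, Nat.mul_le_mul_right (y C) he1]
  · apply key
    rcases Nat.even_or_odd b with hb | hb
    · have hbon : bonus n a b = hubGain n a (a - b) := by
        simp [bonus, Nat.not_even_iff_odd.mpr ha, hb]
      rw [hbon]
      exact core_oe h CC c x y δ n a b sS sT eST dS dT dR hab ha hb hS hT hR hc hpar1 hpar2 hsmall
    · obtain ⟨q, u, h1, h2, h3⟩ := core_oo CC c x y δ n a b sS sT eST dS dT dR hab ha hb hS hT hR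
        hc hpar1 hpar2 hsmall
      have hb1 : 1 ≤ b := hb.pos
      rcases Nat.even_or_odd n with hn | hn
      · have hbon : bonus n a b = hubGain n a b := by
          simp [bonus, Nat.not_even_iff_odd.mpr ha, Nat.not_even_iff_odd.mpr hb, hn]
        rw [hbon]
        refine core_hub h n a b q u _ hb1 hab.le ?_ h2 (fun _ => h3)
        linarith [Int.natCast_nonneg dS, Int.natCast_nonneg dT, Int.natCast_nonneg dR]
      · have hbon : bonus n a b = hubGain (n - a - 2) a b := by
          simp [bonus, Nat.not_even_iff_odd.mpr ha, Nat.not_even_iff_odd.mpr hb,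
            Nat.not_even_iff_odd.mpr hn]
        rw [hbon]
        have hna : Odd (n * a) := hn.mul ha
        have hd : 1 ≤ dS + dT + dR := by
          rcases hna with ⟨k, hk⟩
          rcases htot with ⟨l, hl⟩
          omega
        have hdZ : (1 : ℤ) ≤ dS + dT + dR := by exact_mod_cast hd
        have h0 : (0 : ℤ) ≤ hubGain (n - a - 2) a b := Int.natCast_nonneg _
        rcases Nat.eq_zero_or_pos q with hq | hq
        · by_cases hu : 0 ≤ u
          · have : (0 : ℤ) ≤ b * u := mul_nonneg (Int.natCast_nonneg _) hu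
            rw [hq] at h1
            push_cast at h1
            linarith
          · have hab2 : (0 : ℤ) ≤ (a : ℤ) - b := by
              have : (b : ℤ) < a := by exact_mod_cast hab
              linarith
            have : ((a : ℤ) - b) * u ≤ 0 := mul_nonpos_of_nonneg_of_nonpos hab2 (by omega)
            linarith
        · obtain ⟨q', rfl⟩ : ∃ q', q = q' + 1 := ⟨q - 1, by omega⟩
          refine core_hub h (n - a - 2) a b q' u _ hb1 hab.le ?_ h2 (fun _ => ?_)
          · push_cast at h1
            linarith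
          · have h5 : a + 2 ≤ n := by omega
            have h6 : n - a - 2 = n - (a + 2) := by omega
            rw [h6]
            push_cast [h5]
            push_cast at h3
            nlinarith

end Core

/-! ### The graph part -/

section Graph

variable {V : Type} [Fintype V] [DecidableEq V]

theorem cnt_eb_comm (H : SimpleGraph V) (A B : Finset V) : eb H A B = eb H B A := by
  classical
  unfold eb
  rw [Finset.sum_comm]
  refine Finset.sum_congr rfl fun u _ => Finset.sum_congr rfl fun v _ => ?_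
  simp only [H.adj_comm]

theorem cnt_eb_sum_left (H : SimpleGraph V) (A B : Finset V) :
    eb H A B = ∑ u ∈ A, eb H {u} B := by
  classical
  unfold eb
  simp

theorem cnt_eb_union_left (H : SimpleGraph V) (A A' B : Finset V) (h : Disjoint A A') :
    eb H (A ∪ A') B = eb H A B + eb H A' B := by
  classical
  unfold eb
  rw [Finset.sum_union h]

theorem cnt_eb_union_right (H : SimpleGraph V) (A B B' : Finset V) (h : Disjoint B B') :
    eb H A (B ∪ B') = eb H A B + eb H A B' := by
  rw [cnt_eb_comm, cnt_eb_union_left H B B' A h, cnt_eb_comm H B A, cnt_eb_comm H B' A]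

theorem cnt_eb_mono_left (H : SimpleGraph V) {A A' : Finset V} (B : Finset V) (h : A ⊆ A') :
    eb H A B ≤ eb H A' B := by
  classical
  unfold eb
  exact Finset.sum_le_sum_of_subset h

theorem cnt_eb_biUnion (H : SimpleGraph V) (CC : Finset (Finset V)) (B : Finset V)
    (hpw : ∀ C ∈ CC, ∀ D ∈ CC, C ≠ D → Disjoint C D) :
    eb H (CC.biUnion id) B = ∑ C ∈ CC, eb H C B := by
  classical
  unfold eb
  rw [Finset.sum_biUnion]
  · rfl
  · intro C hC D hD hCD
    exact hpw C hC D hD hCD

theorem cnt_eb_self_even (H : SimpleGraph V) (A : Finset V) : Even (eb H A A) := by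
  classical
  induction A using Finset.induction_on with
  | empty => simp [eb]
  | insert v A hv ih =>
    have h1 : insert v A = {v} ∪ A := by ext; simp
    have hd : Disjoint ({v} : Finset V) A := by simpa using hv
    rw [h1, cnt_eb_union_left H _ _ _ hd, cnt_eb_union_right H _ _ _ hd,
      cnt_eb_union_right H _ _ _ hd, cnt_eb_comm H A {v}]
    have h2 : eb H {v} {v} = 0 := by simp [eb]
    rw [h2]
    rcases ih with ⟨k, hk⟩
    exact ⟨eb H {v} A + k, by omega⟩

theorem cnt_eb_self_le (H : SimpleGraph V) (A : Finset V) :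
    eb H A A + A.card ≤ A.card * A.card := by
  classical
  have h1 : ∀ u ∈ A, (∑ v ∈ A, if H.Adj u v then 1 else 0) + 1 ≤ A.card := by
    intro u hu
    have h2 : (∑ v ∈ A, if H.Adj u v then 1 else 0) ≤ (A.erase u).card := by
      rw [← Finset.card_filter]
      apply Finset.card_le_card
      intro v hv
      rw [Finset.mem_filter] at hv
      rw [Finset.mem_erase]
      exact ⟨fun h => H.loopless.irrefl u (h ▸ hv.2), hv.1⟩
    have h3 := Finset.card_erase_add_one hu
    omega
  have h4 := Finset.sum_le_sum h1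
  rw [Finset.sum_add_distrib, Finset.sum_const, Finset.sum_const, smul_eq_mul, smul_eq_mul,
    mul_one] at h4
  exact h4

theorem cnt_dg_sum (H : SimpleGraph V) (A : Finset V) : eb H A univ = ∑ v ∈ A, dg H v := by
  rw [cnt_eb_sum_left]
  rfl

theorem cnt_def (H : SimpleGraph V) (a : ℕ) (hdg : ∀ v, dg H v ≤ a) (A : Finset V) :
    eb H A univ + ∑ v ∈ A, (a - dg H v) = a * A.card := by
  rw [cnt_dg_sum, ← Finset.sum_add_distrib]
  rw [Finset.sum_congr rfl (fun v _ => Nat.add_sub_cancel' (hdg v))]
  rw [Finset.sum_const, smul_eq_mul, mul_comm]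

theorem cnt_small_arith (a c p e s t X : ℕ) (hc : 1 ≤ c) (hca : c ≤ a) (h1 : p = e + s + t)
    (h2 : p + X = a * c) (h3 : e + c ≤ c * c) : a ≤ s + t + X := by
  obtain ⟨d, rfl⟩ : ∃ d, a = c + d := ⟨a - c, by omega⟩
  obtain ⟨c', rfl⟩ : ∃ c', c = c' + 1 := ⟨c - 1, by omega⟩
  subst h1
  nlinarith [Nat.zero_le (c' * d)]

theorem CNT_proof (h : Stmt_HubLe) : Stmt_Count := by
  intro V _ _ H a b S T CC hab han hdg hBar
  classical
  set R : Finset V := (S ∪ T)ᶜ with hRdef
  have hST := hBar.disj
  have hSTR : Disjoint (S ∪ T) R := disjoint_compl_right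
  have huniv : (univ : Finset V) = S ∪ T ∪ R := by
    rw [hRdef, Finset.union_compl]
  have hsplitR : ∀ A : Finset V, eb H A univ = eb H A S + eb H A T + eb H A R := by
    intro A
    conv_lhs => rw [huniv]
    rw [cnt_eb_union_right H _ _ _ hSTR, cnt_eb_union_right H _ _ _ hST]
  have hsplitL : eb H univ univ = eb H S univ + eb H T univ + eb H R univ := by
    conv_lhs => rw [show eb H univ univ = eb H (S ∪ T ∪ R) univ by rw [← huniv]]
    rw [cnt_eb_union_left H _ _ _ hSTR, cnt_eb_union_left H _ _ _ hST]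
  have hcard : Fintype.card V = S.card + T.card + R.card := by
    rw [← Finset.card_univ, huniv, Finset.card_union_of_disjoint hSTR,
      Finset.card_union_of_disjoint hST]
  have hW : CC.biUnion id ⊆ R := by
    intro v hv
    rw [Finset.mem_biUnion] at hv
    obtain ⟨C, hC, hvC⟩ := hv
    rw [hRdef, Finset.mem_compl]
    exact Finset.disjoint_left.mp (hBar.sub C hC) hvC
  have hSdef := cnt_def H a hdg S
  have hTdef := cnt_def H a hdg T
  have hRdef2 := cnt_def H a hdg R
  have hTS : eb H T S = eb H S T := cnt_eb_comm H T S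
  have hSR : eb H S R = eb H R S := cnt_eb_comm H S R
  have hTR : eb H T R = eb H R T := cnt_eb_comm H T R
  have hx : ∑ C ∈ CC, eb H C S ≤ eb H R S := by
    rw [← cnt_eb_biUnion H CC S hBar.pw]
    exact cnt_eb_mono_left H S hW
  have hy : ∑ C ∈ CC, eb H C T ≤ eb H R T := by
    rw [← cnt_eb_biUnion H CC T hBar.pw]
    exact cnt_eb_mono_left H T hW
  have hCuniv : ∀ C ∈ CC, eb H C univ = eb H C C + eb H C S + eb H C T := by
    intro C hC
    have hd := hBar.sub C hC
    have hdS : Disjoint C S := hd.mono_right Finset.subset_union_left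
    have hdT : Disjoint C T := hd.mono_right Finset.subset_union_right
    have h1 : (univ : Finset V) = (C ∪ (S ∪ T)) ∪ (C ∪ (S ∪ T))ᶜ := by
      rw [Finset.union_compl]
    have h2 : eb H C (C ∪ (S ∪ T))ᶜ = 0 := by
      unfold eb
      refine Finset.sum_eq_zero fun u hu => Finset.sum_eq_zero fun v hv => ?_
      rw [Finset.mem_compl, Finset.mem_union, not_or] at hv
      rw [if_neg]
      intro hadj
      exact hv.2 (hBar.closed C hC u hu v hv.1 hadj)
    rw [show eb H C univ = eb H C ((C ∪ (S ∪ T)) ∪ (C ∪ (S ∪ T))ᶜ) by rw [← h1],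
      cnt_eb_union_right H _ _ _ disjoint_compl_right, h2, add_zero,
      cnt_eb_union_right H _ _ _ hd, cnt_eb_union_right H _ _ _ hST, add_assoc]
  have hdsum : ∑ C ∈ CC, ∑ v ∈ C, (a - dg H v) ≤ ∑ v ∈ R, (a - dg H v) := by
    have h1 : ∑ C ∈ CC, ∑ v ∈ C, (a - dg H v) = ∑ v ∈ CC.biUnion id, (a - dg H v) := by
      rw [Finset.sum_biUnion]
      · rfl
      · intro C hC D hD hCD
        exact hBar.pw C hC D hD hCD
    rw [h1]
    exact Finset.sum_le_sum_of_subset hW
  have hcsum : ∑ C ∈ CC, C.card ≤ R.card := by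
    have h1 : ∑ C ∈ CC, C.card = (CC.biUnion id).card := by
      rw [Finset.card_biUnion]
      · rfl
      · intro C hC D hD hCD
        exact hBar.pw C hC D hD hCD
    rw [h1]
    exact Finset.card_le_card hW
  have hS1 := hsplitR S
  have hT1 := hsplitR T
  have main := core h CC (fun C => C.card) (fun C => eb H C S) (fun C => eb H C T)
    (fun C => ∑ v ∈ C, (a - dg H v)) (Fintype.card V) a b S.card T.card (eb H S T)
    (∑ v ∈ S, (a - dg H v)) (∑ v ∈ T, (a - dg H v)) (∑ v ∈ R, (a - dg H v)) hab han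
    (by omega) (by omega) hdsum (by omega) (fun C hC => hBar.odd C hC) ?_ ?_ ?_
  · unfold barVal
    rw [← hRdef]
    obtain ⟨e, rfl⟩ : ∃ e, a = b + e := ⟨a - b, by omega⟩
    have he : b + e - b = e := by omega
    rw [he] at main ⊢
    rw [hsplitL, hcard]
    rw [hcard] at main
    nlinarith [main, hT1, hTS, hTR, hSdef, hRdef2]
  · intro C hC
    have h1 := hCuniv C hC
    have h2 := cnt_def H a hdg C
    have h3 := cnt_eb_self_even H C
    rcases h3 with ⟨k, hk⟩
    refine ⟨k + eb H C S + eb H C T + ∑ v ∈ C, (a - dg H v), ?_⟩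
    omega
  · intro C hC hCa
    have h1 := hCuniv C hC
    have h2 := cnt_def H a hdg C
    have h3 := cnt_eb_self_le H C
    have hpos : 1 ≤ C.card := by
      by_contra hcon
      have h4 : C = ∅ := Finset.card_eq_zero.mp (by omega)
      have h5 := hBar.odd C hC
      rw [h4] at h5
      simp [eb] at h5
    exact cnt_small_arith a C.card _ _ _ _ _ hpos hCa h1 h2 h3
  · have h1 := cnt_eb_self_even H (univ : Finset V)
    rcases h1 with ⟨k, hk⟩
    have h2 : Fintype.card V * a = a * S.card + a * T.card + a * R.card := by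
      rw [hcard]; ring
    rw [h2]
    refine ⟨k + ∑ v ∈ S, (a - dg H v) + ∑ v ∈ T, (a - dg H v) + ∑ v ∈ R, (a - dg H v), ?_⟩
    omega

end Graph

end Pool.Agent.ConnAug
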