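import Pool.Agent.ConnAug.Swap

/-!
# Near-perfect matchings of the complement (module STEP, part 2)
-/

set_option linter.unusedSectionVars false

namespace Pool.Agent.ConnAug

open Finset

variable {V : Type} [Fintype V] [DecidableEq V]

/-- The set of fixed points. -/
def fixSet (σ : V → V) : Finset V := (univ : Finset V).filter fun v => σ v = v

theorem mem_fixSet {σ : V → V} {v : V} : v ∈ fixSet σ ↔ σ v = v := by simp [fixSet]

/-- Pair two fixed points. -/
def pr (σ : V → V) (u v w : V) : V := if w = u then v else if w = v then u else σ w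

theorem pr_u (σ : V → V) (u v : V) : pr σ u v u = v := by simp [pr]
theorem pr_v (σ : V → V) (u v : V) : pr σ u v v = u := by
  unfold pr; by_cases h : v = u <;> simp [h]
theorem pr_o (σ : V → V) {u v w : V} (h1 : w ≠ u) (h2 : w ≠ v) : pr σ u v w = σ w := by
  simp [pr, h1, h2]

theorem pr_inv {G : SimpleGraph V} {σ : V → V} (hI : Inv G σ) {u v : V} (hu : σ u = u)
    (hv : σ v = v) (hna : ¬ G.Adj u v) : Inv G (pr σ u v) := by
  have hne : ∀ w, w ≠ u → w ≠ v → σ w ≠ u ∧ σ w ≠ v := by
    intro w h1 h2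
    constructor <;> intro hc
    · apply h1; rw [← hI.invol w, hc, hu]
    · apply h2; rw [← hI.invol w, hc, hv]
  constructor
  · intro w
    by_cases h1 : w = u
    · subst h1; rw [pr_u, pr_v]
    by_cases h2 : w = v
    · subst h2; rw [pr_v, pr_u]
    rw [pr_o σ h1 h2, pr_o σ (hne w h1 h2).1 (hne w h1 h2).2, hI.invol]
  · intro w hw
    by_cases h1 : w = u
    · subst h1; rw [pr_u]; exact hna
    by_cases h2 : w = v
    · subst h2; rw [pr_v, G.adj_comm]; exact hna
    rw [pr_o σ h1 h2] at hw ⊢
    exact hI.simp' w hw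

theorem pr_fix {σ : V → V} {u v : V} (huv : u ≠ v) (w : V) :
    pr σ u v w = w ↔ σ w = w ∧ w ≠ u ∧ w ≠ v := by
  by_cases h1 : w = u
  · subst h1; rw [pr_u]; simp [huv.symm]
  by_cases h2 : w = v
  · subst h2; rw [pr_v]; simp [huv]
  rw [pr_o σ h1 h2]; simp [h1, h2]

/-- Remove a pair: `u` and `σ u` become fixed. -/
def rm (σ : V → V) (u w : V) : V := if w = u then u else if w = σ u then σ u else σ w

theorem rm_o (σ : V → V) {u w : V} (h1 : w ≠ u) (h2 : w ≠ σ u) : rm σ u w = σ w := by
  simp [rm, h1, h2]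
theorem rm_u (σ : V → V) (u : V) : rm σ u u = u := by simp [rm]
theorem rm_v (σ : V → V) (u : V) : rm σ u (σ u) = σ u := by
  unfold rm
  by_cases h : σ u = u <;> simp [h]

theorem rm_inv {G : SimpleGraph V} {σ : V → V} (hI : Inv G σ) (u : V) : Inv G (rm σ u) := by
  have hne : ∀ w, w ≠ u → w ≠ σ u → σ w ≠ u ∧ σ w ≠ σ u := by
    intro w h1 h2
    constructor <;> intro hc
    · apply h2; rw [← hI.invol w, hc]
    · apply h1; rw [← hI.invol w, hc, hI.invol]
  constructor
  · intro w
    by_cases h1 : w = u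
    · subst h1; rw [rm_u, rm_u]
    by_cases h2 : w = σ u
    · subst h2; rw [rm_v, rm_v]
    rw [rm_o σ h1 h2, rm_o σ (hne w h1 h2).1 (hne w h1 h2).2, hI.invol]
  · intro w hw
    by_cases h1 : w = u
    · subst h1; rw [rm_u] at hw; exact absurd rfl hw
    by_cases h2 : w = σ u
    · subst h2; rw [rm_v] at hw; exact absurd rfl hw
    rw [rm_o σ h1 h2] at hw ⊢
    exact hI.simp' w hw

theorem rm_fix (σ : V → V) (u w : V) :
    rm σ u w = w ↔ σ w = w ∨ w = u ∨ w = σ u := by
  by_cases h1 : w = u
  · subst h1; rw [rm_u]; simp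
  by_cases h2 : w = σ u
  · subst h2; rw [rm_v]; simp
  rw [rm_o σ h1 h2]; simp [h1, h2]

theorem inv_id (G : SimpleGraph V) : Inv G (id : V → V) :=
  ⟨fun _ => rfl, fun _ h => absurd rfl h⟩

/-- A maximum matching of the complement. -/
theorem exists_max_inv (G : SimpleGraph V) :
    ∃ σ : V → V, Inv G σ ∧ ∀ τ : V → V, Inv G τ → (fixSet σ).card ≤ (fixSet τ).card := by
  classical
  obtain ⟨σ, hσ, hmin⟩ := Finset.exists_min_image
    ((univ : Finset (V → V)).filter fun σ => Inv G σ) (fun σ => (fixSet σ).card)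
    ⟨id, by simpa using inv_id G⟩
  refine ⟨σ, by simpa using hσ, fun τ hτ => hmin τ (by simpa using hτ)⟩

section maxi

variable {G : SimpleGraph V} {σ : V → V}

theorem fix_adj (hI : Inv G σ) (hmax : ∀ τ : V → V, Inv G τ → (fixSet σ).card ≤ (fixSet τ).card)
    {u v : V} (hu : σ u = u) (hv : σ v = v) (huv : u ≠ v) : G.Adj u v := by
  by_contra hna
  have h := hmax _ (pr_inv hI hu hv hna)
  have hlt : (fixSet (pr σ u v)).card < (fixSet σ).card := by
    apply Finset.card_lt_card
    rw [Finset.ssubset_iff_of_subset]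
    · exact ⟨u, by rw [mem_fixSet]; exact hu, by rw [mem_fixSet, pr_fix huv]; simp⟩
    · intro w
      rw [mem_fixSet, mem_fixSet, pr_fix huv]
      exact fun h => h.1
  omega

theorem fix_pair (hI : Inv G σ) (hmax : ∀ τ : V → V, Inv G τ → (fixSet σ).card ≤ (fixSet τ).card)
    {u v x : V} (hu : σ u = u) (hv : σ v = v) (huv : u ≠ v) (hx : σ x ≠ x) :
    G.Adj u x ∨ G.Adj v (σ x) := by
  by_contra hcon
  push Not at hcon
  have hxu : x ≠ u := fun h => hx (by rw [h, hu])
  have hxv : x ≠ v := fun h => hx (by rw [h, hv])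
  have hyu : σ x ≠ u := fun h => hxu (by rw [← hI.invol x, h, hu])
  have hyv : σ x ≠ v := fun h => hxv (by rw [← hI.invol x, h, hv])
  -- first remove the pair
  have hI1 := rm_inv hI x
  have hu1 : rm σ x u = u := (rm_fix σ x u).2 (Or.inl hu)
  have hv1 : rm σ x v = v := (rm_fix σ x v).2 (Or.inl hv)
  have hx1 : rm σ x x = x := rm_u σ x
  have hy1 : rm σ x (σ x) = σ x := rm_v σ x
  have hI2 := pr_inv hI1 hu1 hx1 hcon.1
  have hv2 : pr (rm σ x) u x v = v := (pr_fix hxu.symm v).2 ⟨hv1, huv.symm, hxv.symm⟩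
  have hy2 : pr (rm σ x) u x (σ x) = σ x := (pr_fix hxu.symm _).2 ⟨hy1, hyu, hx⟩
  have hI3 := pr_inv hI2 hv2 hy2 hcon.2
  have h := hmax _ hI3
  have hlt : (fixSet (pr (pr (rm σ x) u x) v (σ x))).card < (fixSet σ).card := by
    apply Finset.card_lt_card
    rw [Finset.ssubset_iff_of_subset]
    · refine ⟨u, by rw [mem_fixSet]; exact hu, ?_⟩
      rw [mem_fixSet, pr_fix hyv.symm, pr_fix hxu.symm]
      simp
    · intro w
      rw [mem_fixSet, mem_fixSet, pr_fix hyv.symm, pr_fix hxu.symm, rm_fix]
      tauto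
  omega

/-- Degree sum of two fixed points of a maximum matching of the complement. -/
theorem fix_degree (hI : Inv G σ)
    (hmax : ∀ τ : V → V, Inv G τ → (fixSet σ).card ≤ (fixSet τ).card)
    {u v : V} (hu : σ u = u) (hv : σ v = v) (huv : u ≠ v) :
    Fintype.card V ≤ dg G u + dg G v := by
  classical
  set N := (fixSet σ)ᶜ with hN
  have hmemN : ∀ x, x ∈ N ↔ σ x ≠ x := by intro x; rw [hN, Finset.mem_compl, mem_fixSet]
  have h1 : N.card ≤ eb G {u} N + eb G {v} N := by
    have e1 : eb G {v} N = ∑ x ∈ N, if G.Adj v (σ x) then 1 else 0 := by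
      unfold eb
      rw [Finset.sum_singleton]
      refine Finset.sum_nbij' σ σ ?_ ?_ ?_ ?_ ?_
      · intro x hx; rw [hmemN] at hx ⊢; rw [hI.invol]; exact hx.symm
      · intro x hx; rw [hmemN] at hx ⊢; rw [hI.invol]; exact hx.symm
      · intro x _; exact hI.invol x
      · intro x _; exact hI.invol x
      · intro x _; rw [hI.invol]
    have e2 : eb G {u} N = ∑ x ∈ N, if G.Adj u x then 1 else 0 := by
      unfold eb
      rw [Finset.sum_singleton]
    rw [e1, e2, ← Finset.sum_add_distrib, Finset.card_eq_sum_ones]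
    refine Finset.sum_le_sum fun x hx => ?_
    rcases fix_pair hI hmax hu hv huv ((hmemN x).1 hx) with h | h
    · simp [h]
    · simp [h]
  have hcl : ∀ w, σ w = w → (fixSet σ).card ≤ eb G {w} (fixSet σ) + 1 := by
    intro w hw
    have hwm : w ∈ fixSet σ := by rw [mem_fixSet]; exact hw
    rw [eb_singleton_eq_card]
    have : (fixSet σ).erase w ⊆ (fixSet σ).filter fun x => G.Adj w x := by
      intro x hx
      rw [Finset.mem_erase, mem_fixSet] at hx
      rw [Finset.mem_filter, mem_fixSet]
      exact ⟨hx.2, fix_adj hI hmax hw hx.2 hx.1.symm⟩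
    have h2 := Finset.card_le_card this
    have h3 := Finset.card_erase_add_one hwm
    omega
  have h2 := hcl u hu
  have h3 := hcl v hv
  have h4 : dg G u = eb G {u} (fixSet σ) + eb G {u} N := (eb_add_compl G {u} (fixSet σ)).symm
  have h5 : dg G v = eb G {v} (fixSet σ) + eb G {v} N := (eb_add_compl G {v} (fixSet σ)).symm
  have h6 : (fixSet σ).card + N.card = Fintype.card V := Finset.card_add_card_compl _
  have h7 : 2 ≤ (fixSet σ).card := by
    have : 1 < (fixSet σ).card :=
      Finset.one_lt_card.2 ⟨u, mem_fixSet.2 hu, v, mem_fixSet.2 hv, huv⟩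
    omega
  omega

end maxi

/-- The number of non-fixed points of an involution is even. -/
theorem even_nonfix {G : SimpleGraph V} {σ : V → V} (hI : Inv G σ) :
    Even ((fixSet σ)ᶜ).card := by
  classical
  let F : SimpleGraph V :=
    { Adj := fun a b => a ≠ b ∧ σ a = b
      symm := ⟨fun a b h => ⟨h.1.symm, by rw [← h.2, hI.invol]⟩⟩
      loopless := ⟨fun a h => h.1 rfl⟩ }
  have h := eb_self_even F (univ : Finset V)
  have h2 : eb F univ univ = ((fixSet σ)ᶜ).card := by
    rw [eb_univ_right, Finset.card_eq_sum_ones,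
      ← Finset.sum_subset (Finset.subset_univ (fixSet σ)ᶜ)]
    · refine Finset.sum_congr rfl fun x hx => ?_
      rw [dg_eq_card, Finset.card_eq_one]
      refine ⟨σ x, ?_⟩
      ext y
      rw [Finset.mem_compl, mem_fixSet] at hx
      simp only [Finset.mem_filter, Finset.mem_univ, true_and, Finset.mem_singleton, F]
      constructor
      · rintro ⟨_, h⟩; exact h.symm
      · rintro rfl; exact ⟨fun h => hx h.symm, rfl⟩
    · intro x _ hx
      rw [Finset.mem_compl, not_not, mem_fixSet] at hx
      rw [dg_eq_card, Finset.card_eq_zero, Finset.filter_eq_empty_iff]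
      rintro y - ⟨h1, h2⟩
      exact h1 (hx.symm.trans h2)
  rwa [h2] at h

/-- The cover lemma. -/
theorem cover_main (G : SimpleGraph V) {j : ℕ} (hj : 2 ≤ j) (hn : 2 * j + 4 ≤ Fintype.card V)
    (hdeg : ∀ v, j ≤ dg G v)
    (hclique : ∀ K : Finset V, (∀ a ∈ K, ∀ b ∈ K, a ≠ b → G.Adj a b) → K.card ≤ j + 1) :
    ∃ σ : V → V, Inv G σ ∧ (fixSet σ).card ≤ j + 1 ∧
      (∀ u v, σ u = u → σ v = v → dg G u = j → dg G v = j → u = v) ∧
      (Odd (Fintype.card V) → Odd j → (∃ u, σ u = u ∧ dg G u = j) → 3 ≤ (fixSet σ).card) := by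
  classical
  obtain ⟨σ, hI, hmax⟩ := exists_max_inv G
  have hU : (fixSet σ).card ≤ j + 1 := by
    apply hclique
    intro a ha b hb hab
    rw [mem_fixSet] at ha hb
    exact fix_adj hI hmax ha hb hab
  have huniq : ∀ u v, σ u = u → σ v = v → dg G u = j → dg G v = j → u = v := by
    intro u v hu hv h1 h2
    by_contra huv
    have := fix_degree hI hmax hu hv huv
    omega
  by_cases hcase : Odd (Fintype.card V) ∧ Odd j ∧ (∃ u, σ u = u ∧ dg G u = j) ∧
      (fixSet σ).card < 3
  swap
  · refine ⟨σ, hI, hU, huniq, ?_⟩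
    intro h1 h2 h3
    by_contra h4
    exact hcase ⟨h1, h2, h3, by omega⟩
  obtain ⟨hodd, hjodd, ⟨u, hu, hdu⟩, hlt⟩ := hcase
  -- the fixed set is {u}
  have hcardU : (fixSet σ).card = 1 := by
    have h1 := even_nonfix hI
    have h2 : (fixSet σ).card + ((fixSet σ)ᶜ).card = Fintype.card V :=
      Finset.card_add_card_compl _
    have h3 : 1 ≤ (fixSet σ).card := Finset.card_pos.2 ⟨u, mem_fixSet.2 hu⟩
    rcases h1 with ⟨r, hr⟩
    rcases hodd with ⟨s, hs⟩
    omega
  have hfixu : ∀ w, σ w = w → w = u := by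
    intro w hw
    rw [Finset.card_eq_one] at hcardU
    obtain ⟨a, ha⟩ := hcardU
    have h1 : w ∈ fixSet σ := mem_fixSet.2 hw
    have h2 : u ∈ fixSet σ := mem_fixSet.2 hu
    rw [ha, Finset.mem_singleton] at h1 h2
    rw [h1, h2]
  -- a vertex of large degree
  obtain ⟨w, hw⟩ : ∃ w, j + 1 ≤ dg G w := by
    by_contra hcon
    push Not at hcon
    have hall : ∀ v, dg G v = j := fun v => le_antisymm (by have := hcon v; omega) (hdeg v)
    have h1 := eb_self_even G (univ : Finset V)
    rw [eb_univ_right] at h1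
    simp only [hall, Finset.sum_const, Finset.card_univ, smul_eq_mul] at h1
    exact (Nat.not_even_iff_odd.2 (hodd.mul hjodd)) h1
  have hwu : w ≠ u := by rintro rfl; omega
  have hσw : σ w ≠ w := fun h => hwu (hfixu w h)
  -- final packaging when the only fixed point is `w`
  have pack : ∀ τ : V → V, Inv G τ → (∀ z, τ z = z ↔ z = w) →
      ∃ σ : V → V, Inv G σ ∧ (fixSet σ).card ≤ j + 1 ∧
      (∀ u v, σ u = u → σ v = v → dg G u = j → dg G v = j → u = v) ∧
      (Odd (Fintype.card V) → Odd j → (∃ u, σ u = u ∧ dg G u = j) → 3 ≤ (fixSet σ).card) := by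
    intro τ hτ hfix
    have hset : fixSet τ = {w} := by
      ext z; rw [mem_fixSet, hfix, Finset.mem_singleton]
    refine ⟨τ, hτ, by rw [hset, Finset.card_singleton]; omega, ?_, ?_⟩
    · intro a b ha hb _ _
      rw [(hfix a).1 ha, (hfix b).1 hb]
    · rintro _ _ ⟨a, ha, hda⟩
      rw [(hfix a).1 ha] at hda
      omega
  have hw'u : σ w ≠ u := fun h => hwu (by rw [← hI.invol w, h, hu])
  by_cases hbig : j + 1 ≤ dg G (σ w)
  · -- drop the pair `w, σ w`
    refine ⟨rm σ w, rm_inv hI w, ?_, ?_, ?_⟩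
    · have : fixSet (rm σ w) ⊆ {u, w, σ w} := by
        intro z
        rw [mem_fixSet, rm_fix]
        simp only [Finset.mem_insert, Finset.mem_singleton]
        rintro (h | h | h)
        · left; exact hfixu z h
        · right; left; exact h
        · right; right; exact h
      have h2 := Finset.card_le_card this
      have h3 : ({u, w, σ w} : Finset V).card ≤ 3 := Finset.card_le_three
      rcases hjodd with ⟨t, ht⟩
      omega
    · intro a b ha hb hda hdb
      rw [rm_fix] at ha hb
      have hA : a = u := by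
        rcases ha with h | h | h
        · exact hfixu a h
        · rw [h] at hda; omega
        · rw [h] at hda; omega
      have hB : b = u := by
        rcases hb with h | h | h
        · exact hfixu b h
        · rw [h] at hdb; omega
        · rw [h] at hdb; omega
      rw [hA, hB]
    · intro _ _ _
      have : ({u, w, σ w} : Finset V) ⊆ fixSet (rm σ w) := by
        intro z
        rw [mem_fixSet, rm_fix]
        simp only [Finset.mem_insert, Finset.mem_singleton]
        rintro (h | h | h)
        · left; rw [h, hu]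
        · right; left; exact h
        · right; right; exact h
      have h2 := Finset.card_le_card this
      have h3 : ({u, w, σ w} : Finset V).card = 3 := by
        rw [Finset.card_eq_three]
        exact ⟨u, w, σ w, hwu.symm, hw'u.symm, hσw.symm, rfl⟩
      omega
  have hdw' : dg G (σ w) = j := le_antisymm (by omega) (hdeg _)
  by_cases hadj : G.Adj u (σ w)
  swap
  · -- replace the pair `w, σ w` by `u, σ w`
    have hI1 := rm_inv hI w
    have hu1 : rm σ w u = u := (rm_fix σ w u).2 (Or.inl hu)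
    have hy1 : rm σ w (σ w) = σ w := rm_v σ w
    refine pack _ (pr_inv hI1 hu1 hy1 hadj) ?_
    intro z
    rw [pr_fix hw'u.symm, rm_fix]
    constructor
    · rintro ⟨h | h | h, h2, h3⟩
      · exact absurd (hfixu z h) h2
      · exact h
      · exact absurd h h3
    · rintro rfl
      exact ⟨Or.inr (Or.inl rfl), hwu, hσw.symm⟩
  -- now look for x with u ≁ x, x ≠ u, w and σ x ≁ σ w
  by_cases hex : ∃ x, x ≠ u ∧ x ≠ w ∧ ¬ G.Adj u x ∧ ¬ G.Adj (σ x) (σ w)
  · obtain ⟨x, hxu, hxw, hux, hxw'⟩ := hex
    have hx : σ x ≠ x := fun h => hxu (hfixu x h)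
    have hxσw : x ≠ σ w := fun h => hux (h ▸ hadj)
    have hσxu : σ x ≠ u := fun h => hxu (by rw [← hI.invol x, h, hu])
    have hσxσw : σ x ≠ σ w := fun h => hxw (by rw [← hI.invol x, h, hI.invol])
    have hσxw : σ x ≠ w := fun h => hxσw (by rw [← h, hI.invol])
    -- remove both pairs
    have hI1 := rm_inv hI w
    have e1 : rm σ w x = σ x := rm_o σ hxw hxσw
    have hI2 := rm_inv hI1 x
    have fix2 : ∀ z, rm (rm σ w) x z = z ↔ z = u ∨ z = w ∨ z = σ w ∨ z = x ∨ z = σ x := by
      intro z
      rw [rm_fix, rm_fix, e1]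
      constructor
      · rintro ((h | h | h) | h | h)
        · exact Or.inl (hfixu z h)
        · exact Or.inr (Or.inl h)
        · exact Or.inr (Or.inr (Or.inl h))
        · exact Or.inr (Or.inr (Or.inr (Or.inl h)))
        · exact Or.inr (Or.inr (Or.inr (Or.inr h)))
      · rintro (h | h | h | h | h)
        · left; left; rw [h, hu]
        · left; right; left; exact h
        · left; right; right; exact h
        · right; left; exact h
        · right; right; exact h
    have hu2 : rm (rm σ w) x u = u := (fix2 u).2 (Or.inl rfl)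
    have hx2 : rm (rm σ w) x x = x := (fix2 x).2 (by tauto)
    have hI3 := pr_inv hI2 hu2 hx2 hux
    have fix3 : ∀ z, pr (rm (rm σ w) x) u x z = z ↔ z = w ∨ z = σ w ∨ z = σ x := by
      intro z
      rw [pr_fix hxu.symm, fix2]
      constructor
      · rintro ⟨h, h2, h3⟩; tauto
      · rintro (h | h | h)
        · subst h; exact ⟨by tauto, hwu, hxw.symm⟩
        · subst h; exact ⟨by tauto, hw'u, hxσw.symm⟩
        · subst h; exact ⟨by tauto, hσxu, hx⟩
    have hy3 : pr (rm (rm σ w) x) u x (σ x) = σ x := (fix3 _).2 (by tauto)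
    have hw3 : pr (rm (rm σ w) x) u x (σ w) = σ w := (fix3 _).2 (by tauto)
    refine pack _ (pr_inv hI3 hy3 hw3 hxw') ?_
    intro z
    rw [pr_fix hσxσw, fix3]
    constructor
    · rintro ⟨h, h2, h3⟩; tauto
    · rintro rfl
      exact ⟨Or.inl rfl, hσxw.symm, hσw.symm⟩
  -- otherwise `σ w` has too large degree
  exfalso
  push Not at hex
  have hcount : ((univ : Finset V).filter fun x => ¬ G.Adj u x ∧ x ≠ u ∧ x ≠ w).card + 1 ≤
      dg G (σ w) := by
    rw [dg_eq_card]
    have hsub : insert u (((univ : Finset V).filter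
        fun x => ¬ G.Adj u x ∧ x ≠ u ∧ x ≠ w).image σ) ⊆
        (univ : Finset V).filter fun v => G.Adj (σ w) v := by
      intro z hz
      rw [Finset.mem_insert, Finset.mem_image] at hz
      rw [Finset.mem_filter]
      refine ⟨Finset.mem_univ _, ?_⟩
      rcases hz with rfl | ⟨x, hx, rfl⟩
      · exact hadj.symm
      · rw [Finset.mem_filter] at hx
        exact (hex x hx.2.2.1 hx.2.2.2 hx.2.1).symm
    have h1 := Finset.card_le_card hsub
    rw [Finset.card_insert_of_notMem, Finset.card_image_of_injective] at h1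
    · exact h1
    · intro a b hab
      rw [← hI.invol a, hab, hI.invol]
    · rw [Finset.mem_image]
      rintro ⟨x, hx, hxu⟩
      rw [Finset.mem_filter] at hx
      apply hx.2.2.1
      rw [← hI.invol x, hxu, hu]
  have hcount2 : Fintype.card V ≤
      ((univ : Finset V).filter fun x => ¬ G.Adj u x ∧ x ≠ u ∧ x ≠ w).card + dg G u + 2 := by
    rw [dg_eq_card]
    have hsub : (univ : Finset V) ⊆
        (((univ : Finset V).filter fun x => ¬ G.Adj u x ∧ x ≠ u ∧ x ≠ w) ∪
          ((univ : Finset V).filter fun v => G.Adj u v)) ∪ {u, w} := by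
      intro z _
      simp only [Finset.mem_union, Finset.mem_filter, Finset.mem_univ, true_and,
        Finset.mem_insert, Finset.mem_singleton]
      tauto
    have h1 := Finset.card_le_card hsub
    have h2 := Finset.card_union_le
      (((univ : Finset V).filter fun x => ¬ G.Adj u x ∧ x ≠ u ∧ x ≠ w) ∪
          ((univ : Finset V).filter fun v => G.Adj u v)) {u, w}
    have h3 := Finset.card_union_le
      ((univ : Finset V).filter fun x => ¬ G.Adj u x ∧ x ≠ u ∧ x ≠ w)
      ((univ : Finset V).filter fun v => G.Adj u v)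
    have h4 : ({u, w} : Finset V).card ≤ 2 := Finset.card_le_two
    rw [Finset.card_univ] at h1
    omega
  omega

end Pool.Agent.ConnAug
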