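import Pool.Agent.ConnAug.Basic

/-!
# The hub graphs (module HUB)
-/

set_option linter.unusedSectionVars false

namespace Pool.Agent.ConnAug

open Finset

namespace HubAux

/-! ### Transfer along an equivalence -/

section Transfer

variable {V V' : Type} [Fintype V] [DecidableEq V] [Fintype V'] [DecidableEq V']

theorem eb_comap (e : V ≃ V') (H : SimpleGraph V') (A B : Finset V') :
    eb (H.comap e) (A.map e.symm.toEmbedding) (B.map e.symm.toEmbedding) = eb H A B := by
  classical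
  unfold eb
  rw [Finset.sum_map]
  refine Finset.sum_congr rfl fun u _ => ?_
  rw [Finset.sum_map]
  refine Finset.sum_congr rfl fun v _ => ?_
  simp

theorem map_compl' (e : V ≃ V') (A : Finset V') :
    (A.map e.symm.toEmbedding)ᶜ = Aᶜ.map e.symm.toEmbedding := by
  ext x
  simp [Finset.mem_map_equiv]

theorem map_univ' (e : V ≃ V') :
    (univ : Finset V').map e.symm.toEmbedding = (univ : Finset V) := by
  ext x
  simp

theorem dg_comap (e : V ≃ V') (H : SimpleGraph V') (v : V) :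
    dg (H.comap e) v = dg H (e v) := by
  unfold dg
  rw [← map_univ' e, ← eb_comap e H]
  congr 1
  ext x
  simp

/-- The properties of the hub graphs. -/
def HubProp (V : Type) [Fintype V] [DecidableEq V] (a s m p t c w r : ℕ) : Prop :=
  ∃ (H : SimpleGraph V) (S : Finset V) (CC : Finset (Finset V)),
      S.card = s ∧ CC.card = m ∧ (∀ v, dg H v ≤ a) ∧ eb H S S = 0 ∧
      eb H Sᶜ S = m * t + r ∧ eb H Sᶜ univ + (w - r) = a * (m * p + c) ∧
      (∀ C ∈ CC, C.card = p ∧ Disjoint C S ∧ eb H C S = t) ∧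
      (∀ C ∈ CC, ∀ D ∈ CC, C ≠ D → Disjoint C D) ∧
      (∀ C ∈ CC, ∀ u ∈ C, ∀ v, v ∉ C → H.Adj u v → v ∈ S)

theorem HubProp.transfer (e : V ≃ V') {a s m p t c w r : ℕ} (h : HubProp V' a s m p t c w r) :
    HubProp V a s m p t c w r := by
  obtain ⟨H, S, CC, h1, h2, h3, h4, h5, h6, h7, h8, h9⟩ := h
  refine ⟨H.comap e, S.map e.symm.toEmbedding, CC.map (Finset.mapEmbedding e.symm.toEmbedding).toEmbedding,
    ?_, ?_, ?_, ?_, ?_, ?_, ?_, ?_, ?_⟩
  · rw [Finset.card_map, h1]
  · rw [Finset.card_map, h2]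
  · intro v
    rw [dg_comap]
    exact h3 _
  · rw [eb_comap, h4]
  · rw [map_compl', eb_comap, h5]
  · rw [map_compl', ← map_univ' e, eb_comap, h6]
  · intro C hC
    rw [Finset.mem_map] at hC
    obtain ⟨D, hD, rfl⟩ := hC
    obtain ⟨g1, g2, g3⟩ := h7 D hD
    simp only [RelEmbedding.coe_toEmbedding, Finset.mapEmbedding_apply]
    refine ⟨by rw [Finset.card_map, g1], ?_, by rw [eb_comap, g3]⟩
    exact (Finset.disjoint_map _).2 g2
  · intro C hC D hD hne
    rw [Finset.mem_map] at hC hD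
    obtain ⟨C', hC', rfl⟩ := hC
    obtain ⟨D', hD', rfl⟩ := hD
    simp only [RelEmbedding.coe_toEmbedding, Finset.mapEmbedding_apply] at hne ⊢
    exact (Finset.disjoint_map _).2 (h8 C' hC' D' hD' fun h => hne (by rw [h]))
  · intro C hC u hu v hv huv
    rw [Finset.mem_map] at hC
    obtain ⟨D, hD, rfl⟩ := hC
    simp only [RelEmbedding.coe_toEmbedding, Finset.mapEmbedding_apply, Finset.mem_map_equiv,
      Equiv.symm_symm] at hu hv ⊢
    exact h9 D hD (e u) hu (e v) hv huv

end Transfer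

/-- Distribution of the stubs. -/
theorem exists_assign {U : Type} [Fintype U] [DecidableEq U] (B : Finset U) (a s : ℕ)
    (h : B.card ≤ a * s) :
    ∃ f : U → ℕ, (∀ v ∈ B, f v < s) ∧ ∀ j, (B.filter fun v => f v = j).card ≤ a := by
  classical
  rcases Nat.eq_zero_or_pos a with ha | ha
  · subst ha
    have hB : B = ∅ := by
      rw [← Finset.card_eq_zero]
      omega
    subst hB
    exact ⟨fun _ => 0, by simp, by simp⟩
  let f : U → ℕ := fun v => if h : v ∈ B then (B.equivFin ⟨v, h⟩ : ℕ) / a else 0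
  have hf : ∀ v (hv : v ∈ B), f v = (B.equivFin ⟨v, hv⟩ : ℕ) / a := fun v hv => dif_pos hv
  refine ⟨f, fun v hv => ?_, fun j => ?_⟩
  · rw [hf v hv, Nat.div_lt_iff_lt_mul ha]
    have := (B.equivFin ⟨v, hv⟩).2
    nlinarith
  · have h1 : (B.filter fun v => f v = j).card ≤ (Finset.Ico (j * a) (j * a + a)).card := by
      refine Finset.card_le_card_of_injOn
        (fun v => if h : v ∈ B then (B.equivFin ⟨v, h⟩ : ℕ) else 0) ?_ ?_
      · intro v hv
        rw [Finset.mem_coe, Finset.mem_filter] at hv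
        obtain ⟨hv1, hv2⟩ := hv
        rw [hf v hv1, Nat.div_eq_iff ha] at hv2
        simp only [dif_pos hv1, Finset.coe_Ico, Set.mem_Ico]
        omega
      · intro v hv v' hv' hvv
        rw [Finset.mem_coe, Finset.mem_filter] at hv hv'
        simp only [dif_pos hv.1, dif_pos hv'.1] at hvv
        have h2 := B.equivFin.injective (Fin.ext hvv)
        exact congrArg Subtype.val h2
    rw [Nat.card_Ico] at h1
    omega

section Model

variable (s m p c : ℕ)

/-- Vertices outside the hubs. -/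
abbrev UT : Type := (Fin m × Fin p) ⊕ Fin c

/-- Vertices of the model. -/
abbrev VT : Type := Fin s ⊕ UT m p c

variable {s m p c}
variable (G₁ : SimpleGraph (Fin p)) (G₂ : SimpleGraph (Fin c)) (B : Finset (UT m p c))
  (f : UT m p c → ℕ)

/-- Inner adjacency. -/
def inner : UT m p c → UT m p c → Prop
  | Sum.inl (i, x), Sum.inl (j, y) => i = j ∧ G₁.Adj x y
  | Sum.inr x, Sum.inr y => G₂.Adj x y
  | _, _ => False

/-- Adjacency of the model. -/
def modelAdj : VT s m p c → VT s m p c → Prop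
  | Sum.inl j, Sum.inr v => v ∈ B ∧ f v = j
  | Sum.inr v, Sum.inl j => v ∈ B ∧ f v = j
  | Sum.inr u, Sum.inr v => inner G₁ G₂ u v
  | _, _ => False

/-- The model graph. -/
def model : SimpleGraph (VT s m p c) where
  Adj := modelAdj G₁ G₂ B f
  symm := ⟨by
    rintro (i | (⟨i, x⟩ | x)) (j | (⟨j, y⟩ | y)) h
    · exact h
    · exact h
    · exact h
    · exact h
    · exact ⟨h.1.symm, h.2.symm⟩
    · exact h
    · exact h
    · exact h
    · exact SimpleGraph.Adj.symm h⟩
  loopless := ⟨by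
    rintro (i | (⟨i, x⟩ | x)) h
    · exact h
    · exact G₁.loopless.irrefl x h.2
    · exact G₂.loopless.irrefl x h⟩


open Classical in
/-- Inner degree. -/
noncomputable def innerDeg (u : UT m p c) : ℕ := ∑ v : UT m p c, if inner G₁ G₂ u v then 1 else 0

theorem innerDeg_inl (i : Fin m) (x : Fin p) :
    innerDeg (m := m) (c := c) G₁ G₂ (Sum.inl (i, x)) = dg G₁ x := by
  classical
  unfold innerDeg dg eb
  rw [Fintype.sum_sum_type, Fintype.sum_prod_type, Finset.sum_eq_single i]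
  · rw [Finset.sum_singleton]
    have h2 : ∑ y : Fin c, (if inner (m := m) G₁ G₂ (Sum.inl (i, x)) (Sum.inr y) then 1 else 0) = 0 :=
      Finset.sum_eq_zero fun y _ => if_neg (fun h => h)
    rw [h2, add_zero]
    refine Finset.sum_congr rfl fun y _ => ?_
    have : inner (m := m) (c := c) G₁ G₂ (Sum.inl (i, x)) (Sum.inl (i, y)) ↔ G₁.Adj x y :=
      ⟨fun h => h.2, fun h => ⟨rfl, h⟩⟩
    simp only [this]
  · intro j _ hj
    exact Finset.sum_eq_zero fun y _ => if_neg (fun h => hj h.1.symm)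
  · intro h
    exact absurd (Finset.mem_univ i) h

theorem innerDeg_inr (y : Fin c) :
    innerDeg (m := m) (p := p) G₁ G₂ (Sum.inr y) = dg G₂ y := by
  classical
  unfold innerDeg dg eb
  rw [Fintype.sum_sum_type]
  have h2 : ∑ v : Fin m × Fin p, (if inner (c := c) G₁ G₂ (Sum.inr y) (Sum.inl v) then 1 else 0) = 0 :=
    Finset.sum_eq_zero fun v _ => if_neg (fun h => h)
  rw [h2, zero_add, Finset.sum_singleton]
  refine Finset.sum_congr rfl fun z _ => ?_
  have : inner (m := m) (p := p) G₁ G₂ (Sum.inr y) (Sum.inr z) ↔ G₂.Adj y z := Iff.rfl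
  simp only [this]

/-- The hubs. -/
def SH : Finset (VT s m p c) := univ.map ⟨Sum.inl, Sum.inl_injective⟩

theorem mem_SH {v : VT s m p c} : v ∈ (SH : Finset (VT s m p c)) ↔ ∃ j, v = Sum.inl j := by
  unfold SH
  rw [Finset.mem_map]
  constructor
  · rintro ⟨j, _, rfl⟩
    exact ⟨j, rfl⟩
  · rintro ⟨j, rfl⟩
    exact ⟨j, Finset.mem_univ _, rfl⟩

theorem SH_compl : (SH : Finset (VT s m p c))ᶜ = univ.map ⟨Sum.inr, Sum.inr_injective⟩ := by
  ext v
  rw [Finset.mem_compl, mem_SH, Finset.mem_map]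
  constructor
  · intro h
    rcases v with j | u
    · exact absurd ⟨j, rfl⟩ h
    · exact ⟨u, Finset.mem_univ _, rfl⟩
  · rintro ⟨u, _, rfl⟩ ⟨j, hj⟩
    simp at hj

theorem dg_hub (j : Fin s) : dg (model G₁ G₂ B f) (Sum.inl j) = (B.filter fun v => f v = j).card := by
  classical
  unfold dg eb
  rw [Finset.sum_singleton, Fintype.sum_sum_type]
  have h1 : ∑ i : Fin s, (if (model G₁ G₂ B f).Adj (Sum.inl j) (Sum.inl i) then 1 else 0) = 0 :=
    Finset.sum_eq_zero fun i _ => if_neg (fun h => h)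
  rw [h1, zero_add, Finset.card_filter, ← Finset.sum_filter_add_sum_filter_not univ (fun v => v ∈ B)]
  have h2 : ∑ v ∈ (univ : Finset (UT m p c)).filter (fun v => ¬ v ∈ B),
      (if (model G₁ G₂ B f).Adj (Sum.inl j) (Sum.inr v) then 1 else 0) = 0 :=
    Finset.sum_eq_zero fun v hv => if_neg (fun h => (Finset.mem_filter.1 hv).2 h.1)
  rw [h2, add_zero]
  have h3 : (univ : Finset (UT m p c)).filter (fun v => v ∈ B) = B := by
    ext v; simp
  rw [h3]
  refine Finset.sum_congr rfl fun v hv => ?_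
  have : (model G₁ G₂ B f).Adj (Sum.inl j) (Sum.inr v) ↔ f v = j := ⟨fun h => h.2, fun h => ⟨hv, h⟩⟩
  simp only [this]

theorem eb_inr_SH (hf : ∀ v ∈ B, f v < s) (u : UT m p c) :
    eb (model (s := s) G₁ G₂ B f) {Sum.inr u} SH = if u ∈ B then 1 else 0 := by
  classical
  unfold eb SH
  rw [Finset.sum_singleton, Finset.sum_map]
  by_cases hu : u ∈ B
  · rw [if_pos hu, Finset.sum_eq_single ⟨f u, hf u hu⟩]
    · exact if_pos ⟨hu, rfl⟩
    · intro j _ hj
      apply if_neg
      rintro ⟨_, h⟩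
      apply hj
      exact Fin.ext h.symm
    · intro h
      exact absurd (Finset.mem_univ _) h
  · rw [if_neg hu]
    exact Finset.sum_eq_zero fun j _ => if_neg (fun h => hu h.1)

theorem dg_inr (hf : ∀ v ∈ B, f v < s) (u : UT m p c) :
    dg (model (s := s) G₁ G₂ B f) (Sum.inr u) = (if u ∈ B then 1 else 0) + innerDeg G₁ G₂ u := by
  classical
  unfold dg
  rw [← eb_add_compl _ _ SH, eb_inr_SH G₁ G₂ B f hf u, SH_compl]
  congr 1
  unfold eb innerDeg
  rw [Finset.sum_singleton, Finset.sum_map]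
  rfl

/-- The blocks. -/
def blk (s m p c : ℕ) (i : Fin m) : Finset (VT s m p c) :=
  univ.map ⟨fun x : Fin p => Sum.inr (Sum.inl (i, x)), fun x y h => by
    simpa using h⟩

theorem sum_blk {i : Fin m} (g : VT s m p c → ℕ) :
    ∑ v ∈ blk s m p c i, g v = ∑ x : Fin p, g (Sum.inr (Sum.inl (i, x))) := by
  unfold blk
  rw [Finset.sum_map]
  rfl

theorem mem_blk {i : Fin m} {v : VT s m p c} :
    v ∈ blk s m p c i ↔ ∃ x, v = Sum.inr (Sum.inl (i, x)) := by
  unfold blk
  rw [Finset.mem_map]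
  constructor
  · rintro ⟨x, _, rfl⟩
    exact ⟨x, rfl⟩
  · rintro ⟨x, rfl⟩
    exact ⟨x, Finset.mem_univ _, rfl⟩

end Model

end HubAux

open HubAux

theorem hub_proof (hNR : Stmt_NearRegular) : Stmt_Hub := by
  classical
  intro V _ _ a s m p t c w r hp ht hpt hc hw hcw hr ha0 hcap hcard
  have e : V ≃ VT s m p c := by
    refine Fintype.equivOfCardEq ?_
    rw [hcard]
    simp only [Fintype.card_sum, Fintype.card_prod, Fintype.card_fin]
    ring
  refine HubProp.transfer e ?_
  obtain ⟨G₁, W₁, hW₁, h1a, h1b⟩ := hNR (Fin p) a t (by simpa using hp) (by simpa using ht)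
    (fun h => (ha0 h).1) (by simpa using hpt)
  obtain ⟨G₂, W₂, hW₂, h2a, h2b⟩ := hNR (Fin c) a w (by simpa using hc) (by simpa using hw)
    (fun h => (ha0 h).2) (by simpa using hcw)
  obtain ⟨W₃, hW₃, hW₃r⟩ := Finset.exists_subset_card_eq (s := W₂) (n := r) (by rw [hW₂]; exact hr)
  let st : UT m p c → Prop := fun u => match u with
    | Sum.inl (_, x) => x ∈ W₁
    | Sum.inr y => y ∈ W₃
  set B : Finset (UT m p c) := univ.filter st with hB
  have hBl : ∀ i x, (Sum.inl (i, x) : UT m p c) ∈ B ↔ x ∈ W₁ := by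
    intro i x
    rw [hB, Finset.mem_filter]
    exact ⟨fun h => h.2, fun h => ⟨Finset.mem_univ _, h⟩⟩
  have hBr : ∀ y, (Sum.inr y : UT m p c) ∈ B ↔ y ∈ W₃ := by
    intro y
    rw [hB, Finset.mem_filter]
    exact ⟨fun h => h.2, fun h => ⟨Finset.mem_univ _, h⟩⟩
  have hsumB : ∑ u : UT m p c, (if u ∈ B then 1 else 0) = m * t + r := by
    rw [Fintype.sum_sum_type, Fintype.sum_prod_type]
    simp only [hBl, hBr]
    simp [hW₁, hW₃r]
  have hBcard : B.card = m * t + r := by
    rw [← hsumB]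
    simp
  obtain ⟨f, hf1, hf2⟩ := exists_assign B a s (by rw [hBcard]; exact hcap)
  have hdl : ∀ i x, dg (model (s := s) G₁ G₂ B f) (Sum.inr (Sum.inl (i, x))) = a := by
    intro i x
    rw [dg_inr G₁ G₂ B f hf1, innerDeg_inl]
    simp only [hBl]
    by_cases hx : x ∈ W₁
    · rw [if_pos hx]
      have := h1a x hx
      omega
    · rw [if_neg hx, h1b x hx, zero_add]
  have hdr : ∀ y, dg (model (s := s) G₁ G₂ B f) (Sum.inr (Sum.inr y)) +
      (if y ∈ W₂ \ W₃ then 1 else 0) = a := by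
    intro y
    rw [dg_inr G₁ G₂ B f hf1, innerDeg_inr]
    simp only [hBr]
    by_cases hy : y ∈ W₂
    · have h1 := h2a y hy
      by_cases hy3 : y ∈ W₃
      · rw [if_pos hy3, if_neg (by simp [hy3])]
        omega
      · rw [if_neg hy3, if_pos (by simp [hy, hy3])]
        omega
    · have hy3 : y ∉ W₃ := fun h => hy (hW₃ h)
      rw [if_neg hy3, if_neg (by simp [hy]), h2b y hy]
      omega
  have hp0 : 0 < p := by omega
  have hblkinj : Function.Injective (blk s m p c) := by
    intro i j hij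
    have h1 : (Sum.inr (Sum.inl (i, ⟨0, hp0⟩)) : VT s m p c) ∈ blk s m p c i := mem_blk.2 ⟨_, rfl⟩
    rw [hij, mem_blk] at h1
    obtain ⟨x, hx⟩ := h1
    simp only [Sum.inr.injEq, Sum.inl.injEq, Prod.mk.injEq] at hx
    exact hx.1
  refine ⟨model G₁ G₂ B f, SH, univ.image (blk s m p c), ?_, ?_, ?_, ?_, ?_, ?_, ?_, ?_, ?_⟩
  · unfold SH
    rw [Finset.card_map, Finset.card_univ, Fintype.card_fin]
  · rw [Finset.card_image_of_injective _ hblkinj, Finset.card_univ, Fintype.card_fin]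
  · rintro (j | (⟨i, x⟩ | y))
    · rw [dg_hub]
      exact hf2 j
    · exact (hdl i x).le
    · have := hdr y
      omega
  · rw [eb_eq_zero_iff]
    intro u hu v hv h
    obtain ⟨i, rfl⟩ := mem_SH.1 hu
    obtain ⟨j, rfl⟩ := mem_SH.1 hv
    exact h
  · rw [SH_compl, eb_eq_sum_left, Finset.sum_map]
    rw [← hsumB]
    refine Finset.sum_congr rfl fun u _ => ?_
    exact eb_inr_SH G₁ G₂ B f hf1 u
  · rw [SH_compl, eb_univ_right, Finset.sum_map, Fintype.sum_sum_type, Fintype.sum_prod_type]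
    have h1 : ∑ i : Fin m, ∑ x : Fin p, dg (model (s := s) G₁ G₂ B f) (Sum.inr (Sum.inl (i, x))) =
        a * (m * p) := by
      simp only [hdl]
      simp
      ring
    have h2 : ∑ y : Fin c, dg (model (s := s) G₁ G₂ B f) (Sum.inr (Sum.inr y)) + (w - r) =
        a * c := by
      have h3 : w - r = ∑ y : Fin c, (if y ∈ W₂ \ W₃ then 1 else 0) := by
        rw [Finset.sum_ite_mem, Finset.univ_inter, Finset.sum_const, smul_eq_mul, mul_one,
          Finset.card_sdiff_of_subset hW₃, hW₂, hW₃r]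
      rw [h3, ← Finset.sum_add_distrib]
      simp only [hdr]
      simp
      ring
    simp only [Function.Embedding.coeFn_mk]
    rw [h1, add_assoc, h2]
    ring
  · intro C hC
    rw [Finset.mem_image] at hC
    obtain ⟨i, _, rfl⟩ := hC
    refine ⟨?_, ?_, ?_⟩
    · unfold blk
      rw [Finset.card_map, Finset.card_univ, Fintype.card_fin]
    · rw [Finset.disjoint_left]
      intro v hv hv'
      obtain ⟨x, rfl⟩ := mem_blk.1 hv
      obtain ⟨j, hj⟩ := mem_SH.1 hv'
      simp at hj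
    · rw [eb_eq_sum_left, sum_blk]
      have h1 : ∀ x : Fin p, eb (model (s := s) G₁ G₂ B f) {Sum.inr (Sum.inl (i, x))} SH =
          if x ∈ W₁ then 1 else 0 := by
        intro x
        rw [eb_inr_SH G₁ G₂ B f hf1]
        simp only [hBl]
      simp only [h1]
      simp [hW₁]
  · intro C hC D hD hne
    rw [Finset.mem_image] at hC hD
    obtain ⟨i, _, rfl⟩ := hC
    obtain ⟨j, _, rfl⟩ := hD
    rw [Finset.disjoint_left]
    intro v hv hv'
    obtain ⟨x, rfl⟩ := mem_blk.1 hv
    obtain ⟨y, hy⟩ := mem_blk.1 hv'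
    simp only [Sum.inr.injEq, Sum.inl.injEq, Prod.mk.injEq] at hy
    exact hne (by rw [hy.1])
  · intro C hC u hu v hv huv
    rw [Finset.mem_image] at hC
    obtain ⟨i, _, rfl⟩ := hC
    obtain ⟨x, rfl⟩ := mem_blk.1 hu
    rcases v with j | (⟨j, y⟩ | y)
    · exact mem_SH.2 ⟨j, rfl⟩
    · exfalso
      apply hv
      have h1 : i = j := huv.1
      subst h1
      exact mem_blk.2 ⟨y, rfl⟩
    · exact huv.elim

end Pool.Agent.ConnAug
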