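import Pool.Agent.ConnAug.Basic

/-!
# Graphs of edge-connectivity `k` with `⌈k n / 2⌉` edges
-/

set_option autoImplicit false

namespace Pool.Agent.ConnAug

open Finset

/-- A closed set of residues is everything. -/
lemma closed_zmod {n : ℕ} [NeZero n] {Y : Set (ZMod n)} (hc : ∀ z ∈ Y, z + 1 ∈ Y) {z : ZMod n}
    (hz : z ∈ Y) (w : ZMod n) : w ∈ Y := by
  have h : ∀ k : ℕ, z + k ∈ Y := by
    intro k
    induction k with
    | zero => simpa using hz
    | succ k ih =>
      have := hc _ ih
      rw [add_assoc] at this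
      push_cast
      exact this
  have h2 := h (w - z).val
  rw [ZMod.natCast_zmod_val] at h2
  simpa using h2

/-- A Hamiltonian cycle. -/
lemma exists_cycle (V : Type) [Fintype V] [DecidableEq V] (hn : 3 ≤ Fintype.card V) :
    ∃ G : SimpleGraph V, EC 2 G ∧ eb G univ univ ≤ 2 * Fintype.card V := by
  classical
  have : NeZero (Fintype.card V) := ⟨by omega⟩
  have e : V ≃ ZMod (Fintype.card V) := Fintype.equivOfCardEq (by rw [ZMod.card])
  let σ : V → V := fun v => e.symm (e v + 1)
  let τ : V → V := fun v => e.symm (e v - 1)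
  have hστ : ∀ v, σ (τ v) = v := by intro v; simp [σ, τ]
  have hτσ : ∀ v, τ (σ v) = v := by intro v; simp [σ, τ]
  -- closed sets
  have hclosed : ∀ X : Finset V, X.Nonempty → (Xᶜ).Nonempty → ∃ u ∈ X, σ u ∉ X := by
    intro X hX hX'
    by_contra hcon
    push Not at hcon
    obtain ⟨x, hx⟩ := hX
    obtain ⟨y, hy⟩ := hX'
    rw [Finset.mem_compl] at hy
    apply hy
    have h1 := closed_zmod (Y := {z | e.symm z ∈ X}) (z := e x) (fun z hz => by
      have h2 := hcon (e.symm z) hz
      simpa [σ] using h2) (by simpa using hx) (e y)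
    simpa using h1
  let G : SimpleGraph V := SimpleGraph.fromRel (fun u v => v = σ u)
  have hadj : ∀ u v, G.Adj u v ↔ u ≠ v ∧ (v = σ u ∨ u = σ v) := by
    intro u v
    exact SimpleGraph.fromRel_adj _ u v
  have hne : ∀ v, σ v ≠ v := by
    intro v h
    have h1 : e v + 1 = e v := by
      have := congrArg e h
      simpa [σ] using this
    have h2 : (1 : ZMod (Fintype.card V)) = 0 := by
      simpa using h1
    have : Fact (1 < Fintype.card V) := ⟨by omega⟩
    exact one_ne_zero h2
  have hne2 : ∀ v, σ (σ v) ≠ v := by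
    intro v h
    have h1 : e v + 1 + 1 = e v := by
      have := congrArg e h
      simpa [σ] using this
    have h2 : ((2 : ℕ) : ZMod (Fintype.card V)) = 0 := by
      have h3 : e v + (1 + 1) = e v + 0 := by rw [← add_assoc, h1, add_zero]
      have h4 := add_left_cancel h3
      push_cast
      rw [← h4]
      norm_num
    rw [ZMod.natCast_eq_zero_iff] at h2
    have := Nat.le_of_dvd (by norm_num) h2
    omega
  refine ⟨G, ?_, ?_⟩
  · intro X hX hX'
    obtain ⟨u, hu, hu'⟩ := hclosed X hX hX'
    obtain ⟨v, hv, hv'⟩ := hclosed Xᶜ hX' (by rwa [compl_compl])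
    rw [Finset.mem_compl] at hv
    rw [Finset.mem_compl, not_not] at hv'
    rw [eb_eq_card]
    have hsub : ({(u, σ u), (σ v, v)} : Finset (V × V)) ⊆
        (X ×ˢ Xᶜ).filter fun p => G.Adj p.1 p.2 := by
      intro p hp
      rw [Finset.mem_insert, Finset.mem_singleton] at hp
      rw [Finset.mem_filter, Finset.mem_product, Finset.mem_compl]
      rcases hp with rfl | rfl
      · exact ⟨⟨hu, hu'⟩, (hadj _ _).2 ⟨(hne u).symm, Or.inl rfl⟩⟩
      · exact ⟨⟨hv', hv⟩, (hadj _ _).2 ⟨hne v, Or.inr rfl⟩⟩
    refine le_trans (le_of_eq ?_) (Finset.card_le_card hsub)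
    rw [Finset.card_pair]
    intro h
    rw [Prod.mk.injEq] at h
    apply hne2 v
    rw [← h.1]
    exact h.2
  · rw [eb_univ_right]
    have h1 : ∀ v ∈ (univ : Finset V), dg G v ≤ 2 := by
      intro v _
      rw [dg_eq_card]
      have hsub : (univ.filter fun w => G.Adj v w) ⊆ ({σ v, τ v} : Finset V) := by
        intro w hw
        rw [Finset.mem_filter] at hw
        rw [Finset.mem_insert, Finset.mem_singleton]
        rcases ((hadj _ _).1 hw.2).2 with h | h
        · exact Or.inl h
        · right
          rw [h, hτσ]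
      exact (Finset.card_le_card hsub).trans Finset.card_le_two
    calc ∑ v, dg G v ≤ ∑ _v : V, 2 := Finset.sum_le_sum h1
      _ = 2 * Fintype.card V := by rw [Finset.sum_const, smul_eq_mul, mul_comm]; rfl

theorem harary_proof (hNR : Stmt_NearRegular) (hSp : Stmt_Sparse) : Stmt_Harary := by
  classical
  intro V _ _ k hk hkn
  by_cases hn : 2 * k + 2 ≤ Fintype.card V
  · obtain ⟨G, hG, hG2⟩ := exists_cycle V (by omega)
    obtain ⟨G', h1, h2, h3⟩ := hSp V 2 k le_rfl hk hn G hG
    refine ⟨G', h2, ?_⟩
    have h4 := eb_sdiff h1 univ univ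
    omega
  · rcases Nat.even_or_odd (k * Fintype.card V) with hev | hod
    · obtain ⟨G, W, hW, h1, h2⟩ := hNR V k 0 (by omega) (by omega) (fun _ => rfl)
        (by rw [add_zero, mul_comm]; exact hev)
      rw [Finset.card_eq_zero] at hW
      subst hW
      have h3 : ∀ v, dg G v = k := fun v => h2 v (Finset.notMem_empty v)
      refine ⟨G, EC_of_dg G (by omega) (fun v => (h3 v).ge), ?_⟩
      rw [eb_univ_right, Finset.sum_congr rfl (fun v _ => h3 v), Finset.sum_const, smul_eq_mul,
        Finset.card_univ, mul_comm]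
      obtain ⟨r, hr⟩ := hev
      omega
    · have hk1 : Odd k := (Nat.odd_mul.1 hod).1
      have hn1 : Odd (Fintype.card V) := (Nat.odd_mul.1 hod).2
      obtain ⟨p, hp⟩ := hk1
      obtain ⟨q, hq⟩ := hn1
      obtain ⟨G, W, hW, h1, h2⟩ := hNR V (k + 1) (Fintype.card V - 1) (by omega) (by omega)
        (fun h => absurd h (by omega)) (by
          have h4 : Even (Fintype.card V * (k + 1)) := (by rw [hp]; exact ⟨Fintype.card V * (p + 1), by ring⟩)
          have h5 : Even (Fintype.card V - 1) := ⟨q, by omega⟩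
          exact h4.add h5)
      have h3 : ∀ v, k ≤ dg G v := by
        intro v
        by_cases hv : v ∈ W
        · have := h1 v hv
          omega
        · have := h2 v hv
          omega
      refine ⟨G, EC_of_dg G (by omega) h3, ?_⟩
      rw [eb_univ_right, ← Finset.sum_add_sum_compl W]
      have h4 : ∑ v ∈ W, dg G v = (Fintype.card V - 1) * k := by
        rw [Finset.sum_congr rfl (fun v hv => (by have := h1 v hv; omega : dg G v = k)),
          Finset.sum_const, smul_eq_mul, hW]
      have h5 : ∑ v ∈ Wᶜ, dg G v = k + 1 := by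
        rw [Finset.sum_congr rfl (fun v hv => h2 v (Finset.mem_compl.1 hv)),
          Finset.sum_const, smul_eq_mul, Finset.card_compl, hW]
        have : Fintype.card V - (Fintype.card V - 1) = 1 := by omega
        rw [this, one_mul]
      rw [h4, h5]
      obtain ⟨r, hr⟩ := hod
      obtain ⟨m, hm⟩ : ∃ m, Fintype.card V = m + 1 := ⟨Fintype.card V - 1, by omega⟩
      rw [hm] at hr ⊢
      rw [Nat.add_sub_cancel]
      have h6 : k * (m + 1) = m * k + k := by ring
      omega

end Pool.Agent.ConnAug
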