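import Pool.Agent.ConnAug.Basic

/-! # Module K1L: the lower bound for `k = 1` (star) (helper17) -/

set_option autoImplicit false

namespace Pool.Agent.ConnAug

open Finset

theorem k1l_proof : Stmt_K1Lower := by
  classical
  intro V _ _ l hl hn
  have hne : Nonempty V := by
    rw [← Fintype.card_pos_iff]; omega
  obtain ⟨c⟩ := hne
  let G : SimpleGraph V :=
    { Adj := fun u v => u ≠ v ∧ (u = c ∨ v = c)
      symm := ⟨fun u v h => ⟨h.1.symm, h.2.symm⟩⟩
      loopless := ⟨fun u h => h.1 rfl⟩ }
  refine ⟨G, ?_, ?_⟩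
  · intro X hX hXc
    have : 0 < eb G X Xᶜ := by
      rw [eb_pos_iff]
      by_cases hc : c ∈ X
      · obtain ⟨v, hv⟩ := hXc
        refine ⟨c, hc, v, hv, ?_, Or.inl rfl⟩
        rintro rfl
        exact (Finset.mem_compl.1 hv) hc
      · obtain ⟨u, hu⟩ := hX
        refine ⟨u, hu, c, Finset.mem_compl.2 hc, ?_, Or.inr rfl⟩
        rintro rfl
        exact hc hu
    omega
  · intro G' hGG' hEC
    have hdeg : ∀ v, v ≠ c → dg G v = 1 := by
      intro v hv
      rw [dg_eq_card]
      rw [Finset.card_eq_one]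
      refine ⟨c, ?_⟩
      ext w
      simp only [Finset.mem_filter, Finset.mem_univ, true_and, Finset.mem_singleton]
      constructor
      · rintro ⟨_, h | h⟩
        · exact absurd h hv
        · exact h
      · rintro rfl
        exact ⟨hv, Or.inr rfl⟩
    have h1 : ∀ v ∈ (univ : Finset V).erase c, l - 1 ≤ dg (G' \ G) v := by
      intro v hv
      have hvc : v ≠ c := (Finset.mem_erase.1 hv).1
      have h2 := hEC.le_dg (by omega) v
      have h3 : dg (G' \ G) v + dg G v = dg G' v := eb_sdiff hGG' {v} univ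
      have h4 := hdeg v hvc
      omega
    rw [eb_univ_right]
    calc (Fintype.card V - 1) * (l - 1) = ∑ _v ∈ (univ : Finset V).erase c, (l - 1) := by
          rw [Finset.sum_const, Finset.card_erase_of_mem (Finset.mem_univ c), Finset.card_univ,
            smul_eq_mul]
      _ ≤ ∑ v ∈ (univ : Finset V).erase c, dg (G' \ G) v := Finset.sum_le_sum h1
      _ ≤ ∑ v, dg (G' \ G) v := Finset.sum_le_sum_of_subset (Finset.erase_subset _ _)

end Pool.Agent.ConnAug
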