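import Pool.Agent.ConnAug.Basic

/-!
# Near-regular graphs (module NR)
-/

namespace Pool.Agent.ConnAug

open Finset

variable {V : Type} [Fintype V] [DecidableEq V]

theorem edge_adj_iff {x z : V} (hxz : x ≠ z) (a b : V) :
    (SimpleGraph.edge x z).Adj a b ↔ (a = x ∧ b = z) ∨ (a = z ∧ b = x) := by
  rw [SimpleGraph.edge_adj]
  constructor
  · rintro ⟨⟨h1, h2⟩ | ⟨h1, h2⟩, _⟩
    · left
      exact ⟨by rw [h1], by rw [h2]⟩
    · right
      exact ⟨by rw [h1], by rw [h2]⟩
  · rintro (⟨rfl, rfl⟩ | ⟨rfl, rfl⟩)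
    · exact ⟨by simp, hxz⟩
    · exact ⟨by simp, hxz.symm⟩

/-- Degrees of a single edge. -/
theorem dg_edge {x z : V} (hxz : x ≠ z) (v : V) :
    dg (SimpleGraph.edge x z) v = (if v = x then 1 else 0) + (if v = z then 1 else 0) := by
  classical
  rw [dg_eq_card]
  have h0 : ((univ : Finset V).filter fun w => (SimpleGraph.edge x z).Adj v w) =
      univ.filter fun w => (v = x ∧ w = z) ∨ (v = z ∧ w = x) := by
    refine Finset.filter_congr fun w _ => edge_adj_iff hxz v w
  rw [h0]
  by_cases h1 : v = x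
  · subst h1
    have h2 : ((univ : Finset V).filter fun w => (v = v ∧ w = z) ∨ (v = z ∧ w = v)) = {z} := by
      ext w
      simp [hxz]
    rw [h2, card_singleton, if_pos rfl, if_neg hxz]
  · by_cases h3 : v = z
    · subst h3
      have h2 : ((univ : Finset V).filter fun w => (v = x ∧ w = v) ∨ (v = v ∧ w = x)) = {x} := by
        ext w
        simp [hxz.symm]
      rw [h2, card_singleton, if_neg h1, if_pos rfl]
    · have h2 : ((univ : Finset V).filter fun w => (v = x ∧ w = z) ∨ (v = z ∧ w = x)) = ∅ := by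
        ext w
        simp [h1, h3]
      rw [h2, card_empty, if_neg h1, if_neg h3]

/-- Existence of graphs with a given number of edges. -/
theorem exists_eb_eq (E : ℕ) (hE : 2 * E ≤ Fintype.card V * (Fintype.card V - 1)) :
    ∃ G : SimpleGraph V, eb G univ univ = 2 * E := by
  classical
  have h1 : E ≤ (⊤ : SimpleGraph V).edgeFinset.card := by
    rw [SimpleGraph.card_edgeFinset_top_eq_card_choose_two, Nat.choose_two_right]
    omega
  obtain ⟨s, hs1, hs2⟩ := Finset.exists_subset_card_eq h1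
  refine ⟨SimpleGraph.fromEdgeSet (s : Set (Sym2 V)), ?_⟩
  rw [← two_mul_ncard, SimpleGraph.edgeSet_fromEdgeSet]
  have h2 : (s : Set (Sym2 V)) \ Sym2.diagSet = (s : Set (Sym2 V)) := by
    rw [sdiff_eq_left, Set.disjoint_left]
    intro e he hd
    have h3 := hs1 he
    rw [SimpleGraph.mem_edgeFinset] at h3
    exact SimpleGraph.not_isDiag_of_mem_edgeSet _ h3 hd
  rw [h2, Set.ncard_coe_finset, hs2]

/-- Moving an edge. -/
theorem exists_move {G : SimpleGraph V} {x y : V} (h : dg G y + 2 ≤ dg G x) :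
    ∃ G' : SimpleGraph V, dg G' x + 1 = dg G x ∧ dg G' y = dg G y + 1 ∧
      ∀ v, v ≠ x → v ≠ y → dg G' v = dg G v := by
  classical
  have hxy : x ≠ y := by
    rintro rfl
    omega
  obtain ⟨z, hz1, hz2, hz3⟩ : ∃ z, G.Adj x z ∧ ¬ G.Adj y z ∧ z ≠ y := by
    by_contra hcon
    push Not at hcon
    have h1 : ((univ : Finset V).filter fun v => G.Adj x v) ⊆
        insert y ((univ : Finset V).filter fun v => G.Adj y v) := by
      intro z hz
      rw [mem_filter] at hz
      rw [mem_insert, mem_filter]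
      by_cases h2 : G.Adj y z
      · exact Or.inr ⟨mem_univ _, h2⟩
      · exact Or.inl (hcon z hz.2 h2)
    have h2 := (card_le_card h1).trans (card_insert_le _ _)
    rw [← dg_eq_card, ← dg_eq_card] at h2
    omega
  have hxz : x ≠ z := hz1.ne
  have hyz : y ≠ z := hz3.symm
  have hle : SimpleGraph.edge x z ≤ G := by
    intro a b hab
    rw [edge_adj_iff hxz] at hab
    rcases hab with ⟨rfl, rfl⟩ | ⟨rfl, rfl⟩
    · exact hz1
    · exact hz1.symm
  have hdis : Disjoint (G \ SimpleGraph.edge x z) (SimpleGraph.edge y z) := by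
    rw [disjoint_iff_inf_le]
    intro a b hab
    obtain ⟨h1, h2⟩ := hab
    rw [edge_adj_iff hyz] at h2
    rw [SimpleGraph.sdiff_adj] at h1
    rcases h2 with ⟨rfl, rfl⟩ | ⟨rfl, rfl⟩
    · exact absurd h1.1 hz2
    · exact absurd h1.1.symm hz2
  have key : ∀ v, dg ((G \ SimpleGraph.edge x z) ⊔ SimpleGraph.edge y z) v +
      ((if v = x then 1 else 0) + (if v = z then 1 else 0)) =
      dg G v + ((if v = y then 1 else 0) + (if v = z then 1 else 0)) := by
    intro v
    have h1 := eb_sup hdis {v} univ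
    have h2 := eb_sdiff hle {v} univ
    have h3 := dg_edge hxz v
    have h4 := dg_edge hyz v
    unfold dg at *
    omega
  refine ⟨(G \ SimpleGraph.edge x z) ⊔ SimpleGraph.edge y z, ?_, ?_, ?_⟩
  · have := key x
    rw [if_pos rfl, if_neg hxz, if_neg hxy] at this
    omega
  · have := key y
    rw [if_neg hxy.symm, if_pos rfl, if_neg hyz] at this
    omega
  · intro v hvx hvy
    have := key v
    rw [if_neg hvx, if_neg hvy] at this
    omega

theorem exists_balanced (E : ℕ) (hE : 2 * E ≤ Fintype.card V * (Fintype.card V - 1)) :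
    ∃ G : SimpleGraph V, ∑ v, dg G v = 2 * E ∧ ∀ x y, dg G x ≤ dg G y + 1 := by
  classical
  have hne : ∃ m : ℕ, ∃ G : SimpleGraph V, ∑ v, dg G v = 2 * E ∧ ∑ v, dg G v ^ 2 = m := by
    obtain ⟨G, hG⟩ := exists_eb_eq (V := V) E hE
    exact ⟨_, G, by rw [← hG, eb_univ_right], rfl⟩
  obtain ⟨G, hG1, hG2⟩ := Nat.find_spec hne
  refine ⟨G, hG1, fun x y => ?_⟩
  by_contra hcon
  push Not at hcon
  have hcon' : dg G y + 2 ≤ dg G x := by omega
  obtain ⟨G', h1, h2, h3⟩ := exists_move hcon'
  have hxy : x ≠ y := by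
    rintro rfl
    omega
  have hsplit : ∀ f : V → ℕ, ∑ v, f v = f x + (f y + ∑ v ∈ (univ.erase x).erase y, f v) := by
    intro f
    rw [← Finset.add_sum_erase univ f (mem_univ x),
      ← Finset.add_sum_erase (univ.erase x) f (mem_erase.2 ⟨hxy.symm, mem_univ y⟩)]
  have hrest : ∀ g : ℕ → ℕ, ∑ v ∈ (univ.erase x).erase y, g (dg G' v) =
      ∑ v ∈ (univ.erase x).erase y, g (dg G v) := by
    intro g
    refine Finset.sum_congr rfl fun v hv => ?_
    rw [mem_erase, mem_erase] at hv
    rw [h3 v hv.2.1 hv.1]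
  have h4 : ∑ v, dg G' v = 2 * E := by
    rw [← hG1, hsplit, hsplit (fun v => dg G v)]
    have := hrest (fun n => n)
    omega
  have h5 : ∑ v, dg G' v ^ 2 < ∑ v, dg G v ^ 2 := by
    rw [hsplit (fun v => dg G' v ^ 2), hsplit (fun v => dg G v ^ 2)]
    have := hrest (fun n => n ^ 2)
    rw [this, h2, ← h1]
    have h6 : dg G y + 1 ≤ dg G' x := by omega
    nlinarith
  have h7 := Nat.find_min' hne ⟨G', h4, rfl⟩
  rw [← hG2] at h7
  omega

theorem nearRegular : Stmt_NearRegular := by
  intro V _ _ a w ha hw ha0 hev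
  classical
  set n := Fintype.card V with hn
  have hwa : w ≤ n * a := by
    rcases Nat.eq_zero_or_pos a with h | h
    · rw [ha0 h]; omega
    · exact hw.trans (Nat.le_mul_of_pos_right _ h)
  obtain ⟨E, hE⟩ : ∃ E, n * a = w + 2 * E := by
    obtain ⟨r, hr⟩ := hev
    refine ⟨r - w, ?_⟩
    omega
  have hE2 : 2 * E ≤ n * (n - 1) := by
    have : n * a ≤ n * (n - 1) := Nat.mul_le_mul_left _ (by omega)
    omega
  obtain ⟨G, hG1, hG2⟩ := exists_balanced (V := V) E hE2
  have hcard : ∀ c : ℕ, ∑ _v : V, c = n * c := by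
    intro c
    rw [Finset.sum_const, Finset.card_univ, smul_eq_mul]
  -- upper bound for the degrees
  have h1 : ∀ v, dg G v ≤ a := by
    intro v
    by_contra hcon
    push Not at hcon
    have h2 : ∀ u, a ≤ dg G u := fun u => by
      have := hG2 v u
      omega
    have h3 : ∑ _v : V, a < ∑ v, dg G v :=
      Finset.sum_lt_sum (fun u _ => h2 u) ⟨v, mem_univ _, hcon⟩
    rw [hcard] at h3
    omega
  have h2 : ∀ v, a ≤ dg G v + 1 := by
    intro v
    by_contra hcon
    push Not at hcon
    have h3 : ∀ u, dg G u + 1 ≤ a := fun u => by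
      have := hG2 u v
      omega
    have h4 : ∑ v, (dg G v + 1) < ∑ _v : V, a :=
      Finset.sum_lt_sum (fun u _ => h3 u) ⟨v, mem_univ _, hcon⟩
    rw [hcard, Finset.sum_add_distrib, hcard, hG1] at h4
    omega
  refine ⟨G, univ.filter fun v => dg G v + 1 = a, ?_, ?_, ?_⟩
  · have h3 : ∀ v, dg G v + (if dg G v + 1 = a then 1 else 0) = a := by
      intro v
      have := h1 v
      have := h2 v
      split_ifs <;> omega
    have h4 : ∑ v, (dg G v + (if dg G v + 1 = a then 1 else 0)) = ∑ _v : V, a :=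
      Finset.sum_congr rfl fun v _ => h3 v
    rw [hcard, Finset.sum_add_distrib, hG1, ← Finset.card_filter] at h4
    omega
  · intro v hv
    exact (mem_filter.1 hv).2
  · intro v hv
    rw [mem_filter, not_and] at hv
    have := hv (mem_univ _)
    have := h1 v
    have := h2 v
    omega

end Pool.Agent.ConnAug
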