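import Pool.Agent.ConnAug.Basic

/-! # Module WD: weak duality for simple `b`-matchings (helper17) -/

set_option autoImplicit false

namespace Pool.Agent.ConnAug

open Finset

theorem wd_proof : Stmt_WeakDual := by
  classical
  intro V _ _ H F b S T CC hFH hdeg hB
  set R : Finset V := (S ∪ T)ᶜ with hR
  set U : Finset V := CC.biUnion id with hU
  have hUR : U ⊆ R := by
    intro v hv
    obtain ⟨C, hC, hvC⟩ := Finset.mem_biUnion.1 hv
    rw [hR, Finset.mem_compl]
    exact Finset.disjoint_left.1 (hB.sub C hC) hvC
  have hsum : ∀ A : Finset V, eb F A univ ≤ b * A.card := by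
    intro A
    rw [eb_univ_right]
    calc ∑ v ∈ A, dg F v ≤ ∑ _v ∈ A, b := Finset.sum_le_sum fun v _ => hdeg v
      _ = b * A.card := by simp [mul_comm]
  -- splitting univ
  have hST : Disjoint S T := hB.disj
  have hSTR : Disjoint (S ∪ T) R := disjoint_compl_right
  have hun : (univ : Finset V) = (S ∪ T) ∪ R := by rw [hR, Finset.union_compl]
  have split : ∀ A : Finset V, eb F A univ = eb F A S + eb F A T + eb F A R := by
    intro A
    rw [hun, eb_union_right F A hSTR, eb_union_right F A hST]
  have split' : eb F univ univ = eb F S univ + eb F T univ + eb F R univ := by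
    conv_lhs => rw [hun]
    rw [eb_union_left F hSTR, eb_union_left F hST, ← hun]
  -- S part
  have hS1 : eb F S univ ≤ b * S.card := hsum S
  have hS2 : eb F T S + eb F R S ≤ b * S.card := by
    have h1 := split S
    have h2 := eb_comm F T S
    have h3 := eb_comm F R S
    omega
  have hTT : eb F T T ≤ eb H T T := eb_mono hFH T T
  -- R part
  have hCC : ∀ C ∈ CC, eb F C R + 2 * eb F C T + 1 ≤ b * C.card + eb H C T := by
    intro C hC
    have hCR : C ⊆ R := fun v hv => hUR (Finset.mem_biUnion.2 ⟨C, hC, hv⟩)
    have e1 : eb F C R = eb F C C := by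
      rw [eb_inter_sdiff_right F C R C, Finset.inter_eq_right.2 hCR]
      have : eb F C (R \ C) = 0 := by
        rw [eb_eq_zero_iff]
        intro u hu v hv hadj
        rw [Finset.mem_sdiff] at hv
        have := hB.closed C hC u hu v hv.2 (hFH hadj)
        have h2 := hv.1
        rw [hR, Finset.mem_compl] at h2
        exact h2 this
      rw [this, add_zero]
    have e2 := hsum C
    have e3 := split C
    have e4 : eb F C T ≤ eb H C T := eb_mono hFH C T
    have e5 := eb_self_even F C
    have e6 := hB.odd C hC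
    obtain ⟨x, hx⟩ := e5
    obtain ⟨y, hy⟩ := e6
    rw [e1]
    omega
  have hR' : eb F (R \ U) R + 2 * eb F (R \ U) T ≤ b * (R \ U).card + eb H (R \ U) T := by
    have e2 := hsum (R \ U)
    have e3 := split (R \ U)
    have e4 : eb F (R \ U) T ≤ eb H (R \ U) T := eb_mono hFH _ T
    omega
  have hpw : ∀ i ∈ CC, ∀ j ∈ CC, i ≠ j → Disjoint (id i : Finset V) (id j) := by
    intro i hi j hj hij
    exact hB.pw i hi j hj hij
  have s1 : ∀ (G : SimpleGraph V) (B : Finset V), eb G R B = ∑ C ∈ CC, eb G C B + eb G (R \ U) B := by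
    intro G B
    rw [eb_inter_sdiff_left G R U B, Finset.inter_eq_right.2 hUR, hU,
      eb_biUnion_left G CC id hpw B]
    rfl
  have s2 : R.card = ∑ C ∈ CC, C.card + (R \ U).card := by
    have h1 : U.card = ∑ C ∈ CC, C.card := by
      rw [hU, Finset.card_biUnion hpw]
      rfl
    rw [← h1, add_comm, Finset.card_sdiff_add_card_eq_card hUR]
  have hRtot : eb F R R + 2 * eb F R T + CC.card ≤ b * R.card + eb H R T := by
    rw [s1 F R, s1 F T, s1 H T, s2]
    have h1 : ∑ C ∈ CC, (eb F C R + 2 * eb F C T + 1) ≤ ∑ C ∈ CC, (b * C.card + eb H C T) :=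
      Finset.sum_le_sum hCC
    rw [Finset.sum_add_distrib, Finset.sum_add_distrib, Finset.sum_add_distrib,
      ← Finset.mul_sum, ← Finset.mul_sum, Finset.sum_const, smul_eq_mul, mul_one] at h1
    rw [mul_add, mul_add]
    omega
  unfold barVal
  rw [← hR]
  have e1 := split T
  have e2 := split R
  have e3 := eb_comm F T R
  have e4 : 2 * b * S.card = b * S.card + b * S.card := by ring
  omega

end Pool.Agent.ConnAug
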