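import Pool.Agent.ConnAug.Step
import Pool.Agent.ConnAug.Arith
import Pool.Agent.ConnAug.HUB
import Pool.Agent.ConnAug.Harary
import Pool.Agent.ConnAug.K1L
import Pool.Agent.ConnAug.NearReg
import Pool.Agent.ConnAug.WD

/-!
# Final assembly
-/

set_option linter.unusedSectionVars false

namespace Pool.Agent.ConnAug

open Finset

/-! ### Arithmetic in the sparse range -/

theorem hubGain_small {N a c : ℕ} (hc : 1 ≤ c) (hN : N ≤ 2 * a) : hubGain N a c = 0 := by
  unfold hubGain
  have h1 : N / (a + 1) ^ 2 = 0 := by
    apply Nat.div_eq_of_lt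
    nlinarith
  rw [h1]
  have h2 : (N - 0 - 1) / (a + 2) ≤ 1 := by
    have : (N - 0 - 1) / (a + 2) < 2 := by
      rw [Nat.div_lt_iff_lt_mul (by omega)]
      omega
    omega
  have h3 : (N - 0 - 1) / (a + 2) - c * (0 + 1) = 0 := by omega
  rw [h3]
  simp

theorem sparse_arith {n k l : ℕ} (hk : 2 ≤ k) (hkl : k < l) (hln : l < n) (hn : 2 * k + 2 ≤ n) :
    2 * ((l * n + 1) / 2) = 2 * ((k * n + 1) / 2) + 2 * eeVal n k l := by
  have hk1 : k ≠ 1 := by omega
  unfold eeVal
  rw [if_neg hk1]
  obtain ⟨d, rfl⟩ : ∃ d, l = k + d := ⟨l - k, by omega⟩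
  have hd : k + d - k = d := by omega
  rw [hd]
  have e1 : (k + d) * n = k * n + n * d := by ring
  rw [e1]
  unfold bonus
  have hdiv : n / (n - 1 - k + 1) = 1 := by
    rw [Nat.div_eq_iff (by omega)]
    constructor <;> omega
  have hg1 : hubGain n (n - 1 - k) (n - 1 - k - (n - 1 - (k + d))) = 0 :=
    hubGain_small (by omega) (by omega)
  have hg2 : ¬ Even (n - 1 - (k + d)) → hubGain n (n - 1 - k) (n - 1 - (k + d)) = 0 := by
    intro h
    refine hubGain_small ?_ (by omega)
    rcases Nat.not_even_iff_odd.1 h with ⟨r, hr⟩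
    omega
  have hg3 : ¬ Even (n - 1 - (k + d)) →
      hubGain (n - (n - 1 - k) - 2) (n - 1 - k) (n - 1 - (k + d)) = 0 := by
    intro h
    refine hubGain_small ?_ (by omega)
    rcases Nat.not_even_iff_odd.1 h with ⟨r, hr⟩
    omega
  rw [hdiv, hg1]
  -- parities
  have pk : k * n % 2 = (k % 2) * (n % 2) % 2 := Nat.mul_mod k n 2
  have pd : n * d % 2 = (n % 2) * (d % 2) % 2 := Nat.mul_mod n d 2
  rcases Nat.even_or_odd (n - 1 - k) with ha | ha
  · rcases Nat.even_or_odd (n - 1 - (k + d)) with hb | hb
    · rw [if_pos ha, if_pos hb]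
      have ha' := Nat.even_iff.1 ha
      have hb' := Nat.even_iff.1 hb
      have hd2 : d % 2 = 0 := by omega
      rw [hd2] at pd
      omega
    · have hb2 : ¬ Even (n - 1 - (k + d)) := Nat.not_even_iff_odd.2 hb
      rw [if_pos ha, if_neg hb2]
      have ha' := Nat.even_iff.1 ha
      have hb' := Nat.odd_iff.1 hb
      have hd2 : d % 2 = 1 := by omega
      rw [hd2] at pd
      rcases Nat.mod_two_eq_zero_or_one n with hn2 | hn2
      · rw [hn2] at pd pk
        omega
      · have hk2 : k % 2 = 0 := by omega
        rw [hn2] at pd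
        rw [hk2] at pk
        omega
  · have ha2 : ¬ Even (n - 1 - k) := Nat.not_even_iff_odd.2 ha
    have ha' := Nat.odd_iff.1 ha
    rcases Nat.even_or_odd (n - 1 - (k + d)) with hb | hb
    · rw [if_neg ha2, if_pos hb]
      have hb' := Nat.even_iff.1 hb
      have hd2 : d % 2 = 1 := by omega
      rw [hd2] at pd
      rcases Nat.mod_two_eq_zero_or_one n with hn2 | hn2
      · rw [hn2] at pd pk
        omega
      · have hk2 : k % 2 = 1 := by omega
        rw [hn2] at pd
        rw [hk2, hn2] at pk
        omega
    · have hb2 : ¬ Even (n - 1 - (k + d)) := Nat.not_even_iff_odd.2 hb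
      have hb' := Nat.odd_iff.1 hb
      rw [if_neg ha2, if_neg hb2, hg2 hb2, hg3 hb2]
      have hd2 : d % 2 = 0 := by omega
      rw [hd2] at pd
      split_ifs with hne
      · omega
      · omega

/-! ### Upper bound -/

variable {V : Type} [Fintype V] [DecidableEq V]

theorem upper_dense (hBM : Stmt_BMatch) (hCNT : Stmt_Count) {k l : ℕ} (hk : 2 ≤ k) (hkl : k < l)
    (hln : l < Fintype.card V) (hn : Fintype.card V ≤ 2 * l + 1) (G : SimpleGraph V)
    (hG : EC k G) :
    ∃ G' : SimpleGraph V, G ≤ G' ∧ EC l G' ∧
      eb (G' \ G) univ univ ≤ 2 * eeVal (Fintype.card V) k l := by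
  set n := Fintype.card V with hndef
  obtain ⟨F, S, T, CC, hF, hFd, hB, hle⟩ := hBM V Gᶜ (n - 1 - l)
  have hH : ∀ v, dg Gᶜ v ≤ n - 1 - k := by
    intro v
    have h1 := dg_compl G v
    have h2 := hG.le_dg (by omega) v
    omega
  have hcnt := hCNT V Gᶜ (n - 1 - k) (n - 1 - l) S T CC (by omega) (by omega) hH hB
  have hs := eb_sdiff hF (univ : Finset V) univ
  have hsub : n - 1 - k - (n - 1 - l) = l - k := by omega
  rw [hsub, ← hndef] at hcnt
  refine ⟨Fᶜ, ?_, ?_, ?_⟩
  · intro a b hab
    rw [SimpleGraph.compl_adj]
    refine ⟨hab.ne, fun h => ?_⟩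
    have := hF h
    rw [SimpleGraph.compl_adj] at this
    exact this.2 hab
  · apply EC_of_dg _ hn
    intro v
    have h1 := dg_compl F v
    have h2 := hFd v
    omega
  · have h1 : Fᶜ \ G = Gᶜ \ F := by
      have := compl_sdiff_compl (F := F) (H := Gᶜ)
      rw [compl_compl] at this
      exact this
    rw [h1]
    unfold eeVal
    rw [if_neg (by omega)]
    obtain ⟨r, hr⟩ := eb_self_even (Gᶜ \ F) (univ : Finset V)
    omega

theorem upper_main (hBM : Stmt_BMatch) (hCNT : Stmt_Count) (hK1 : Stmt_K1Upper) {k l : ℕ}
    (hk : 1 ≤ k) (hkl : k < l)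
    (hln : l < Fintype.card V) (G : SimpleGraph V) (hG : EC k G) :
    ∃ G' : SimpleGraph V, G ≤ G' ∧ EC l G' ∧
      eb (G' \ G) univ univ ≤ 2 * eeVal (Fintype.card V) k l := by
  by_cases hk1 : k = 1
  · subst hk1
    unfold eeVal
    rw [if_pos rfl]
    exact hK1 V l hkl hln G hG
  by_cases hn : Fintype.card V ≤ 2 * l + 1
  · exact upper_dense hBM hCNT (by omega) hkl hln hn G hG
  · obtain ⟨G', h1, h2, h3⟩ := sparse_proof V k l (by omega) hkl.le (by omega) G hG
    refine ⟨G', h1, h2, ?_⟩
    have := sparse_arith (n := Fintype.card V) (by omega : 2 ≤ k) hkl hln (by omega)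
    omega

/-! ### Lower bound -/

/-- Lower bound from a graph `H` and a barrier. -/
theorem lower_of_barrier {a b : ℕ} {k l : ℕ}
    (hln : l < Fintype.card V) (hkl : k < l) (hn : Fintype.card V ≤ 2 * k + 1)
    (ha : a = Fintype.card V - 1 - k) (hb : b = Fintype.card V - 1 - l)
    (hk : 2 ≤ k) (H : SimpleGraph V) (S T : Finset V) (CC : Finset (Finset V))
    (hH : ∀ v, dg H v ≤ a) (hB : Barrier H b S T CC)
    (hval : Fintype.card V * (a - b) + bonus (Fintype.card V) a b + barVal H b S T ≤
      eb H univ univ + CC.card + 1) :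
    ∃ G : SimpleGraph V, EC k G ∧ ∀ G' : SimpleGraph V, G ≤ G' → EC l G' →
      2 * eeVal (Fintype.card V) k l ≤ eb (G' \ G) univ univ := by
  refine ⟨Hᶜ, ?_, ?_⟩
  · apply EC_of_dg _ hn
    intro v
    have h1 := dg_compl H v
    have h2 := hH v
    omega
  · intro G' hle hG'
    have hF : G'ᶜ ≤ H := by
      intro x y hxy
      rw [SimpleGraph.compl_adj] at hxy
      by_contra hc
      exact hxy.2 (hle (by rw [SimpleGraph.compl_adj]; exact ⟨hxy.1, hc⟩))
    have hFd : ∀ v, dg G'ᶜ v ≤ b := by
      intro v
      have h1 := dg_compl G' v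
      have h2 := hG'.le_dg (by omega) v
      omega
    have hwd := wd_proof V H G'ᶜ b S T CC hF hFd hB
    have hs := eb_sdiff hF (univ : Finset V) univ
    have h1 : G' \ Hᶜ = H \ G'ᶜ := by
      have := compl_sdiff_compl (F := G'ᶜ) (H := H)
      rw [compl_compl] at this
      exact this
    rw [h1]
    unfold eeVal
    rw [if_neg (by omega), ← ha, ← hb]
    have hab : a - b = l - k := by omega
    rw [hab] at hval
    obtain ⟨r, hr⟩ := eb_self_even (H \ G'ᶜ) (univ : Finset V)
    omega

theorem lower_dense {k l : ℕ} (hk : 2 ≤ k) (hkl : k < l)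
    (hln : l < Fintype.card V) (hn : Fintype.card V ≤ 2 * k + 1) :
    ∃ G : SimpleGraph V, EC k G ∧ ∀ G' : SimpleGraph V, G ≤ G' → EC l G' →
      2 * eeVal (Fintype.card V) k l ≤ eb (G' \ G) univ univ := by
  set n := Fintype.card V with hndef
  obtain ⟨a, ha⟩ : ∃ a, a = n - 1 - k := ⟨_, rfl⟩
  obtain ⟨b, hb⟩ : ∃ b, b = n - 1 - l := ⟨_, rfl⟩
  have hba : b < a := by omega
  have han : a + 3 ≤ n := by omega
  have key := @lower_of_barrier V _ _ a b k l hln hkl hn ha hb hk
  rw [← hndef] at key
  -- total counts for hub graphs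
  have tot : ∀ (H : SimpleGraph V) (S : Finset V),
      eb H univ univ = eb H S S + eb H Sᶜ S + eb H Sᶜ univ := by
    intro H S
    have h1 : eb H univ univ = eb H S univ + eb H Sᶜ univ := (eb_add_compl_left H S univ).symm
    have h2 : eb H S univ = eb H S S + eb H S Sᶜ := (eb_add_compl H S S).symm
    have h3 : eb H S Sᶜ = eb H Sᶜ S := eb_comm H _ _
    omega
  have hcompl : ∀ S : Finset V, S.card + (Sᶜ).card = n := fun S => Finset.card_add_card_compl S
  rcases Nat.even_or_odd a with hae | hao
  · -- a even
    obtain ⟨q, hq⟩ : ∃ q, q = n / (a + 1) := ⟨_, rfl⟩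
    have hq1 : 1 ≤ q := by
      rw [hq, Nat.le_div_iff_mul_le (by omega)]; omega
    have hqn : q * (a + 1) ≤ n := by rw [hq]; exact Nat.div_mul_le_self n (a + 1)
    obtain ⟨m, hm⟩ : ∃ m, q = m + 1 := ⟨q - 1, by omega⟩
    have hmn : m * (a + 1) + (a + 1) ≤ n := by
      have : q * (a + 1) = m * (a + 1) + (a + 1) := by rw [hm]; ring
      omega
    obtain ⟨H, S, CC, hS, hCC, hd, hSS, hSc, hSu, hC, hCp, hCl⟩ :=
      hub_proof nearRegular V a 0 m (a + 1) 0 (n - m * (a + 1)) 0 0 (le_refl _) (Nat.zero_le _)
        (by rw [add_zero]; exact hae.mul_left _) (by omega) (Nat.zero_le _)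
        (by rw [add_zero]; exact hae.mul_left _) (le_refl _) (by omega) (by omega)
        (by rw [← hndef]; omega)
    rw [Finset.card_eq_zero] at hS
    subst hS
    have htot := tot H ∅
    have hmul : a * (m * (a + 1) + (n - m * (a + 1))) = a * n := by
      congr 1; omega
    have hnb : n * (a - b) + b * n = a * n := by
      obtain ⟨c, hc⟩ : ∃ c, a = b + c := ⟨a - b, by omega⟩
      rw [hc, Nat.add_sub_cancel_left]; ring
    rcases Nat.even_or_odd b with hbe | hbo
    · -- b even: no barrier needed
      refine key H ∅ ∅ ∅ hd ⟨by simp, by simp, by simp, by simp, by simp⟩ ?_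
      have hbon : bonus n a b = 0 := by unfold bonus; rw [if_pos hae, if_pos hbe]
      rw [hbon]
      have hbv : barVal H b ∅ ∅ = b * n := by
        unfold barVal
        simp [hndef]
      rw [hbv, htot]
      simp only [eb_empty_left, eb_empty_right]
      rw [Nat.sub_zero, add_zero, hmul] at hSu
      rw [hSu]
      simp only [Finset.card_empty]
      omega
    · refine key H ∅ ∅ CC hd ⟨by simp, ?_, hCp, ?_, ?_⟩ ?_
      · intro C hCm; simp
      · intro C hCm u hu v hv hadj
        have := hCl C hCm u hu v hv hadj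
        simp at this
      · intro C hCm
        rw [(hC C hCm).1, eb_empty_right, add_zero]
        exact hbo.mul (hae.add_one)
      · have hbon : bonus n a b = q := by
          unfold bonus
          rw [if_pos hae, if_neg (Nat.not_even_iff_odd.2 hbo), hq]
        have hbv : barVal H b ∅ ∅ = b * n := by
          unfold barVal
          simp [hndef]
        rw [hbon, hbv, htot]
        simp only [eb_empty_left, eb_empty_right]
        rw [Nat.sub_zero, add_zero, hmul] at hSu
        rw [hSu, hCC]
        omega
  · -- a odd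
    have ha1 : 1 ≤ a := hao.pos
    have hnb : n * (a - b) + b * n = a * n := by
      obtain ⟨c, hc⟩ : ∃ c, a = b + c := ⟨a - b, by omega⟩
      rw [hc, Nat.add_sub_cancel_left]; ring
    have hpa : Even ((a + 2) * a + 1) := by
      have : Odd (a + 2) := by
        rcases hao with ⟨r, hr⟩; exact ⟨r + 1, by omega⟩
      exact (this.mul hao).add_one
    have ha2 := Nat.odd_iff.1 hao
    rcases Nat.even_or_odd b with hbe | hbo
    · -- b even: T-hubs
      obtain ⟨q, s, h1, h2, h3, h4, h5⟩ := hubEq n a (a - b) (by omega) (by omega)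
      have hbon : bonus n a b = hubGain n a (a - b) := by
        unfold bonus
        rw [if_neg (Nat.not_even_iff_odd.2 hao), if_pos hbe]
      rcases Nat.eq_zero_or_pos q with hq0 | hqpos
      · -- near-regular graph
        have hs0 := h3 hq0
        subst hq0; subst hs0
        have hpar : Even (n * a + n % 2) := by
          rw [Nat.even_add, Nat.even_iff, Nat.even_iff, Nat.mul_mod, ha2]
          omega
        obtain ⟨H, S, CC, hS, hCC, hd, hSS, hSc, hSu, hC, hCp, hCl⟩ :=
          hub_proof nearRegular V a 0 0 (a + 2) 1 n (n % 2) 0 (by omega) (by omega) hpa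
            (by omega) (by omega) hpar (Nat.zero_le _) (by omega) (by omega)
            (by rw [← hndef]; omega)
        rw [Finset.card_eq_zero] at hS
        subst hS
        have htot := tot H ∅
        refine key H ∅ ∅ ∅ hd ⟨by simp, by simp, by simp, by simp, by simp⟩ ?_
        have hbv : barVal H b ∅ ∅ = b * n := by
          unfold barVal
          simp [hndef]
        rw [hbon, hbv, htot]
        simp only [eb_empty_left, eb_empty_right, Finset.card_empty]
        have hz : a * (0 * (a + 2) + n) = a * n := by ring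
        rw [hz] at hSu
        omega
      · obtain ⟨m, hm⟩ : ∃ m, q = m + 1 := ⟨q - 1, by omega⟩
        have hmn : m * (a + 2) + (a + 2) + s ≤ n := by
          have : q * (a + 2) = m * (a + 2) + (a + 2) := by rw [hm]; ring
          omega
        obtain ⟨c, hc⟩ : ∃ c, n = s + m * (a + 2) + c := ⟨n - (s + m * (a + 2)), by omega⟩
        have hpar : Even (c * a + c % 2) := by
          rw [Nat.even_add, Nat.even_iff, Nat.even_iff, Nat.mul_mod, ha2]
          omega
        obtain ⟨H, S, CC, hS, hCC, hd, hSS, hSc, hSu, hC, hCp, hCl⟩ :=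
          hub_proof nearRegular V a s m (a + 2) 1 c (c % 2) (c % 2) (by omega) (by omega) hpa
            (by omega) (by omega) hpar (le_refl _) (by omega) (by omega)
            (by rw [← hndef]; exact hc)
        have htot := tot H S
        refine key H ∅ S CC hd ⟨by simp, ?_, hCp, ?_, ?_⟩ ?_
        · intro C hCm
          rw [Finset.empty_union]
          exact (hC C hCm).2.1
        · intro C hCm u hu v hv hadj
          rw [Finset.empty_union]
          exact hCl C hCm u hu v hv hadj
        · intro C hCm
          rw [(hC C hCm).1, (hC C hCm).2.2]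
          exact (hbe.mul_right _).add_one
        · have hbv : barVal H b ∅ S = b * (Sᶜ).card + eb H Sᶜ S := by
            unfold barVal
            simp [hSS]
          rw [hbon, hbv, htot, hSS]
          have hcS := hcompl S
          rw [hS] at hcS
          obtain ⟨g, hg⟩ : ∃ g, g = (Sᶜ).card := ⟨_, rfl⟩
          rw [← hg] at hcS ⊢
          have hgc : m * (a + 2) + c = g := by omega
          rw [hgc, Nat.sub_self, add_zero] at hSu
          rw [hSu, hCC]
          obtain ⟨d, hd'⟩ : ∃ d, a = b + d := ⟨a - b, by omega⟩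
          have hab : a - b = d := by omega
          rw [hab] at h5 ⊢
          have e1 : n * d = s * d + g * d := by rw [← hcS]; ring
          have e2 : a * g = b * g + g * d := by rw [hd']; ring
          have e3 : s * d = d * s := mul_comm _ _
          rw [e1, e2, e3]
          omega
    · -- b odd: S-hubs
      have hb1 : 1 ≤ b := hbo.pos
      have hbodd : Odd (b * (a + 2)) := by
        have : Odd (a + 2) := by
          rcases hao with ⟨r, hr⟩; exact ⟨r + 1, by omega⟩
        exact hbo.mul this
      rcases Nat.even_or_odd n with hne | hno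
      · obtain ⟨q, s, h1, h2, h3, h4, h5⟩ := hubEq n a b hb1 hba.le
        have hbon : bonus n a b = hubGain n a b := by
          unfold bonus
          rw [if_neg (Nat.not_even_iff_odd.2 hao), if_neg (Nat.not_even_iff_odd.2 hbo), if_pos hne]
        have hn2 := Nat.even_iff.1 hne
        rcases Nat.eq_zero_or_pos q with hq0 | hqpos
        · have hs0 := h3 hq0
          subst hq0; subst hs0
          obtain ⟨H, S, CC, hS, hCC, hd, hSS, hSc, hSu, hC, hCp, hCl⟩ :=
            hub_proof nearRegular V a 0 0 (a + 2) 1 n 0 0 (by omega) (by omega) hpa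
              (by omega) (by omega) (by rw [add_zero]; exact hne.mul_right _) (Nat.zero_le _)
              (by omega) (by omega) (by rw [← hndef]; omega)
          rw [Finset.card_eq_zero] at hS
          subst hS
          have htot := tot H ∅
          refine key H ∅ ∅ ∅ hd ⟨by simp, by simp, by simp, by simp, by simp⟩ ?_
          have hbv : barVal H b ∅ ∅ = b * n := by
            unfold barVal
            simp [hndef]
          rw [hbon, hbv, htot]
          simp only [eb_empty_left, eb_empty_right, Finset.card_empty]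
          have hz : a * (0 * (a + 2) + n) = a * n := by ring
          rw [hz] at hSu
          omega
        · obtain ⟨m, hm⟩ : ∃ m, q = m + 1 := ⟨q - 1, by omega⟩
          have hmn : m * (a + 2) + (a + 2) + s ≤ n := by
            have : q * (a + 2) = m * (a + 2) + (a + 2) := by rw [hm]; ring
            omega
          obtain ⟨c, hc⟩ : ∃ c, n = s + m * (a + 2) + c := ⟨n - (s + m * (a + 2)), by omega⟩
          obtain ⟨r, hr⟩ : ∃ r, r = a * s - m := ⟨_, rfl⟩
          have hra : r ≤ a := by omega
          have hpar : Even (c * a + r) := by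
            have p1 : c * a % 2 = c % 2 := by
              rw [Nat.mul_mod, ha2, mul_one, Nat.mod_mod]
            have p2 : a * s % 2 = s % 2 := by
              rw [Nat.mul_mod, ha2, one_mul, Nat.mod_mod]
            have p3 : m * (a + 2) % 2 = m % 2 := by
              rw [Nat.mul_mod, Nat.add_mod, ha2]; simp
            rw [Nat.even_iff]
            omega
          obtain ⟨H, S, CC, hS, hCC, hd, hSS, hSc, hSu, hC, hCp, hCl⟩ :=
            hub_proof nearRegular V a s m (a + 2) 1 c r r (by omega) (by omega) hpa
              (by omega) (by omega) hpar (le_refl _) (by omega) (by omega)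
              (by rw [← hndef]; exact hc)
          have htot := tot H S
          refine key H S ∅ CC hd ⟨by simp, ?_, hCp, ?_, ?_⟩ ?_
          · intro C hCm
            rw [Finset.union_empty]
            exact (hC C hCm).2.1
          · intro C hCm u hu v hv hadj
            rw [Finset.union_empty]
            exact hCl C hCm u hu v hv hadj
          · intro C hCm
            rw [(hC C hCm).1, eb_empty_right, add_zero]
            exact hbodd
          · have hbv : barVal H b S ∅ = 2 * b * S.card + b * (Sᶜ).card := by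
              unfold barVal
              simp
            rw [hbon, hbv, htot, hSS]
            have hcS := hcompl S
            rw [hS] at hcS ⊢
            obtain ⟨g, hg⟩ : ∃ g, g = (Sᶜ).card := ⟨_, rfl⟩
            rw [← hg] at hcS ⊢
            have hgc : m * (a + 2) + c = g := by omega
            rw [hgc, Nat.sub_self, add_zero] at hSu
            rw [hSu, hCC]
            have e1 : a * n = a * s + a * g := by rw [← hcS]; ring
            have e2 : b * n = b * s + b * g := by rw [← hcS]; ring
            have e3 : 2 * b * s = 2 * (b * s) := by ring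
            rw [e3]
            omega
      · obtain ⟨q, s, h1, h2, h3, h4, h5⟩ := hubEq (n - a - 2) a b hb1 hba.le
        have hbon : bonus n a b = hubGain (n - a - 2) a b := by
          unfold bonus
          rw [if_neg (Nat.not_even_iff_odd.2 hao), if_neg (Nat.not_even_iff_odd.2 hbo),
            if_neg (Nat.not_even_iff_odd.2 hno)]
        have hn2 := Nat.odd_iff.1 hno
        obtain ⟨c, hc⟩ : ∃ c, n = s + q * (a + 2) + c := ⟨n - (s + q * (a + 2)), by omega⟩
        obtain ⟨r, hr⟩ : ∃ r, r = a * s - q := ⟨_, rfl⟩
        have hra : r < a := by omega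
        have hpar : Even (c * a + (r + 1)) := by
          have p1 : c * a % 2 = c % 2 := by
            rw [Nat.mul_mod, ha2, mul_one, Nat.mod_mod]
          have p2 : a * s % 2 = s % 2 := by
            rw [Nat.mul_mod, ha2, one_mul, Nat.mod_mod]
          have p3 : q * (a + 2) % 2 = q % 2 := by
            rw [Nat.mul_mod, Nat.add_mod, ha2]; simp
          rw [Nat.even_iff]
          omega
        obtain ⟨H, S, CC, hS, hCC, hd, hSS, hSc, hSu, hC, hCp, hCl⟩ :=
          hub_proof nearRegular V a s q (a + 2) 1 c (r + 1) r (by omega) (by omega) hpa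
            (by omega) (by omega) hpar (by omega) (by omega) (by omega)
            (by rw [← hndef]; exact hc)
        have htot := tot H S
        refine key H S ∅ CC hd ⟨by simp, ?_, hCp, ?_, ?_⟩ ?_
        · intro C hCm
          rw [Finset.union_empty]
          exact (hC C hCm).2.1
        · intro C hCm u hu v hv hadj
          rw [Finset.union_empty]
          exact hCl C hCm u hu v hv hadj
        · intro C hCm
          rw [(hC C hCm).1, eb_empty_right, add_zero]
          exact hbodd
        · have hbv : barVal H b S ∅ = 2 * b * S.card + b * (Sᶜ).card := by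
            unfold barVal
            simp
          rw [hbon, hbv, htot, hSS]
          have hcS := hcompl S
          rw [hS] at hcS ⊢
          obtain ⟨g, hg⟩ : ∃ g, g = (Sᶜ).card := ⟨_, rfl⟩
          rw [← hg] at hcS ⊢
          have hgc : q * (a + 2) + c = g := by omega
          have hr1 : r + 1 - r = 1 := by omega
          rw [hgc, hr1] at hSu
          rw [hCC]
          have e1 : a * n = a * s + a * g := by rw [← hcS]; ring
          have e2 : b * n = b * s + b * g := by rw [← hcS]; ring
          have e3 : 2 * b * s = 2 * (b * s) := by ring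
          rw [e3]
          omega

theorem lower_main {k l : ℕ} (hk : 1 ≤ k) (hkl : k < l) (hln : l < Fintype.card V) :
    ∃ G : SimpleGraph V, EC k G ∧ ∀ G' : SimpleGraph V, G ≤ G' → EC l G' →
      2 * eeVal (Fintype.card V) k l ≤ eb (G' \ G) univ univ := by
  by_cases hk1 : k = 1
  · subst hk1
    obtain ⟨G, h1, h2⟩ := k1l_proof V l hkl hln
    refine ⟨G, h1, fun G' hle hG' => ?_⟩
    have h3 := h2 G' hle hG'
    unfold eeVal
    rw [if_pos rfl]
    obtain ⟨r, hr⟩ := eb_self_even (G' \ G) (univ : Finset V)
    omega
  by_cases hn : Fintype.card V ≤ 2 * k + 1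
  · exact lower_dense (by omega) hkl hln hn
  · obtain ⟨G, h1, h2⟩ := harary_proof nearRegular sparse_proof V k (by omega) (by omega)
    refine ⟨G, h1, fun G' hle hG' => ?_⟩
    have h3 := hG'.total' (by omega)
    have h4 := eb_sdiff hle (univ : Finset V) univ
    have := sparse_arith (n := Fintype.card V) (by omega : 2 ≤ k) hkl hln (by omega)
    omega

/-- Final theorem, conditional on the three remaining modules. -/
theorem final_of (hBM : Stmt_BMatch) (hCNT : Stmt_Count) (hK1 : Stmt_K1Upper) (n k l : ℕ)
    (hk : 1 ≤ k) (hkl : k < l) (hln : l < n) :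
    IsLeast {e : ℕ | ∀ G : SimpleGraph (Fin n), G.IsEdgeConnected k →
      ∃ G' : SimpleGraph (Fin n), G ≤ G' ∧ G'.IsEdgeConnected l ∧
        (G'.edgeSet \ G.edgeSet).ncard ≤ e} (eeVal n k l) := by
  have hcard : Fintype.card (Fin n) = n := Fintype.card_fin n
  constructor
  · intro G hG
    rw [isEdgeConnected_iff] at hG
    obtain ⟨G', h1, h2, h3⟩ := upper_main hBM hCNT hK1 hk hkl (by rw [hcard]; exact hln) G hG
    refine ⟨G', h1, (isEdgeConnected_iff l G').2 h2, ?_⟩
    rw [hcard, ← two_mul_ncard, SimpleGraph.edgeSet_sdiff] at h3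
    omega
  · intro e he
    obtain ⟨G, h1, h2⟩ := @lower_main (Fin n) _ _ k l hk hkl (by rw [hcard]; exact hln)
    obtain ⟨G', h3, h4, h5⟩ := he G ((isEdgeConnected_iff k G).2 h1)
    have h6 := h2 G' h3 ((isEdgeConnected_iff l G').1 h4)
    rw [hcard, ← two_mul_ncard, SimpleGraph.edgeSet_sdiff] at h6
    omega

end Pool.Agent.ConnAug
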