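import Pool.Agent.ConnAug.Defs

/-!
# Module K1U: the upper bound for `k = 1` (pinching induction on trees)
-/

set_option linter.unusedSectionVars false
set_option linter.deprecated false

namespace Pool.Agent.ConnAug.K1U

open Finset
open scoped Classical

variable {V : Type} [Fintype V] [DecidableEq V]

lemma eb_union_left (G : SimpleGraph V) {A B : Finset V} (C : Finset V) (h : Disjoint A B) :
    eb G (A ∪ B) C = eb G A C + eb G B C := by
  unfold eb
  exact Finset.sum_union h

lemma eb_union_right (G : SimpleGraph V) (A : Finset V) {B C : Finset V} (h : Disjoint B C) :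
    eb G A (B ∪ C) = eb G A B + eb G A C := by
  unfold eb
  rw [← Finset.sum_add_distrib]
  exact Finset.sum_congr rfl fun u _ => Finset.sum_union h

lemma eb_comm (G : SimpleGraph V) (A B : Finset V) : eb G A B = eb G B A := by
  unfold eb
  rw [Finset.sum_comm]
  refine Finset.sum_congr rfl fun u _ => Finset.sum_congr rfl fun v _ => ?_
  simp only [G.adj_comm]

lemma eb_empty_left (G : SimpleGraph V) (B : Finset V) : eb G ∅ B = 0 := by
  simp [eb]

lemma eb_single_left (G : SimpleGraph V) (v : V) (B : Finset V) :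
    eb G {v} B = ∑ w ∈ B, if G.Adj v w then 1 else 0 := by
  simp [eb]

lemma eb_single_card (G : SimpleGraph V) (v : V) (B : Finset V) :
    eb G {v} B = (B.filter fun w => G.Adj v w).card := by
  rw [eb_single_left, Finset.card_filter]

lemma eb_eq_sum (G : SimpleGraph V) (A B : Finset V) :
    eb G A B = ∑ u ∈ A, eb G {u} B := by
  unfold eb
  refine Finset.sum_congr rfl fun u _ => ?_
  simp

lemma eb_single_single (G : SimpleGraph V) (u v : V) :
    eb G {u} {v} = if G.Adj u v then 1 else 0 := by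
  unfold eb
  rw [Finset.sum_singleton, Finset.sum_singleton]

lemma eb_self_single (G : SimpleGraph V) (v : V) : eb G {v} {v} = 0 := by
  simp [eb]

lemma eb_mono_right (G : SimpleGraph V) (A : Finset V) {B C : Finset V} (h : B ⊆ C) :
    eb G A B ≤ eb G A C := by
  unfold eb
  exact Finset.sum_le_sum fun u _ => Finset.sum_le_sum_of_subset h

lemma eb_mono_left (G : SimpleGraph V) (C : Finset V) {A B : Finset V} (h : A ⊆ B) :
    eb G A C ≤ eb G B C := by
  unfold eb
  exact Finset.sum_le_sum_of_subset h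

lemma eb_pos {G : SimpleGraph V} {A B : Finset V} (h : 1 ≤ eb G A B) :
    ∃ u ∈ A, ∃ v ∈ B, G.Adj u v := by
  by_contra hc
  push Not at hc
  have : eb G A B = 0 := by
    unfold eb
    refine Finset.sum_eq_zero fun u hu => Finset.sum_eq_zero fun v hv => ?_
    rw [if_neg (hc u hu v hv)]
  omega

lemma eb_zero {G : SimpleGraph V} {A B : Finset V} (h : ∀ u ∈ A, ∀ v ∈ B, ¬ G.Adj u v) :
    eb G A B = 0 := by
  unfold eb
  refine Finset.sum_eq_zero fun u hu => Finset.sum_eq_zero fun v hv => ?_
  rw [if_neg (h u hu v hv)]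

/-- indicator of a proposition -/
noncomputable def nn (p : Prop) : ℕ := if p then 1 else 0

lemma nn_true {p : Prop} (h : p) : nn p = 1 := if_pos h
lemma nn_false {p : Prop} (h : ¬ p) : nn p = 0 := if_neg h

lemma eb_nn (G : SimpleGraph V) (A B : Finset V) :
    eb G A B = ∑ u ∈ A, ∑ v ∈ B, nn (G.Adj u v) := rfl

/-- indicator of the (unordered) pair -/
noncomputable def ii (a b : V) (X Y : Finset V) : ℕ :=
  nn (a ∈ X ∧ b ∈ Y) + nn (b ∈ X ∧ a ∈ Y)

lemma sum_pair_nn (a b : V) (X Y : Finset V) :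
    ∑ u ∈ X, ∑ v ∈ Y, nn (u = a ∧ v = b) = nn (a ∈ X ∧ b ∈ Y) := by
  by_cases hX : a ∈ X
  · rw [Finset.sum_eq_single a]
    · by_cases hY : b ∈ Y
      · rw [Finset.sum_eq_single b, nn_true ⟨rfl, rfl⟩, nn_true ⟨hX, hY⟩]
        · intro v _ hv
          exact nn_false fun h => hv h.2
        · intro h; exact absurd hY h
      · rw [nn_false fun h => hY h.2]
        refine Finset.sum_eq_zero fun v hv => nn_false ?_
        rintro ⟨-, rfl⟩
        exact hY hv
    · intro u _ hu
      exact Finset.sum_eq_zero fun v _ => nn_false fun h => hu h.1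
    · intro h; exact absurd hX h
  · rw [nn_false fun h => hX h.1]
    refine Finset.sum_eq_zero fun u hu => Finset.sum_eq_zero fun v _ => nn_false ?_
    rintro ⟨rfl, -⟩
    exact hX hu

lemma eb_add_edge (G : SimpleGraph V) {a b : V} (hab : a ≠ b) (h : ¬ G.Adj a b)
    (X Y : Finset V) :
    eb (G ⊔ SimpleGraph.edge a b) X Y = eb G X Y + ii a b X Y := by
  have key : ∀ u v : V, nn ((G ⊔ SimpleGraph.edge a b).Adj u v) =
      nn (G.Adj u v) + (nn (u = a ∧ v = b) + nn (u = b ∧ v = a)) := by
    intro u v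
    have h' : ¬ G.Adj b a := fun h2 => h h2.symm
    by_cases h1 : u = a ∧ v = b
    · obtain ⟨rfl, rfl⟩ := h1
      rw [nn_true, nn_false h, nn_true ⟨rfl, rfl⟩, nn_false fun h => hab h.1]
      rw [SimpleGraph.sup_adj, SimpleGraph.edge_adj]
      exact Or.inr ⟨Or.inl ⟨rfl, rfl⟩, hab⟩
    · by_cases h2 : u = b ∧ v = a
      · obtain ⟨rfl, rfl⟩ := h2
        have e1 : (G ⊔ SimpleGraph.edge v u).Adj u v := by
          rw [SimpleGraph.sup_adj, SimpleGraph.edge_adj]
          exact Or.inr ⟨Or.inr ⟨rfl, rfl⟩, hab.symm⟩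
        rw [nn_true e1, nn_false h', nn_false h1, nn_true ⟨rfl, rfl⟩]
      · rw [nn_false h1, nn_false h2]
        by_cases hG : G.Adj u v
        · rw [nn_true hG, nn_true]
          rw [SimpleGraph.sup_adj]; exact Or.inl hG
        · rw [nn_false hG, nn_false]
          rw [SimpleGraph.sup_adj, SimpleGraph.edge_adj]
          rintro (h5 | ⟨h5 | h5, -⟩)
          · exact hG h5
          · exact h1 (by tauto)
          · exact h2 (by tauto)
  rw [eb_nn, eb_nn]
  simp only [key, Finset.sum_add_distrib]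
  rw [sum_pair_nn, sum_pair_nn]
  rfl

/-- Pinching the edge `xy` at `r`. -/
def pinch (J : SimpleGraph V) (r x y : V) : SimpleGraph V :=
  ((J \ SimpleGraph.edge x y) ⊔ SimpleGraph.edge r x) ⊔ SimpleGraph.edge r y

lemma pinch_eb (J : SimpleGraph V) {r x y : V} (hxy : J.Adj x y) (hrx : r ≠ x) (hry : r ≠ y)
    (hx : ¬ J.Adj r x) (hy : ¬ J.Adj r y) (X Y : Finset V) :
    eb (pinch J r x y) X Y + ii x y X Y = eb J X Y + ii r x X Y + ii r y X Y := by
  have hne : x ≠ y := hxy.ne
  have h0 : J = (J \ SimpleGraph.edge x y) ⊔ SimpleGraph.edge x y := by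
    ext u v
    simp only [SimpleGraph.sup_adj, SimpleGraph.sdiff_adj, SimpleGraph.edge_adj]
    constructor
    · intro h
      by_cases h2 : (x = u ∧ y = v ∨ x = v ∧ y = u) ∧ u ≠ v
      · right; tauto
      · left; tauto
    · rintro (h | ⟨h | h, -⟩)
      · exact h.1
      · obtain ⟨rfl, rfl⟩ := h
        exact hxy
      · obtain ⟨rfl, rfl⟩ := h
        exact hxy.symm
  have h1 : ¬ (J \ SimpleGraph.edge x y).Adj x y := by
    simp [SimpleGraph.sdiff_adj, SimpleGraph.edge_adj, hne]
  have h2 : ¬ (J \ SimpleGraph.edge x y).Adj r x := by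
    rw [SimpleGraph.sdiff_adj]; exact fun h => hx h.1
  have h3 : ¬ ((J \ SimpleGraph.edge x y) ⊔ SimpleGraph.edge r x).Adj r y := by
    rw [SimpleGraph.sup_adj, SimpleGraph.sdiff_adj]
    rintro (h | h)
    · exact hy h.1
    rw [SimpleGraph.edge_adj] at h
    obtain ⟨h, -⟩ := h
    have h1' := hne.symm
    have h2' := hry.symm
    have h3' := hrx.symm
    tauto
  have e1 := eb_add_edge _ hne h1 X Y
  rw [← h0] at e1
  have e2 := eb_add_edge _ hrx h2 X Y
  have e3 := eb_add_edge _ hry h3 X Y
  unfold pinch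
  omega


lemma eb_insert (G : SimpleGraph V) {y : V} {R : Finset V} (hy : y ∉ R) :
    eb G (insert y R) (insert y R) = eb G R R + 2 * eb G {y} R := by
  have hd : Disjoint {y} R := Finset.disjoint_singleton_left.mpr hy
  rw [Finset.insert_eq, eb_union_left _ _ hd, eb_union_right _ _ hd, eb_union_right _ _ hd,
    eb_self_single, eb_comm G R {y}]
  omega

structure IsTr (T : SimpleGraph V) (A : Finset V) : Prop where
  ne : A.Nonempty
  conn : ∀ X ⊆ A, X.Nonempty → (A \ X).Nonempty → 1 ≤ eb T X (A \ X)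
  card : eb T A A + 2 = 2 * A.card

lemma grow {T : SimpleGraph V} {A : Finset V} (h : IsTr T A) :
    ∀ d : ℕ, ∀ R ⊆ A, R.Nonempty → R.card + d = A.card → eb T R R + 2 * d ≤ eb T A A := by
  intro d
  induction d with
  | zero =>
    intro R hR _ hc
    have : R = A := Finset.eq_of_subset_of_card_le hR (by omega)
    rw [this]; omega
  | succ d ih =>
    intro R hR hne hc
    have h1 : (A \ R).Nonempty := by
      rw [← Finset.card_pos, Finset.card_sdiff_of_subset hR]
      omega
    obtain ⟨x, hx, y, hy, hxy⟩ := eb_pos (h.conn R hR hne h1)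
    rw [Finset.mem_sdiff] at hy
    have h2 := ih (insert y R) (Finset.insert_subset hy.1 hR) (Finset.insert_nonempty _ _)
      (by rw [Finset.card_insert_of_notMem hy.2]; omega)
    rw [eb_insert T hy.2] at h2
    have h3 : 1 ≤ eb T {y} R := by
      have := eb_mono_right T {y} (B := {x}) (C := R) (Finset.singleton_subset_iff.mpr hx)
      rw [eb_single_single, if_pos hxy.symm] at this
      exact this
    omega

lemma acyc {T : SimpleGraph V} {A : Finset V} (h : IsTr T A) {R : Finset V} (hR : R ⊆ A)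
    (hne : R.Nonempty) : eb T R R + 2 ≤ 2 * R.card := by
  have hc := Finset.card_le_card hR
  have := grow h (A.card - R.card) R hR hne (by omega)
  have := h.card
  omega

lemma exists_tree_aux (G : SimpleGraph V) (hG : EC 1 G) [Nonempty V] :
    ∀ n : ℕ, 1 ≤ n → n ≤ Fintype.card V → ∃ (R : Finset V) (T : SimpleGraph V),
      R.card = n ∧ T ≤ G ∧ IsTr T R ∧ ∀ u v, T.Adj u v → u ∈ R ∧ v ∈ R := by
  intro n hn
  induction n, hn using Nat.le_induction with
  | base =>
    intro _
    obtain ⟨v⟩ := (inferInstance : Nonempty V)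
    refine ⟨{v}, ⊥, by simp, bot_le, ⟨by simp, ?_, ?_⟩, by simp⟩
    · intro X hX hne hne2
      exfalso
      obtain ⟨x, hx⟩ := hne
      obtain ⟨y, hy⟩ := hne2
      rw [Finset.mem_sdiff, Finset.mem_singleton] at hy
      have := hX hx
      rw [Finset.mem_singleton] at this
      exact hy.2 (by rw [hy.1, ← this]; exact hx)
    · rw [eb_zero]
      · simp
      · intro u _ v _; simp
  | succ n hn ih =>
    intro hc
    obtain ⟨R, T, hR, hT, htr, hsup⟩ := ih (by omega)
    have h1 : Rᶜ.Nonempty := by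
      rw [← Finset.card_pos, Finset.card_compl]; omega
    obtain ⟨x, hx, y, hy, hxy⟩ := eb_pos (hG R htr.ne h1)
    rw [Finset.mem_compl] at hy
    have hne : x ≠ y := hxy.ne
    have hna : ¬ T.Adj x y := fun h => hy (hsup _ _ h).2
    refine ⟨insert y R, T ⊔ SimpleGraph.edge x y, ?_, ?_, ⟨Finset.insert_nonempty _ _, ?_, ?_⟩, ?_⟩
    · rw [Finset.card_insert_of_notMem hy, hR]
    · refine sup_le hT ?_
      intro u v huv
      rw [SimpleGraph.edge_adj] at huv
      obtain ⟨⟨rfl, rfl⟩ | ⟨rfl, rfl⟩, -⟩ := huv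
      · exact hxy
      · exact hxy.symm
    · intro X hX hXne hXne2
      rw [eb_add_edge T hne hna]
      by_cases hxX : x ∈ X
      · by_cases hyX : y ∈ X
        · have h2 : 1 ≤ eb T (X ∩ R) (R \ (X ∩ R)) := by
            refine htr.conn _ Finset.inter_subset_right ⟨x, Finset.mem_inter.mpr ⟨hxX, hx⟩⟩ ?_
            obtain ⟨z, hz⟩ := hXne2
            rw [Finset.mem_sdiff, Finset.mem_insert] at hz
            refine ⟨z, ?_⟩
            rw [Finset.mem_sdiff, Finset.mem_inter]
            rcases hz.1 with h3 | h3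
            · exact absurd (h3 ▸ hyX) hz.2
            · exact ⟨h3, fun h4 => hz.2 h4.1⟩
          have h3 : eb T (X ∩ R) (R \ (X ∩ R)) ≤ eb T X (insert y R \ X) := by
            refine le_trans (eb_mono_left _ _ Finset.inter_subset_left) (eb_mono_right _ _ ?_)
            intro z hz
            rw [Finset.mem_sdiff, Finset.mem_inter] at hz
            rw [Finset.mem_sdiff, Finset.mem_insert]
            exact ⟨Or.inr hz.1, fun h4 => hz.2 ⟨h4, hz.1⟩⟩
          omega
        · have : ii x y X (insert y R \ X) = 1 := by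
            unfold ii
            rw [nn_true, nn_false]
            · exact fun h4 => hyX h4.1
            · exact ⟨hxX, Finset.mem_sdiff.mpr ⟨Finset.mem_insert_self _ _, hyX⟩⟩
          omega
      · by_cases hyX : y ∈ X
        · have : ii x y X (insert y R \ X) = 1 := by
            unfold ii
            rw [nn_false, nn_true]
            · exact ⟨hyX, Finset.mem_sdiff.mpr ⟨Finset.mem_insert_of_mem hx, hxX⟩⟩
            · exact fun h4 => hxX h4.1
          omega
        · have hXR : X ⊆ R := by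
            intro z hz
            rcases Finset.mem_insert.mp (hX hz) with h3 | h3
            · exact absurd (h3 ▸ hz) hyX
            · exact h3
          have h2 : 1 ≤ eb T X (R \ X) := by
            refine htr.conn _ hXR hXne ⟨x, Finset.mem_sdiff.mpr ⟨hx, hxX⟩⟩
          have h3 : eb T X (R \ X) ≤ eb T X (insert y R \ X) := by
            refine eb_mono_right _ _ ?_
            exact Finset.sdiff_subset_sdiff (Finset.subset_insert _ _) (le_refl _)
          omega
    · rw [eb_add_edge T hne hna, eb_insert T hy, Finset.card_insert_of_notMem hy]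
      have h2 : eb T {y} R = 0 := by
        refine eb_zero fun u hu v _ h => ?_
        rw [Finset.mem_singleton] at hu
        rw [hu] at h
        exact hy (hsup _ _ h).1
      have h3 : ii x y (insert y R) (insert y R) = 2 := by
        unfold ii
        rw [nn_true, nn_true]
        · exact ⟨Finset.mem_insert_self _ _, Finset.mem_insert_of_mem hx⟩
        · exact ⟨Finset.mem_insert_of_mem hx, Finset.mem_insert_self _ _⟩
      have := htr.card
      omega
    · intro u v huv
      rw [SimpleGraph.sup_adj, SimpleGraph.edge_adj] at huv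
      rcases huv with h | ⟨⟨rfl, rfl⟩ | ⟨rfl, rfl⟩, -⟩
      · exact ⟨Finset.mem_insert_of_mem (hsup _ _ h).1, Finset.mem_insert_of_mem (hsup _ _ h).2⟩
      · exact ⟨Finset.mem_insert_of_mem hx, Finset.mem_insert_self _ _⟩
      · exact ⟨Finset.mem_insert_self _ _, Finset.mem_insert_of_mem hx⟩

lemma exists_tree (G : SimpleGraph V) (hG : EC 1 G) [Nonempty V] :
    ∃ T : SimpleGraph V, T ≤ G ∧ IsTr T univ := by
  obtain ⟨R, T, hR, hT, htr, -⟩ := exists_tree_aux G hG (Fintype.card V) Fintype.card_pos le_rfl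
  have : R = univ := Finset.eq_univ_of_card _ hR
  exact ⟨T, hT, this ▸ htr⟩

lemma deg_pos {T : SimpleGraph V} {A : Finset V} (h : IsTr T A) (hA : 2 ≤ A.card) {v : V}
    (hv : v ∈ A) : 1 ≤ eb T {v} A := by
  have h1 : (A \ {v}).Nonempty := by
    rw [← Finset.card_pos, Finset.card_sdiff_of_subset (Finset.singleton_subset_iff.mpr hv)]
    simp; omega
  exact le_trans (h.conn {v} (Finset.singleton_subset_iff.mpr hv) (by simp) h1)
    (eb_mono_right _ _ Finset.sdiff_subset)

lemma two_leaves {T : SimpleGraph V} {A : Finset V} (h : IsTr T A) (hA : 2 ≤ A.card) :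
    ∃ r ∈ A, ∃ r' ∈ A, r ≠ r' ∧ eb T {r} A = 1 ∧ eb T {r'} A = 1 := by
  have h1 : 2 * A.card ≤ eb T A A + (A.filter fun v => eb T {v} A = 1).card := by
    rw [eb_eq_sum, Finset.card_filter, ← Finset.sum_add_distrib, mul_comm, ← smul_eq_mul,
      ← Finset.sum_const]
    refine Finset.sum_le_sum fun v hv => ?_
    have := deg_pos h hA hv
    split_ifs <;> omega
  have h2 : 1 < (A.filter fun v => eb T {v} A = 1).card := by
    have := h.card; omega
  rw [Finset.one_lt_card] at h2
  obtain ⟨r, hr, r', hr', hne⟩ := h2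
  rw [Finset.mem_filter] at hr hr'
  exact ⟨r, hr.1, r', hr'.1, hne, hr.2, hr'.2⟩

lemma leaf_nbr {T : SimpleGraph V} {A : Finset V} {r : V} (h : eb T {r} A = 1) :
    ∃ s ∈ A, T.Adj r s ∧ ∀ v ∈ A, T.Adj r v → v = s := by
  rw [eb_single_card, Finset.card_eq_one] at h
  obtain ⟨s, hs⟩ := h
  have h1 : s ∈ A.filter (fun w => T.Adj r w) := by rw [hs]; simp
  rw [Finset.mem_filter] at h1
  refine ⟨s, h1.1, h1.2, fun v hv hrv => ?_⟩
  have : v ∈ A.filter (fun w => T.Adj r w) := Finset.mem_filter.mpr ⟨hv, hrv⟩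
  rw [hs, Finset.mem_singleton] at this
  exact this

lemma remove_leaf {T : SimpleGraph V} {A : Finset V} (h : IsTr T A) (hA : 2 ≤ A.card) {r : V}
    (hr : r ∈ A) (hl : eb T {r} A = 1) : IsTr T (A.erase r) := by
  obtain ⟨s, hsA, hrs, huniq⟩ := leaf_nbr hl
  have hsr : s ≠ r := hrs.ne'
  have hins : insert r (A.erase r) = A := Finset.insert_erase hr
  have hdeg : eb T {r} (A.erase r) = 1 := by
    have h1 : eb T {r} A = eb T {r} {r} + eb T {r} (A.erase r) := by
      conv_lhs => rw [← hins, Finset.insert_eq]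
      exact eb_union_right _ _ (by simp)
    rw [eb_self_single] at h1
    omega
  refine ⟨?_, ?_, ?_⟩
  · rw [← Finset.card_pos, Finset.card_erase_of_mem hr]; omega
  · intro X hX hne hne2
    have hrX : r ∉ X := fun h => by simpa using hX h
    by_cases hs : s ∈ X
    · have h1 := h.conn (insert r X) (by
        intro z hz
        rcases Finset.mem_insert.mp hz with h2 | h2
        · rw [h2]; exact hr
        · exact Finset.mem_of_mem_erase (hX h2)) (Finset.insert_nonempty _ _)
      have h2 : A \ insert r X = A.erase r \ X := by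
        ext z; simp only [Finset.mem_sdiff, Finset.mem_insert, Finset.mem_erase]; tauto
      rw [h2] at h1
      have h3 := h1 hne2
      rw [Finset.insert_eq, eb_union_left _ _ (by simpa using hrX)] at h3
      have h4 : eb T {r} (A.erase r \ X) = 0 := by
        refine eb_zero fun u hu v hv huv => ?_
        rw [Finset.mem_singleton] at hu
        rw [hu] at huv
        rw [Finset.mem_sdiff] at hv
        have := huniq v (Finset.mem_of_mem_erase hv.1) huv
        exact hv.2 (this ▸ hs)
      omega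
    · have h2 : A \ X = {r} ∪ (A.erase r \ X) := by
        ext z
        simp only [Finset.mem_sdiff, Finset.mem_union, Finset.mem_singleton, Finset.mem_erase]
        constructor
        · rintro ⟨h3, h4⟩
          by_cases h5 : z = r
          · exact Or.inl h5
          · exact Or.inr ⟨⟨h5, h3⟩, h4⟩
        · rintro (h3 | h3)
          · rw [h3]; exact ⟨hr, hrX⟩
          · exact ⟨h3.1.2, h3.2⟩
      have h1 := h.conn X (fun z hz => Finset.mem_of_mem_erase (hX hz)) hne
        (by rw [h2]; exact ⟨r, by simp⟩)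
      rw [h2, eb_union_right _ _ (by simp)] at h1
      have h4 : eb T X {r} = 0 := by
        refine eb_zero fun u hu v hv huv => ?_
        rw [Finset.mem_singleton] at hv
        rw [hv] at huv
        have := huniq u (Finset.mem_of_mem_erase (hX hu)) huv.symm
        exact hs (this ▸ hu)
      omega
  · have h1 : eb T A A = eb T (A.erase r) (A.erase r) + 2 * eb T {r} (A.erase r) := by
      conv_lhs => rw [← hins]
      exact eb_insert T (by simp)
    have := h.card
    rw [Finset.card_erase_of_mem hr]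
    omega

lemma leaves_nonadj {T : SimpleGraph V} {A : Finset V} (h : IsTr T A) (hA : 3 ≤ A.card)
    {r r' : V} (hr : r ∈ A) (hr' : r' ∈ A) (hl : eb T {r} A = 1) (hl' : eb T {r'} A = 1) :
    ¬ T.Adj r r' := by
  intro hadj
  obtain ⟨s, hsA, hrs, huniq⟩ := leaf_nbr hl
  obtain ⟨s', hsA', hrs', huniq'⟩ := leaf_nbr hl'
  have e1 : r' = s := huniq r' hr' hadj
  have e2 : r = s' := huniq' r hr hadj.symm
  have hsub : ({r, r'} : Finset V) ⊆ A := by
    intro z hz
    rcases Finset.mem_insert.mp hz with h2 | h2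
    · rw [h2]; exact hr
    · rw [Finset.mem_singleton.mp h2]; exact hr'
  have hne : (A \ {r, r'}).Nonempty := by
    rw [← Finset.card_pos, Finset.card_sdiff_of_subset hsub]
    have : ({r, r'} : Finset V).card ≤ 2 := Finset.card_le_two
    omega
  obtain ⟨u, hu, v, hv, huv⟩ := eb_pos (h.conn _ hsub (Finset.insert_nonempty _ _) hne)
  rw [Finset.mem_sdiff] at hv
  rcases Finset.mem_insert.mp hu with h2 | h2
  · rw [h2] at huv
    have := huniq v hv.1 huv
    exact hv.2 (by rw [this, ← e1]; simp)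
  · rw [Finset.mem_singleton.mp h2] at huv
    have := huniq' v hv.1 huv
    exact hv.2 (by rw [this, ← e2]; simp)

/-- Invariant of the pinching loop at `r`. -/
structure PInv (T J : SimpleGraph V) (A B : Finset V) (r : V) (l t e0 : ℕ) : Prop where
  supp : ∀ u v, J.Adj u v → u ∈ A
  disj : ∀ u v, J.Adj u v → ¬ T.Adj u v
  nbr : ∀ v, J.Adj r v → v ∈ B
  deg : eb J {r} B = 2 * t
  cut : ∀ X ⊆ A, (X ∩ B).Nonempty → (B \ X).Nonempty →
    l ≤ eb T X (A \ X) + eb J X (A \ X)
  tot : eb J A A = e0 + 2 * t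

lemma pair_le {T J : SimpleGraph V} {v : V} {Z : Finset V}
    (h : ∀ w, J.Adj v w → ¬ T.Adj v w) : eb T {v} Z + eb J {v} Z ≤ Z.card := by
  rw [eb_single_card, eb_single_card, ← Finset.card_union_of_disjoint]
  · refine Finset.card_le_card ?_
    exact Finset.union_subset (Finset.filter_subset _ _) (Finset.filter_subset _ _)
  · rw [Finset.disjoint_left]
    intro w hw hw'
    rw [Finset.mem_filter] at hw hw'
    exact h w hw'.2 hw.2

lemma find_edge {T J : SimpleGraph V} {A B : Finset V} {r s : V} {l t e0 c : ℕ}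
    (hT : IsTr T A) (hrA : r ∈ A) (hrB : r ∉ B) (hB : B ⊆ A)
    (huniq : ∀ v ∈ A, T.Adj r v → v = s) (hc : A.card = B.card + 1 + c)
    (hl : 2 * t + c + 3 ≤ l) (hBc : 2 * t + 2 ≤ B.card) (inv : PInv T J A B r l t e0) :
    ∃ x ∈ B, ∃ y ∈ B, J.Adj x y ∧ x ≠ s ∧ y ≠ s ∧ ¬ J.Adj r x ∧ ¬ J.Adj r y := by
  by_contra hcon
  push Not at hcon
  set R := B.filter (fun v => v ≠ s ∧ ¬ J.Adj r v) with hRdef
  set D := B.filter (fun v => J.Adj r v) with hDdef
  have hRB : R ⊆ B := Finset.filter_subset _ _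
  have hRA : R ⊆ A := hRB.trans hB
  have hD : D.card = 2 * t := by
    rw [← inv.deg, eb_single_card]
  have hcover : B ⊆ R ∪ ({s} ∪ D) := by
    intro v hv
    rw [Finset.mem_union, Finset.mem_union, Finset.mem_singleton]
    by_cases h1 : v = s
    · exact Or.inr (Or.inl h1)
    · by_cases h2 : J.Adj r v
      · exact Or.inr (Or.inr (Finset.mem_filter.mpr ⟨hv, h2⟩))
      · exact Or.inl (Finset.mem_filter.mpr ⟨hv, h1, h2⟩)
  have hRc : B.card ≤ R.card + (1 + 2 * t) := by
    have h1 := Finset.card_le_card hcover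
    have h2 := Finset.card_union_le R ({s} ∪ D)
    have h3 := Finset.card_union_le {s} D
    rw [Finset.card_singleton] at h3
    omega
  have hRne : R.Nonempty := by
    rw [← Finset.card_pos]; omega
  have hno : ∀ x ∈ R, ∀ y ∈ R, ¬ J.Adj x y := by
    intro x hx y hy hxy
    rw [hRdef, Finset.mem_filter] at hx hy
    exact hy.2.2 (hcon x hx.1 y hy.1 hxy hx.2.1 hy.2.1 hx.2.2)
  have hrR : r ∉ R := fun h => hrB (hRB h)
  have hdeg : ∀ v ∈ R, 2 ≤ eb T {v} R := by
    intro v hv
    have hvB := hRB hv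
    have hvA := hB hvB
    rw [hRdef, Finset.mem_filter] at hv
    have h1 : (B \ {v}).Nonempty := by
      rw [← Finset.card_pos, Finset.card_sdiff_of_subset (Finset.singleton_subset_iff.mpr hvB)]
      simp; omega
    have h2 := inv.cut {v} (Finset.singleton_subset_iff.mpr hvA)
      ⟨v, by simp [hvB]⟩ h1
    have h3 := eb_mono_right T {v} (B := A \ {v}) (C := A) Finset.sdiff_subset
    have h4 := eb_mono_right J {v} (B := A \ {v}) (C := A) Finset.sdiff_subset
    have hA : A = R ∪ ({r} ∪ (A \ (insert r R))) := by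
      ext z
      simp only [Finset.mem_union, Finset.mem_singleton, Finset.mem_sdiff, Finset.mem_insert]
      constructor
      · intro hz
        by_cases h5 : z ∈ R
        · exact Or.inl h5
        · by_cases h6 : z = r
          · exact Or.inr (Or.inl h6)
          · exact Or.inr (Or.inr ⟨hz, fun h7 => h7.elim h6 h5⟩)
      · rintro (h5 | h5 | h5)
        · exact hRA h5
        · rw [h5]; exact hrA
        · exact h5.1
    have hd1 : Disjoint ({r} : Finset V) (A \ (insert r R)) := by
      rw [Finset.disjoint_singleton_left, Finset.mem_sdiff]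
      exact fun h => h.2 (Finset.mem_insert_self _ _)
    have hd2 : Disjoint R ({r} ∪ (A \ (insert r R))) := by
      rw [Finset.disjoint_left]
      intro z hz hz'
      rw [Finset.mem_union, Finset.mem_singleton, Finset.mem_sdiff] at hz'
      rcases hz' with h5 | h5
      · exact hrR (h5 ▸ hz)
      · exact h5.2 (Finset.mem_insert_of_mem hz)
    have h5 : ∀ G : SimpleGraph V, eb G {v} A =
        eb G {v} R + (eb G {v} {r} + eb G {v} (A \ (insert r R))) := by
      intro G
      conv_lhs => rw [hA]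
      rw [eb_union_right _ _ hd2, eb_union_right _ _ hd1]
    have h6 : eb T {v} {r} = 0 := by
      rw [eb_single_single, if_neg]
      intro h; exact hv.2.1 (huniq v hvA h.symm)
    have h7 : eb J {v} {r} = 0 := by
      rw [eb_single_single, if_neg]
      intro h; exact hv.2.2 h.symm
    have h8 := pair_le (T := T) (J := J) (v := v) (Z := A \ (insert r R))
      (fun w hw => inv.disj v w hw)
    have h9 : (A \ (insert r R)).card + (R.card + 1) = A.card := by
      rw [Finset.card_sdiff_of_subset (Finset.insert_subset hrA hRA),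
        Finset.card_insert_of_notMem hrR]
      have := Finset.card_le_card (Finset.insert_subset hrA hRA)
      rw [Finset.card_insert_of_notMem hrR] at this
      omega
    have h10 : eb J {v} R = 0 := by
      refine eb_zero fun u hu w hw => ?_
      rw [Finset.mem_singleton] at hu
      rw [hu]
      exact hno v (by rw [hRdef, Finset.mem_filter]; exact hv) w hw
    have h11 := h5 T
    have h12 := h5 J
    omega
  have hsum : 2 * R.card ≤ eb T R R := by
    rw [eb_eq_sum, mul_comm, ← smul_eq_mul, ← Finset.sum_const]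
    exact Finset.sum_le_sum hdeg
  have := acyc hT hRA hRne
  omega

lemma ii_cut {A X : Finset V} {r x y : V} (hr : r ∈ A) (hx : x ∈ A) (hy : y ∈ A) :
    ii x y X (A \ X) ≤ ii r x X (A \ X) + ii r y X (A \ X) := by
  unfold ii nn
  by_cases h1 : r ∈ X <;> by_cases h2 : x ∈ X <;> by_cases h3 : y ∈ X <;>
    simp [h1, h2, h3, hr, hx, hy]

lemma pinch_adj (J : SimpleGraph V) (r x y u v : V) :
    (pinch J r x y).Adj u v ↔ ((J.Adj u v ∧ ¬ ((u = x ∧ v = y ∨ u = y ∧ v = x) ∧ u ≠ v)) ∨
      ((u = r ∧ v = x ∨ u = x ∧ v = r) ∧ u ≠ v)) ∨ ((u = r ∧ v = y ∨ u = y ∧ v = r) ∧ u ≠ v) := by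
  unfold pinch
  simp only [SimpleGraph.sup_adj, SimpleGraph.sdiff_adj, SimpleGraph.edge_adj]

lemma pinch_step {T J : SimpleGraph V} {A B : Finset V} {r s x y : V} {l t e0 : ℕ}
    (hrA : r ∈ A) (hrB : r ∉ B) (hB : B ⊆ A)
    (huniq : ∀ v ∈ A, T.Adj r v → v = s) (inv : PInv T J A B r l t e0)
    (hx : x ∈ B) (hy : y ∈ B) (hxy : J.Adj x y) (hxs : x ≠ s) (hys : y ≠ s)
    (hrx : ¬ J.Adj r x) (hry : ¬ J.Adj r y) : PInv T (pinch J r x y) A B r l (t + 1) e0 := by
  have hxr : r ≠ x := fun h => hrB (h ▸ hx)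
  have hyr : r ≠ y := fun h => hrB (h ▸ hy)
  have hne : x ≠ y := hxy.ne
  have hxA := hB hx
  have hyA := hB hy
  refine ⟨?_, ?_, ?_, ?_, ?_, ?_⟩
  · intro u v h
    rw [pinch_adj] at h
    rcases h with (h | ⟨h | h, -⟩) | ⟨h | h, -⟩
    · exact inv.supp u v h.1
    · rw [h.1]; exact hrA
    · rw [h.1]; exact hxA
    · rw [h.1]; exact hrA
    · rw [h.1]; exact hyA
  · intro u v h
    rw [pinch_adj] at h
    rcases h with (h | ⟨h | h, -⟩) | ⟨h | h, -⟩
    · exact inv.disj u v h.1
    · rw [h.1, h.2]; exact fun h' => hxs (huniq x hxA h')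
    · rw [h.1, h.2]; exact fun h' => hxs (huniq x hxA h'.symm)
    · rw [h.1, h.2]; exact fun h' => hys (huniq y hyA h')
    · rw [h.1, h.2]; exact fun h' => hys (huniq y hyA h'.symm)
  · intro v h
    rw [pinch_adj] at h
    rcases h with (h | ⟨h | h, -⟩) | ⟨h | h, -⟩
    · exact inv.nbr v h.1
    · rw [h.2]; exact hx
    · exact absurd h.1 hxr
    · rw [h.2]; exact hy
    · exact absurd h.1 hyr
  · have h1 := pinch_eb J hxy hxr hyr hrx hry {r} B
    have h2 : ii x y {r} B = 0 := by
      unfold ii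
      rw [nn_false, nn_false]
      · exact fun h => hyr (Finset.mem_singleton.mp h.1).symm
      · exact fun h => hxr (Finset.mem_singleton.mp h.1).symm
    have h3 : ii r x {r} B = 1 := by
      unfold ii
      rw [nn_true, nn_false]
      · exact fun h => hxr (Finset.mem_singleton.mp h.1).symm
      · exact ⟨Finset.mem_singleton_self _, hx⟩
    have h4 : ii r y {r} B = 1 := by
      unfold ii
      rw [nn_true, nn_false]
      · exact fun h => hyr (Finset.mem_singleton.mp h.1).symm
      · exact ⟨Finset.mem_singleton_self _, hy⟩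
    have := inv.deg
    omega
  · intro X hX h1 h2
    have h3 := pinch_eb J hxy hxr hyr hrx hry X (A \ X)
    have h4 := ii_cut (X := X) hrA hxA hyA
    have h5 := inv.cut X hX h1 h2
    omega
  · have h3 := pinch_eb J hxy hxr hyr hrx hry A A
    have h4 : ∀ a b : V, a ∈ A → b ∈ A → ii a b A A = 2 := by
      intro a b ha hb
      unfold ii
      rw [nn_true ⟨ha, hb⟩, nn_true ⟨hb, ha⟩]
    rw [h4 _ _ hxA hyA, h4 _ _ hrA hxA, h4 _ _ hrA hyA] at h3
    have := inv.tot
    omega

lemma pinch_other {J : SimpleGraph V} {B : Finset V} {r x y : V} (hx : x ∈ B) (hy : y ∈ B)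
    {u v : V} (hu : u ∉ B) (hur : u ≠ r) : (pinch J r x y).Adj u v ↔ J.Adj u v := by
  have h1 : u ≠ x := fun h => hu (h ▸ hx)
  have h2 : u ≠ y := fun h => hu (h ▸ hy)
  rw [pinch_adj]
  tauto

lemma loop {T J0 : SimpleGraph V} {A B : Finset V} {r s : V} {l e0 c m : ℕ}
    (hT : IsTr T A) (hrA : r ∈ A) (hrB : r ∉ B) (hB : B ⊆ A)
    (huniq : ∀ v ∈ A, T.Adj r v → v = s) (hc : A.card = B.card + 1 + c)
    (hl : 2 * m + c + 1 ≤ l) (hBc : 2 * m ≤ B.card) (h0 : PInv T J0 A B r l 0 e0) :
    ∀ t : ℕ, t ≤ m → ∃ J, PInv T J A B r l t e0 ∧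
      ∀ u v, u ∉ B → u ≠ r → (J.Adj u v ↔ J0.Adj u v) := by
  intro t
  induction t with
  | zero => intro _; exact ⟨J0, h0, fun _ _ _ _ => Iff.rfl⟩
  | succ t ih =>
    intro ht
    obtain ⟨J, inv, hJ⟩ := ih (by omega)
    obtain ⟨x, hx, y, hy, hxy, hxs, hys, hrx, hry⟩ :=
      find_edge hT hrA hrB hB huniq hc (by omega) (by omega) inv
    refine ⟨pinch J r x y, pinch_step hrA hrB hB huniq inv hx hy hxy hxs hys hrx hry, ?_⟩
    intro u v hu hur
    rw [pinch_other hx hy hu hur]
    exact hJ u v hu hur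

/-- The goal of the induction. -/
structure Good (T J : SimpleGraph V) (A : Finset V) (l e : ℕ) : Prop where
  supp : ∀ u v, J.Adj u v → u ∈ A
  disj : ∀ u v, J.Adj u v → ¬ T.Adj u v
  cut : ∀ X ⊆ A, X.Nonempty → (A \ X).Nonempty → l ≤ eb T X (A \ X) + eb J X (A \ X)
  tot : eb J A A ≤ e

lemma init {T J : SimpleGraph V} {A B : Finset V} {r : V} {l e : ℕ} (hrB : r ∉ B) (hB : B ⊆ A)
    (h : Good T J B l e) : PInv T J A B r l 0 (eb J B B) := by
  refine ⟨fun u v huv => hB (h.supp u v huv), h.disj, fun v hv => absurd (h.supp _ _ hv) hrB,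
    ?_, ?_, ?_⟩
  · refine eb_zero fun u hu v _ huv => ?_
    rw [Finset.mem_singleton] at hu
    rw [hu] at huv
    exact hrB (h.supp _ _ huv)
  · intro X hX h1 h2
    have h3 := h.cut (X ∩ B) Finset.inter_subset_right h1 (by
      obtain ⟨z, hz⟩ := h2
      rw [Finset.mem_sdiff] at hz
      exact ⟨z, Finset.mem_sdiff.mpr ⟨hz.1, fun h4 => hz.2 (Finset.mem_inter.mp h4).1⟩⟩)
    have h4 : B \ (X ∩ B) ⊆ A \ X := by
      intro z hz
      rw [Finset.mem_sdiff, Finset.mem_inter] at hz
      exact Finset.mem_sdiff.mpr ⟨hB hz.1, fun h5 => hz.2 ⟨h5, hz.1⟩⟩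
    have h5 : ∀ G : SimpleGraph V, eb G (X ∩ B) (B \ (X ∩ B)) ≤ eb G X (A \ X) := fun G =>
      le_trans (eb_mono_left _ _ Finset.inter_subset_left) (eb_mono_right _ _ h4)
    have := h5 T
    have := h5 J
    omega
  · have hd : Disjoint B (A \ B) := Finset.disjoint_sdiff
    have hA : A = B ∪ (A \ B) := (Finset.union_sdiff_of_subset hB).symm
    have h1 : eb J A A = eb J B B := by
      conv_lhs => rw [hA]
      rw [eb_union_left _ _ hd, eb_union_right _ _ hd, eb_union_right _ _ hd]
      have e1 : eb J B (A \ B) = 0 := eb_zero fun u _ v hv huv =>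
        (Finset.mem_sdiff.mp hv).2 (h.supp _ _ huv.symm)
      have e2 : eb J (A \ B) (A \ B) = 0 := eb_zero fun u hu v _ huv =>
        (Finset.mem_sdiff.mp hu).2 (h.supp _ _ huv)
      rw [eb_comm J (A \ B) B, e1, e2]; omega
    rw [h1]; omega

lemma finish {T J : SimpleGraph V} {A B : Finset V} {l : ℕ}
    (cut : ∀ X ⊆ A, (X ∩ B).Nonempty → (B \ X).Nonempty →
      l ≤ eb T X (A \ X) + eb J X (A \ X))
    (hsm : ∀ X ⊆ A, X ∩ B = ∅ → X.Nonempty → l ≤ eb T X (A \ X) + eb J X (A \ X)) :
    ∀ X ⊆ A, X.Nonempty → (A \ X).Nonempty → l ≤ eb T X (A \ X) + eb J X (A \ X) := by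
  intro X hX h1 h2
  by_cases h3 : (X ∩ B).Nonempty
  · by_cases h4 : (B \ X).Nonempty
    · exact cut X hX h3 h4
    · have h5 := hsm (A \ X) Finset.sdiff_subset (by
        rw [Finset.not_nonempty_iff_eq_empty] at h4
        rw [Finset.eq_empty_iff_forall_notMem]
        intro z hz
        rw [Finset.mem_inter, Finset.mem_sdiff] at hz
        have : z ∈ B \ X := Finset.mem_sdiff.mpr ⟨hz.2, hz.1.2⟩
        rw [h4] at this
        simp at this) h2
      rw [Finset.sdiff_sdiff_eq_self hX, eb_comm T, eb_comm J] at h5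
      exact h5
  · exact hsm X hX (Finset.not_nonempty_iff_eq_empty.mp h3) h1

lemma leaf_deg_erase {T : SimpleGraph V} {A : Finset V} {r : V} (hr : r ∈ A)
    (hl : eb T {r} A = 1) : eb T {r} (A.erase r) = 1 := by
  have h1 : eb T {r} A = eb T {r} {r} + eb T {r} (A.erase r) := by
    conv_lhs => rw [← Finset.insert_erase hr, Finset.insert_eq]
    exact eb_union_right _ _ (by simp)
  rw [eb_self_single] at h1
  omega

lemma single_odd {T J' : SimpleGraph V} {A : Finset V} {r : V} {l m e : ℕ} (hT : IsTr T A)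
    (hr : r ∈ A) (hleaf : eb T {r} A = 1) (hl : l = 2 * m + 1) (hA : l + 2 ≤ A.card)
    (h : Good T J' (A.erase r) l e) : ∃ J, Good T J A l (e + 2 * m) := by
  obtain ⟨s, hsA, hrs, huniq⟩ := leaf_nbr hleaf
  have hB : A.erase r ⊆ A := Finset.erase_subset _ _
  have hrB : r ∉ A.erase r := by simp
  have hcard : (A.erase r).card + 1 = A.card := by
    rw [Finset.card_erase_of_mem hr]; omega
  obtain ⟨J, inv, -⟩ := loop (c := 0) (m := m) hT hr hrB hB huniq (by omega) (by omega) (by omega)
    (init hrB hB h) m le_rfl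
  refine ⟨J, inv.supp, inv.disj, finish inv.cut ?_, ?_⟩
  · intro X hX hXB hXne
    have hBX : A.erase r ⊆ A \ X := by
      intro z hz
      refine Finset.mem_sdiff.mpr ⟨hB hz, fun hzX => ?_⟩
      have : z ∈ X ∩ A.erase r := Finset.mem_inter.mpr ⟨hzX, hz⟩
      rw [hXB] at this
      simp at this
    have hrX : r ∈ X := by
      obtain ⟨z, hz⟩ := hXne
      by_cases h1 : z = r
      · exact h1 ▸ hz
      · have : z ∈ X ∩ A.erase r := Finset.mem_inter.mpr ⟨hz, Finset.mem_erase.mpr ⟨h1, hX hz⟩⟩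
        rw [hXB] at this
        simp at this
    have h1 : ∀ G : SimpleGraph V, eb G {r} (A.erase r) ≤ eb G X (A \ X) := fun G =>
      le_trans (eb_mono_left _ _ (Finset.singleton_subset_iff.mpr hrX)) (eb_mono_right _ _ hBX)
    have h2 := h1 T
    have h3 := h1 J
    rw [leaf_deg_erase hr hleaf] at h2
    rw [inv.deg] at h3
    omega
  · have := inv.tot
    have := h.tot
    omega

lemma single_even {T J' : SimpleGraph V} {A : Finset V} {r : V} {l m e : ℕ} (hT : IsTr T A)
    (hr : r ∈ A) (hleaf : eb T {r} A = 1) (hl : l = 2 * m + 2) (hA : l + 2 ≤ A.card)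
    (h : Good T J' (A.erase r) l e) : ∃ J, Good T J A l (e + (2 * m + 2)) := by
  obtain ⟨s, hsA, hrs, huniq⟩ := leaf_nbr hleaf
  have hB : A.erase r ⊆ A := Finset.erase_subset _ _
  have hrB : r ∉ A.erase r := by simp
  have hcard : (A.erase r).card + 1 = A.card := by
    rw [Finset.card_erase_of_mem hr]; omega
  obtain ⟨J, inv, -⟩ := loop (c := 0) (m := m) hT hr hrB hB huniq (by omega) (by omega) (by omega)
    (init hrB hB h) m le_rfl
  obtain ⟨v, hvB, hvs, hrv⟩ : ∃ v ∈ A.erase r, v ≠ s ∧ ¬ J.Adj r v := by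
    by_contra hcon
    push Not at hcon
    have h1 : A.erase r ⊆ {s} ∪ (A.erase r).filter (fun w => J.Adj r w) := by
      intro v hv
      rw [Finset.mem_union, Finset.mem_singleton, Finset.mem_filter]
      by_cases h2 : v = s
      · exact Or.inl h2
      · exact Or.inr ⟨hv, hcon v hv h2⟩
    have h2 := Finset.card_le_card h1
    have h3 := Finset.card_union_le {s} ((A.erase r).filter (fun w => J.Adj r w))
    rw [Finset.card_singleton, ← eb_single_card, inv.deg] at h3
    omega
  have hvr : r ≠ v := fun h => hrB (h ▸ hvB)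
  have hvA := hB hvB
  have hadd := eb_add_edge J hvr hrv
  refine ⟨J ⊔ SimpleGraph.edge r v, ?_, ?_, finish (B := A.erase r) ?_ ?_, ?_⟩
  · intro u w huw
    rw [SimpleGraph.sup_adj, SimpleGraph.edge_adj] at huw
    rcases huw with h1 | ⟨h1 | h1, -⟩
    · exact inv.supp _ _ h1
    · rw [h1.1]; exact hr
    · rw [h1.1]; exact hvA
  · intro u w huw
    rw [SimpleGraph.sup_adj, SimpleGraph.edge_adj] at huw
    rcases huw with h1 | ⟨h1 | h1, -⟩
    · exact inv.disj _ _ h1
    · rw [h1.1, h1.2]; exact fun h2 => hvs (huniq v hvA h2)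
    · rw [h1.1, h1.2]; exact fun h2 => hvs (huniq v hvA h2.symm)
  · intro X hX h1 h2
    have := inv.cut X hX h1 h2
    rw [hadd]
    omega
  · intro X hX hXB hXne
    have hBX : A.erase r ⊆ A \ X := by
      intro z hz
      refine Finset.mem_sdiff.mpr ⟨hB hz, fun hzX => ?_⟩
      have : z ∈ X ∩ A.erase r := Finset.mem_inter.mpr ⟨hzX, hz⟩
      rw [hXB] at this
      simp at this
    have hrX : r ∈ X := by
      obtain ⟨z, hz⟩ := hXne
      by_cases h1 : z = r
      · exact h1 ▸ hz
      · have : z ∈ X ∩ A.erase r := Finset.mem_inter.mpr ⟨hz, Finset.mem_erase.mpr ⟨h1, hX hz⟩⟩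
        rw [hXB] at this
        simp at this
    have h1 : ∀ G : SimpleGraph V, eb G {r} (A.erase r) ≤ eb G X (A \ X) := fun G =>
      le_trans (eb_mono_left _ _ (Finset.singleton_subset_iff.mpr hrX)) (eb_mono_right _ _ hBX)
    have h2 := h1 T
    have h3 := h1 (J ⊔ SimpleGraph.edge r v)
    rw [leaf_deg_erase hr hleaf] at h2
    rw [hadd {r} (A.erase r), inv.deg] at h3
    have h4 : 1 ≤ ii r v {r} (A.erase r) := by
      unfold ii
      rw [nn_true ⟨Finset.mem_singleton_self _, hvB⟩]
      omega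
    omega
  · rw [hadd]
    have h4 : ii r v A A = 2 := by
      unfold ii
      rw [nn_true ⟨hr, hvA⟩, nn_true ⟨hvA, hr⟩]
    have := inv.tot
    have := h.tot
    omega

lemma double_even {T J' : SimpleGraph V} {A : Finset V} {r r' : V} {l m e : ℕ} (hT : IsTr T A)
    (hr : r ∈ A) (hr' : r' ∈ A) (hne : r ≠ r') (hleaf : eb T {r} A = 1)
    (hleaf' : eb T {r'} A = 1) (hl : l = 2 * m + 2) (hA : l + 3 ≤ A.card)
    (h : Good T J' ((A.erase r).erase r') l e) : ∃ J, Good T J A l (e + (4 * m + 2)) := by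
  obtain ⟨s, hsA, hrs, huniq⟩ := leaf_nbr hleaf
  obtain ⟨s', hsA', hrs', huniq'⟩ := leaf_nbr hleaf'
  have hnadj : ¬ T.Adj r r' := leaves_nonadj hT (by omega) hr hr' hleaf hleaf'
  set B := (A.erase r).erase r' with hBdef
  have hB : B ⊆ A := (Finset.erase_subset _ _).trans (Finset.erase_subset _ _)
  have hrB : r ∉ B := by simp [hBdef]
  have hrB' : r' ∉ B := by simp [hBdef]
  have hcard : B.card + 2 = A.card := by
    rw [hBdef, Finset.card_erase_of_mem (Finset.mem_erase.mpr ⟨hne.symm, hr'⟩),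
      Finset.card_erase_of_mem hr]
    omega
  have hsB : s ∈ B := by
    rw [hBdef, Finset.mem_erase, Finset.mem_erase]
    exact ⟨fun h1 => hnadj (h1 ▸ hrs), hrs.ne', hsA⟩
  have hsB' : s' ∈ B := by
    rw [hBdef, Finset.mem_erase, Finset.mem_erase]
    exact ⟨hrs'.ne', fun h1 => hnadj (h1 ▸ hrs').symm, hsA'⟩
  have hdT : 1 ≤ eb T {r} B := by
    have := eb_mono_right T {r} (Finset.singleton_subset_iff.mpr hsB)
    rw [eb_single_single, if_pos hrs] at this
    exact this
  have hdT' : 1 ≤ eb T {r'} B := by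
    have := eb_mono_right T {r'} (Finset.singleton_subset_iff.mpr hsB')
    rw [eb_single_single, if_pos hrs'] at this
    exact this
  obtain ⟨J1, inv1, hJ1⟩ := loop (c := 1) (m := m) hT hr hrB hB huniq (by omega) (by omega)
    (by omega) (init hrB hB h) m le_rfl
  have hno : ∀ v, ¬ J1.Adj r' v := by
    intro v hv
    rw [hJ1 r' v hrB' hne.symm] at hv
    exact hrB' (h.supp _ _ hv)
  have inv0 : PInv T J1 A B r' l 0 (eb J' B B + 2 * m) := by
    refine ⟨inv1.supp, inv1.disj, fun v hv => absurd hv (hno v), ?_, inv1.cut, ?_⟩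
    · refine eb_zero fun u hu v _ huv => ?_
      rw [Finset.mem_singleton] at hu
      rw [hu] at huv
      exact hno v huv
    · have := inv1.tot
      omega
  obtain ⟨J2, inv2, hJ2⟩ := loop (c := 1) (m := m) hT hr' hrB' hB huniq' (by omega) (by omega)
    (by omega) inv0 m le_rfl
  have hdJ : eb J2 {r} B = 2 * m := by
    rw [← inv1.deg, eb_single_card, eb_single_card]
    congr 1
    refine Finset.filter_congr fun v _ => ?_
    exact hJ2 r v hrB hne
  have hrr' : ¬ J2.Adj r r' := fun h1 => hrB (inv2.nbr r h1.symm)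
  have hadd := eb_add_edge J2 hne hrr'
  refine ⟨J2 ⊔ SimpleGraph.edge r r', ?_, ?_, finish (B := B) ?_ ?_, ?_⟩
  · intro u w huw
    rw [SimpleGraph.sup_adj, SimpleGraph.edge_adj] at huw
    rcases huw with h1 | ⟨h1 | h1, -⟩
    · exact inv2.supp _ _ h1
    · rw [h1.1]; exact hr
    · rw [h1.1]; exact hr'
  · intro u w huw
    rw [SimpleGraph.sup_adj, SimpleGraph.edge_adj] at huw
    rcases huw with h1 | ⟨h1 | h1, -⟩
    · exact inv2.disj _ _ h1
    · rw [h1.1, h1.2]; exact hnadj
    · rw [h1.1, h1.2]; exact fun h2 => hnadj h2.symm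
  · intro X hX h1 h2
    have := inv2.cut X hX h1 h2
    rw [hadd]
    omega
  · intro X hX hXB hXne
    have hBX : B ⊆ A \ X := by
      intro z hz
      refine Finset.mem_sdiff.mpr ⟨hB hz, fun hzX => ?_⟩
      have : z ∈ X ∩ B := Finset.mem_inter.mpr ⟨hzX, hz⟩
      rw [hXB] at this
      simp at this
    rw [hadd]
    have h1 : ∀ (G : SimpleGraph V) (z : V), z ∈ X → eb G {z} B ≤ eb G X (A \ X) := fun G z hz =>
      le_trans (eb_mono_left _ _ (Finset.singleton_subset_iff.mpr hz)) (eb_mono_right _ _ hBX)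
    have h2 : ∀ (G : SimpleGraph V), r ∈ X → r' ∈ X →
        eb G {r} B + eb G {r'} B ≤ eb G X (A \ X) := by
      intro G h3 h4
      rw [← eb_union_left _ _ (by simpa using hne)]
      refine le_trans (eb_mono_left _ _ ?_) (eb_mono_right _ _ hBX)
      exact Finset.union_subset (Finset.singleton_subset_iff.mpr h3)
        (Finset.singleton_subset_iff.mpr h4)
    by_cases h3 : r ∈ X
    · by_cases h4 : r' ∈ X
      · have h5 := h2 T h3 h4
        have h6 := h2 J2 h3 h4
        rw [hdJ, inv2.deg] at h6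
        omega
      · have h5 := h1 T r h3
        have h6 := h1 J2 r h3
        rw [hdJ] at h6
        have h7 : 1 ≤ ii r r' X (A \ X) := by
          unfold ii
          rw [nn_true ⟨h3, Finset.mem_sdiff.mpr ⟨hr', h4⟩⟩]
          omega
        omega
    · by_cases h4 : r' ∈ X
      · have h5 := h1 T r' h4
        have h6 := h1 J2 r' h4
        rw [inv2.deg] at h6
        have h7 : 1 ≤ ii r r' X (A \ X) := by
          unfold ii
          rw [nn_true (p := r' ∈ X ∧ r ∈ A \ X) ⟨h4, Finset.mem_sdiff.mpr ⟨hr, h3⟩⟩]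
          omega
        omega
      · exfalso
        obtain ⟨z, hz⟩ := hXne
        have h5 : z ≠ r := fun h => h3 (h ▸ hz)
        have h6 : z ≠ r' := fun h => h4 (h ▸ hz)
        have : z ∈ X ∩ B := Finset.mem_inter.mpr ⟨hz, by
          rw [hBdef, Finset.mem_erase, Finset.mem_erase]; exact ⟨h6, h5, hX hz⟩⟩
        rw [hXB] at this
        simp at this
  · rw [hadd]
    have h4 : ii r r' A A = 2 := by
      unfold ii
      rw [nn_true ⟨hr, hr'⟩, nn_true ⟨hr', hr⟩]
    have := inv2.tot
    have := h.tot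
    omega

/-- The complement of `T` in `A`. -/
def cmp (T : SimpleGraph V) (A : Finset V) : SimpleGraph V where
  Adj u v := (u ∈ A ∧ v ∈ A) ∧ u ≠ v ∧ ¬ T.Adj u v
  symm := ⟨fun _ _ h => ⟨⟨h.1.2, h.1.1⟩, h.2.1.symm, fun h2 => h.2.2 h2.symm⟩⟩
  loopless := ⟨fun _ h => h.2.1 rfl⟩

lemma cmp_count (T : SimpleGraph V) {A X Y : Finset V} (hX : X ⊆ A) (hY : Y ⊆ A) :
    eb T X Y + eb (cmp T A) X Y + (X ∩ Y).card = X.card * Y.card := by
  have h1 : (X ∩ Y).card = ∑ u ∈ X, ∑ v ∈ Y, nn (u = v) := by
    rw [← Finset.filter_mem_eq_inter, Finset.card_filter]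
    refine Finset.sum_congr rfl fun u _ => ?_
    by_cases hu : u ∈ Y
    · rw [if_pos hu, Finset.sum_eq_single u, nn_true rfl]
      · intro v _ hv; exact nn_false fun h => hv h.symm
      · intro h; exact absurd hu h
    · rw [if_neg hu, Finset.sum_eq_zero]
      intro v hv
      refine nn_false ?_
      rintro rfl
      exact hu hv
  rw [h1, eb_nn, eb_nn, ← Finset.sum_add_distrib, ← Finset.sum_add_distrib]
  have h2 : ∀ u ∈ X, (∑ v ∈ Y, nn (T.Adj u v) + ∑ v ∈ Y, nn ((cmp T A).Adj u v) +
      ∑ v ∈ Y, nn (u = v)) = Y.card := by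
    intro u hu
    rw [← Finset.sum_add_distrib, ← Finset.sum_add_distrib, Finset.card_eq_sum_ones]
    refine Finset.sum_congr rfl fun v hv => ?_
    by_cases h3 : T.Adj u v
    · rw [nn_true h3, nn_false (p := (cmp T A).Adj u v) (fun h => h.2.2 h3), nn_false h3.ne]
    · by_cases h4 : u = v
      · rw [nn_false h3, nn_false (p := (cmp T A).Adj u v) (fun h => h.2.1 h4), nn_true h4]
      · rw [nn_false h3, nn_true (p := (cmp T A).Adj u v) ⟨⟨hX hu, hY hv⟩, h4, h3⟩, nn_false h4]
  rw [Finset.sum_congr rfl h2, Finset.sum_const, smul_eq_mul]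

lemma base {T : SimpleGraph V} {A : Finset V} {l : ℕ} (hT : IsTr T A) (hA : A.card = l + 1) :
    Good T (cmp T A) A l (l * (l - 1)) := by
  refine ⟨fun u v h => h.1.1, fun u v h => h.2.2, ?_, ?_⟩
  · intro X hX h1 h2
    have h3 := cmp_count T hX (Finset.sdiff_subset (s := A) (t := X))
    have h4 : X ∩ (A \ X) = ∅ := by
      rw [Finset.eq_empty_iff_forall_notMem]
      intro z hz
      rw [Finset.mem_inter, Finset.mem_sdiff] at hz
      exact hz.2.2 hz.1
    rw [h4, Finset.card_empty] at h3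
    have h5 : X.card + (A \ X).card = A.card := by
      rw [Finset.card_sdiff_of_subset hX]
      have := Finset.card_le_card hX
      omega
    have h6 := Finset.card_pos.mpr h1
    have h7 := Finset.card_pos.mpr h2
    have h8 : X.card + (A \ X).card ≤ X.card * (A \ X).card + 1 := by nlinarith
    omega
  · have h3 := cmp_count T (le_refl A) (le_refl A)
    rw [Finset.inter_self, hA] at h3
    have h4 := hT.card
    rw [hA] at h4
    rcases Nat.eq_zero_or_pos l with h5 | h5
    · subst h5
      omega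
    · obtain ⟨k, rfl⟩ : ∃ k, l = k + 1 := ⟨l - 1, by omega⟩
      have : k + 1 - 1 = k := by omega
      rw [this]
      nlinarith

lemma main {T : SimpleGraph V} {l : ℕ} (hl : 2 ≤ l) : ∀ (n : ℕ) (A : Finset V), IsTr T A →
    A.card = n → l + 1 ≤ n → ∃ J, Good T J A l (2 * (((n - 1) * (l - 1) + 1) / 2)) := by
  intro n
  induction n using Nat.strong_induction_on with
  | _ n ih =>
    intro A hT hA hn
    rcases Nat.lt_or_ge (l + 1) n with hlt | hge
    · obtain ⟨r, hr, r', hr', hne, hleaf, hleaf'⟩ := two_leaves hT (by omega)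
      have hT1 := remove_leaf hT (by omega) hr hleaf
      have hc1 : (A.erase r).card = n - 1 := by rw [Finset.card_erase_of_mem hr, hA]
      rcases Nat.even_or_odd' l with ⟨k, hk | hk⟩
      · obtain ⟨m, rfl⟩ : ∃ m, k = m + 1 := ⟨k - 1, by omega⟩
        rcases Nat.lt_or_ge (l + 2) n with hlt2 | hge2
        · have hr1 : r' ∈ A.erase r := Finset.mem_erase.mpr ⟨hne.symm, hr'⟩
          have hnadj : ¬ T.Adj r r' := leaves_nonadj hT (by omega) hr hr' hleaf hleaf'
          have hleaf1 : eb T {r'} (A.erase r) = 1 := by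
            have h1 : eb T {r'} A = eb T {r'} {r} + eb T {r'} (A.erase r) := by
              conv_lhs => rw [← Finset.insert_erase hr, Finset.insert_eq]
              exact eb_union_right _ _ (by simp)
            rw [eb_single_single, if_neg (fun h => hnadj h.symm)] at h1
            omega
          have hT2 := remove_leaf hT1 (by omega) hr1 hleaf1
          have hc2 : ((A.erase r).erase r').card = n - 2 := by
            rw [Finset.card_erase_of_mem hr1, hc1]; omega
          obtain ⟨J', hJ'⟩ := ih (n - 2) (by omega) _ hT2 hc2 (by omega)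
          obtain ⟨J, hJ⟩ := double_even (m := m) hT hr hr' hne hleaf hleaf' (by omega) (by omega) hJ'
          refine ⟨J, hJ.supp, hJ.disj, hJ.cut, le_trans hJ.tot ?_⟩
          obtain ⟨p, rfl⟩ : ∃ p, n = p + 3 := ⟨n - 3, by omega⟩
          have e1 : p + 3 - 2 - 1 = p := by omega
          have e2 : p + 3 - 1 = p + 2 := by omega
          have e3 : l - 1 = 2 * m + 1 := by omega
          rw [e1, e2, e3]
          have e4 : (p + 2) * (2 * m + 1) = p * (2 * m + 1) + (4 * m + 2) := by ring
          rw [e4]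
          omega
        · have hn2 : n = l + 2 := by omega
          obtain ⟨J', hJ'⟩ := ih (n - 1) (by omega) _ hT1 hc1 (by omega)
          obtain ⟨J, hJ⟩ := single_even (m := m) hT hr hleaf (by omega) (by omega) hJ'
          refine ⟨J, hJ.supp, hJ.disj, hJ.cut, le_trans hJ.tot ?_⟩
          have e1 : n - 1 - 1 = 2 * (m + 1) := by omega
          have e2 : n - 1 = 2 * (m + 1) + 1 := by omega
          have e3 : l - 1 = 2 * m + 1 := by omega
          rw [e1, e2, e3]
          have e4 : (2 * (m + 1) + 1) * (2 * m + 1) = 2 * (m + 1) * (2 * m + 1) + (2 * m + 1) := by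
            ring
          have e5 : 2 * (m + 1) * (2 * m + 1) = 2 * ((m + 1) * (2 * m + 1)) := by ring
          rw [e4, e5]
          omega
      · obtain ⟨J', hJ'⟩ := ih (n - 1) (by omega) _ hT1 hc1 (by omega)
        obtain ⟨J, hJ⟩ := single_odd (m := k) hT hr hleaf (by omega) (by omega) hJ'
        refine ⟨J, hJ.supp, hJ.disj, hJ.cut, le_trans hJ.tot ?_⟩
        obtain ⟨p, rfl⟩ : ∃ p, n = p + 2 := ⟨n - 2, by omega⟩
        have e1 : p + 2 - 1 - 1 = p := by omega
        have e2 : p + 2 - 1 = p + 1 := by omega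
        have e3 : l - 1 = 2 * k := by omega
        rw [e1, e2, e3]
        have e4 : (p + 1) * (2 * k) = 2 * (p * k) + 2 * k := by ring
        have e5 : p * (2 * k) = 2 * (p * k) := by ring
        rw [e4, e5]
        omega
    · have hn2 : n = l + 1 := by omega
      refine ⟨cmp T A, ?_⟩
      have h := base hT (hA.trans hn2)
      refine ⟨h.supp, h.disj, h.cut, le_trans h.tot ?_⟩
      have e1 : n - 1 = l := by omega
      rw [e1]
      omega

lemma eb_mono_graph {G H : SimpleGraph V} (h : G ≤ H) (X Y : Finset V) : eb G X Y ≤ eb H X Y := by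
  rw [eb_nn, eb_nn]
  refine Finset.sum_le_sum fun u _ => Finset.sum_le_sum fun v _ => ?_
  by_cases h1 : G.Adj u v
  · rw [nn_true h1, nn_true (h h1)]
  · rw [nn_false h1]; exact Nat.zero_le _

theorem k1u_proof : Stmt_K1Upper := by
  intro V _ _ l hl hlV G hG
  have : Nonempty V := Fintype.card_pos_iff.mp (by omega)
  obtain ⟨T, hTG, hT⟩ := exists_tree G hG
  obtain ⟨J, hJ⟩ := main hl (Fintype.card V) univ hT (Finset.card_univ) (by omega)
  refine ⟨G ⊔ J, le_sup_left, ?_, ?_⟩
  · intro X h1 h2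
    have h3 := hJ.cut X (Finset.subset_univ _) h1 (by rw [← Finset.compl_eq_univ_sdiff]; exact h2)
    rw [← Finset.compl_eq_univ_sdiff] at h3
    refine le_trans h3 ?_
    rw [eb_nn, eb_nn, eb_nn, ← Finset.sum_add_distrib]
    refine Finset.sum_le_sum fun u _ => ?_
    rw [← Finset.sum_add_distrib]
    refine Finset.sum_le_sum fun v _ => ?_
    by_cases h4 : J.Adj u v
    · rw [nn_false (hJ.disj u v h4), nn_true h4, nn_true (p := (G ⊔ J).Adj u v)
        (by rw [SimpleGraph.sup_adj]; exact Or.inr h4)]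
    · rw [nn_false h4]
      by_cases h5 : T.Adj u v
      · rw [nn_true h5, nn_true (p := (G ⊔ J).Adj u v)
          (by rw [SimpleGraph.sup_adj]; exact Or.inl (hTG h5))]
      · rw [nn_false h5]; exact Nat.zero_le _
  · refine le_trans (eb_mono_graph ?_ _ _) hJ.tot
    intro u v huv
    rw [SimpleGraph.sdiff_adj, SimpleGraph.sup_adj] at huv
    tauto

end Pool.Agent.ConnAug.K1U
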