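import Pool.Agent.ConnAug.Cover

/-!
# One step of augmentation in the sparse range (module STEP), and telescoping (module SPARSE)
-/

set_option linter.unusedSectionVars false

namespace Pool.Agent.ConnAug

open Finset

variable {V : Type} [Fintype V] [DecidableEq V]

/-- An edge-minimal `j`-edge-connected subgraph, whose cliques have at most `j + 1` vertices. -/
theorem exists_minimal_EC (G : SimpleGraph V) {j : ℕ} (hG : EC j G) :
    ∃ G₀ : SimpleGraph V, G₀ ≤ G ∧ EC j G₀ ∧
      ∀ K : Finset V, (∀ a ∈ K, ∀ b ∈ K, a ≠ b → G₀.Adj a b) → K.card ≤ j + 1 := by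
  classical
  obtain ⟨G₀, hG₀, hmin⟩ := Finset.exists_min_image
    ((univ : Finset (SimpleGraph V)).filter fun H => H ≤ G ∧ EC j H)
    (fun H => eb H univ univ) ⟨G, by simp [hG]⟩
  rw [Finset.mem_filter] at hG₀
  refine ⟨G₀, hG₀.2.1, hG₀.2.2, ?_⟩
  intro K hK
  by_contra hcard
  push Not at hcard
  obtain ⟨u, hu, v, hv, huv⟩ := Finset.one_lt_card.1 (show 1 < K.card by omega)
  have hadj : G₀.Adj u v := hK u hu v hv huv
  -- remove the edge
  set E := SimpleGraph.edge u v with hE
  have hEle : E ≤ G₀ := by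
    rw [hE, SimpleGraph.edge_le_iff]
    right; exact hadj
  have hlt : ¬ EC j (G₀ \ E) := by
    intro hEC
    have h1 := hmin (G₀ \ E) (by
      rw [Finset.mem_filter]
      exact ⟨Finset.mem_univ _, sdiff_le.trans hG₀.2.1, hEC⟩)
    have h2 := eb_sdiff hEle (univ : Finset V) univ
    have h3 : 0 < eb E univ univ := by
      rw [eb_pos_iff]
      refine ⟨u, Finset.mem_univ _, v, Finset.mem_univ _, ?_⟩
      rw [hE, SimpleGraph.edge_adj]
      exact ⟨Or.inl ⟨rfl, rfl⟩, huv⟩
    omega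
  unfold EC at hlt
  push Not at hlt
  obtain ⟨X, hX, hX', hXlt⟩ := hlt
  have h4 := eb_sdiff hEle X Xᶜ
  have h5 := hG₀.2.2 X hX hX'
  have hEpos : 0 < eb E X Xᶜ := by omega
  have hE1 : eb E X Xᶜ ≤ 1 := by
    rw [eb_eq_card, Finset.card_le_one]
    intro p hp q hq
    rw [Finset.mem_filter, Finset.mem_product, Finset.mem_compl, hE, SimpleGraph.edge_adj] at hp hq
    rcases hp with ⟨⟨hp1, hp2⟩, ⟨hp3, hp4⟩ | ⟨hp3, hp4⟩, -⟩ <;>
    rcases hq with ⟨⟨hq1, hq2⟩, ⟨hq3, hq4⟩ | ⟨hq3, hq4⟩, -⟩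
    · exact Prod.ext (hp3.trans hq3.symm) (hp4.trans hq4.symm)
    · exfalso; rw [hp3] at hp1; rw [hq4] at hq2; exact hq2 hp1
    · exfalso; rw [hp4] at hp2; rw [hq3] at hq1; exact hp2 hq1
    · exact Prod.ext (hp3.trans hq3.symm) (hp4.trans hq4.symm)
  have hsep : (u ∈ X ∧ v ∉ X) ∨ (v ∈ X ∧ u ∉ X) := by
    rw [eb_pos_iff] at hEpos
    obtain ⟨a, ha, b, hb, hab⟩ := hEpos
    rw [hE, SimpleGraph.edge_adj] at hab
    rw [Finset.mem_compl] at hb
    rcases hab.1 with ⟨h1, h2⟩ | ⟨h1, h2⟩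
    · left; rw [← h1, ← h2]; exact ⟨ha, hb⟩
    · right; rw [← h1, ← h2]; exact ⟨ha, hb⟩
  have h6 : eb G₀ X Xᶜ ≤ j := by omega
  have h7 : eb G₀ (K ∩ X) (K \ X) ≤ eb G₀ X Xᶜ := by
    refine (eb_mono_left G₀ Finset.inter_subset_right _).trans (eb_mono_right G₀ _ ?_)
    intro x hx
    rw [Finset.mem_sdiff] at hx
    rw [Finset.mem_compl]
    exact hx.2
  have h8 : eb G₀ (K ∩ X) (K \ X) = (K ∩ X).card * (K \ X).card := by
    rw [eb_eq_card, Finset.filter_true_of_mem, Finset.card_product]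
    intro p hp
    rw [Finset.mem_product, Finset.mem_inter, Finset.mem_sdiff] at hp
    exact hK _ hp.1.1 _ hp.2.1 (fun h => hp.2.2 (h ▸ hp.1.2))
  have h9 : (K ∩ X).card + (K \ X).card = K.card := by
    rw [add_comm]; exact Finset.card_sdiff_add_card_inter K X
  have h10 : 1 ≤ (K ∩ X).card ∧ 1 ≤ (K \ X).card := by
    rcases hsep with ⟨a, b⟩ | ⟨a, b⟩
    · exact ⟨Finset.card_pos.2 ⟨u, by simp [hu, a]⟩, Finset.card_pos.2 ⟨v, by simp [hv, b]⟩⟩
    · exact ⟨Finset.card_pos.2 ⟨v, by simp [hv, a]⟩, Finset.card_pos.2 ⟨u, by simp [hu, b]⟩⟩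
  obtain ⟨p, hp⟩ : ∃ p, (K ∩ X).card = p + 1 := ⟨(K ∩ X).card - 1, by omega⟩
  obtain ⟨q, hq⟩ : ∃ q, (K \ X).card = q + 1 := ⟨(K \ X).card - 1, by omega⟩
  rw [hp, hq] at h8 h9
  have h11 : (p + 1) * (q + 1) = p * q + p + q + 1 := by ring
  have h0 : 0 ≤ p * q := Nat.zero_le _
  omega

/-- The graph of an involution. -/
def mg (σ : V → V) (hσ : ∀ v, σ (σ v) = v) : SimpleGraph V where
  Adj a b := a ≠ b ∧ σ a = b
  symm := ⟨fun a b h => ⟨h.1.symm, by rw [← h.2, hσ]⟩⟩
  loopless := ⟨fun _ h => h.1 rfl⟩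

theorem dg_mg (σ : V → V) (hσ : ∀ v, σ (σ v) = v) (v : V) :
    dg (mg σ hσ) v = if σ v = v then 0 else 1 := by
  classical
  by_cases h : σ v = v
  · rw [if_pos h, dg_eq_card, Finset.card_eq_zero, Finset.filter_eq_empty_iff]
    rintro y - ⟨h1, h2⟩
    exact h1 (h.symm.trans h2)
  · rw [if_neg h, dg_eq_card, Finset.card_eq_one]
    refine ⟨σ v, ?_⟩
    ext y
    simp only [Finset.mem_filter, Finset.mem_univ, true_and, Finset.mem_singleton, mg]
    constructor
    · rintro ⟨_, h⟩; exact h.symm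
    · rintro rfl; exact ⟨fun h' => h h'.symm, rfl⟩

theorem eb_mg (σ : V → V) (hσ : ∀ v, σ (σ v) = v) :
    eb (mg σ hσ) univ univ + (fixSet σ).card = Fintype.card V := by
  classical
  rw [eb_univ_right]
  have h1 : ∑ v, dg (mg σ hσ) v = ((fixSet σ)ᶜ).card := by
    rw [Finset.card_eq_sum_ones, ← Finset.sum_subset (Finset.subset_univ (fixSet σ)ᶜ)]
    · refine Finset.sum_congr rfl fun x hx => ?_
      rw [Finset.mem_compl, mem_fixSet] at hx
      rw [dg_mg, if_neg hx]
    · intro x _ hx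
      rw [Finset.mem_compl, not_not, mem_fixSet] at hx
      rw [dg_mg, if_pos hx]
  rw [h1, add_comm]
  exact Finset.card_add_card_compl _

theorem eb_edge_le (u v : V) : eb (SimpleGraph.edge u v) univ univ ≤ 2 := by
  classical
  rw [eb_eq_card]
  have : ((univ : Finset V) ×ˢ (univ : Finset V)).filter
      (fun p => (SimpleGraph.edge u v).Adj p.1 p.2) ⊆ {(u, v), (v, u)} := by
    intro p hp
    rw [Finset.mem_filter, SimpleGraph.edge_adj] at hp
    rw [Finset.mem_insert, Finset.mem_singleton]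
    rcases hp.2.1 with ⟨h1, h2⟩ | ⟨h1, h2⟩
    · left; exact Prod.ext h1 h2
    · right; exact Prod.ext h1 h2
  exact (Finset.card_le_card this).trans Finset.card_le_two

theorem two_mul_half (m : ℕ) : 2 * ((m + 1) / 2) = m + m % 2 := by omega

/-- The arithmetic of the step. -/
theorem step_arith {n j f e : ℕ} (h : (Odd n → Odd j → f + e ≤ n - 1) ∧
    (Odd n → Even j → f + e ≤ n + 1) ∧ (Even n → f + e ≤ n)) (hn : 1 ≤ n) :
    f + e + 2 * ((j * n + 1) / 2) ≤ 2 * (((j + 1) * n + 1) / 2) := by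
  rw [two_mul_half, two_mul_half]
  rcases Nat.even_or_odd n with hne | hno
  · have h1 := h.2.2 hne
    have e1 : j * n % 2 = 0 := Nat.even_iff.1 (hne.mul_left j)
    have e2 : (j + 1) * n = j * n + n := by ring
    omega
  · rcases Nat.even_or_odd j with hje | hjo
    · have h1 := h.2.1 hno hje
      have e1 : j * n % 2 = 0 := Nat.even_iff.1 (hje.mul_right n)
      have e3 : n % 2 = 1 := Nat.odd_iff.1 hno
      have e2 : (j + 1) * n = j * n + n := by ring
      omega
    · have h1 := h.1 hno hjo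
      have e1 : j * n % 2 = 1 := Nat.odd_iff.1 (hjo.mul hno)
      have e3 : n % 2 = 1 := Nat.odd_iff.1 hno
      have e2 : (j + 1) * n = j * n + n := by ring
      omega

theorem step_proof : Stmt_Step := by
  classical
  intro V _ _ j hj hn G hG
  obtain ⟨G₀, hle, hEC, hclique⟩ := exists_minimal_EC G hG
  have hdeg : ∀ v, j ≤ dg G₀ v := fun v => hEC.le_dg (by omega) v
  obtain ⟨σ, hI, hU, huniq, hthree⟩ := cover_main G₀ hj hn hdeg hclique
  obtain ⟨τ, hτ, hfix, hno⟩ := swap_main G₀ (by omega) hEC hn σ hI hU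
  have hfs : fixSet τ = fixSet σ := by
    ext v; rw [mem_fixSet, mem_fixSet, hfix]
  set M := mg τ hτ.invol with hM
  have hdisj : Disjoint G₀ M := by
    rw [SimpleGraph.disjoint_left]
    intro a b hab hc
    have := hτ.simp' a (by rw [hc.2]; exact hc.1.symm)
    rw [hc.2] at this
    exact this hab
  have hMf : eb M univ univ + (fixSet τ).card = Fintype.card V := eb_mg τ hτ.invol
  rw [hfs] at hMf
  -- cut condition, for any extra graph `E` repairing the small degrees
  have main : ∀ E : SimpleGraph V, (∀ v, j + 1 ≤ dg (G₀ ⊔ M ⊔ E) v) → EC (j + 1) (G₀ ⊔ M ⊔ E) := by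
    intro E hE X hX hX'
    by_cases h1 : X.card ≤ j + 1
    · exact small_cut _ hX h1 fun v _ => hE v
    by_cases h2 : (Xᶜ).card ≤ j + 1
    · have := small_cut _ hX' h2 fun v _ => hE v
      rwa [eb_compl_comm] at this
    have h3 := hEC X hX hX'
    have h4 : eb (G₀ ⊔ M) X Xᶜ = eb G₀ X Xᶜ + eb M X Xᶜ := eb_sup hdisj _ _
    have h5 : eb (G₀ ⊔ M) X Xᶜ ≤ eb (G₀ ⊔ M ⊔ E) X Xᶜ := eb_mono le_sup_left _ _
    by_cases h6 : j + 1 ≤ eb G₀ X Xᶜ
    · omega
    have h7 : eb G₀ X Xᶜ = j := by omega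
    have h8 := hno X
    have h9 : ¬ ∀ z ∈ X, τ z ∈ X := fun h => h8 ⟨h7, by omega, by omega, h⟩
    push Not at h9
    obtain ⟨z, hz, hz'⟩ := h9
    have h10 : 0 < eb M X Xᶜ := by
      rw [eb_pos_iff]
      exact ⟨z, hz, τ z, by rw [Finset.mem_compl]; exact hz', fun h => hz' (h ▸ hz), rfl⟩
    omega
  -- degrees of G₀ ⊔ M
  have hdGM : ∀ v, dg (G₀ ⊔ M) v = dg G₀ v + if τ v = v then 0 else 1 := by
    intro v
    have h1 : dg (G₀ ⊔ M) v = dg G₀ v + dg M v := eb_sup hdisj _ _
    rw [h1, dg_mg]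
  have hev : Even (eb M univ univ) := eb_self_even M _
  by_cases hex : ∃ u, σ u = u ∧ dg G₀ u = j
  · obtain ⟨u, hu, hdu⟩ := hex
    -- choose a non-neighbour `t` of `u`
    obtain ⟨t, htu, hnt⟩ : ∃ t, t ≠ u ∧ ¬ G₀.Adj u t := by
      by_contra hcon
      push Not at hcon
      have h1 : dg G₀ u = Fintype.card V - 1 := by
        rw [dg_eq_card]
        have : (univ : Finset V).filter (fun v => G₀.Adj u v) = univ.erase u := by
          ext x
          simp only [Finset.mem_filter, Finset.mem_univ, true_and, Finset.mem_erase, and_true]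
          exact ⟨fun h => h.ne', fun h => hcon x h⟩
        rw [this, Finset.card_erase_of_mem (Finset.mem_univ _), Finset.card_univ]
      omega
    set E := SimpleGraph.edge u t with hE
    have hdegE : ∀ v, j + 1 ≤ dg (G₀ ⊔ M ⊔ E) v := by
      intro v
      have h1 : dg (G₀ ⊔ M) v ≤ dg (G₀ ⊔ M ⊔ E) v := dg_mono le_sup_left v
      have h2 := hdGM v
      have h3 := hdeg v
      by_cases h4 : τ v = v
      · by_cases h5 : dg G₀ v = j
        · have h6 : v = u := huniq v u ((hfix v).1 h4) hu h5 hdu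
          subst h6
          have hd2 : Disjoint (G₀ ⊔ M) E := by
            rw [SimpleGraph.disjoint_left]
            intro a b hab hc
            rw [hE, SimpleGraph.edge_adj] at hc
            have hMu : ¬ M.Adj v t := by
              intro h; rw [hM] at h; exact h.1 (h4.symm.trans h.2)
            have hMu' : ¬ M.Adj t v := fun h => hMu h.symm
            rcases hc.1 with ⟨h7, h8⟩ | ⟨h7, h8⟩
            · subst h7; subst h8
              rcases hab with h | h
              · exact hnt h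
              · exact hMu h
            · subst h7; subst h8
              rcases hab with h | h
              · exact hnt h.symm
              · exact hMu' h
          have h7 : dg (G₀ ⊔ M ⊔ E) v = dg (G₀ ⊔ M) v + dg E v := eb_sup hd2 _ _
          have h8 : 0 < dg E v := by
            unfold dg
            rw [eb_pos_iff]
            refine ⟨v, Finset.mem_singleton_self v, t, Finset.mem_univ _, ?_⟩
            rw [hE, SimpleGraph.edge_adj]
            exact ⟨Or.inl ⟨rfl, rfl⟩, htu.symm⟩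
          omega
        · omega
      · rw [if_neg h4] at h2
        omega
    refine ⟨G ⊔ (M ⊔ E), le_sup_left, (main E hdegE).mono ?_, ?_⟩
    · rw [sup_assoc]; exact sup_le_sup_right hle _
    · have h1 : eb ((G ⊔ (M ⊔ E)) \ G) univ univ ≤ eb M univ univ + eb E univ univ := by
        refine (eb_mono (G' := M ⊔ E) ?_ _ _).trans (eb_sup_le M E _ _)
        rw [sdiff_le_iff]
      have h2 : eb E univ univ ≤ 2 := eb_edge_le u t
      have hu1 : 1 ≤ (fixSet σ).card := Finset.card_pos.2 ⟨u, mem_fixSet.2 hu⟩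
      obtain ⟨r, hr⟩ := hev
      refine le_trans (Nat.add_le_add_right (h1.trans (Nat.add_le_add_left h2 _)) _)
        (step_arith ⟨?_, ?_, ?_⟩ (by omega))
      · intro a b
        have := hthree a b ⟨u, hu, hdu⟩
        omega
      · intro a b
        omega
      · rintro ⟨s, hs⟩
        omega
  · push Not at hex
    have hdegE : ∀ v, j + 1 ≤ dg (G₀ ⊔ M ⊔ ⊥) v := by
      intro v
      rw [sup_bot_eq]
      have h2 := hdGM v
      have h3 := hdeg v
      by_cases h4 : τ v = v
      · have := hex v ((hfix v).1 h4)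
        omega
      · rw [if_neg h4] at h2
        omega
    refine ⟨G ⊔ M, le_sup_left, (main ⊥ hdegE).mono ?_, ?_⟩
    · rw [sup_bot_eq]; exact sup_le_sup_right hle _
    · have h1 : eb ((G ⊔ M) \ G) univ univ ≤ eb M univ univ := by
        refine eb_mono ?_ _ _
        rw [sdiff_le_iff]
      obtain ⟨r, hr⟩ := hev
      have h3 : eb ((G ⊔ M) \ G) univ univ + 0 ≤ eb M univ univ + 0 := by omega
      have := step_arith (n := Fintype.card V) (j := j) (f := eb M univ univ) (e := 0)
        ⟨?_, ?_, ?_⟩ (by omega)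
      · omega
      · rintro ⟨s, hs⟩ _
        omega
      · rintro _ _
        omega
      · rintro ⟨s, hs⟩
        omega

theorem sparse_proof : Stmt_Sparse := by
  intro V _ _ k l hk hkl hn G hG
  induction l, hkl using Nat.le_induction with
  | base =>
    refine ⟨G, le_rfl, hG, ?_⟩
    have : eb (G \ G) univ univ = 0 := by
      rw [eb_eq_zero_iff]; intro u _ v _; simp
    omega
  | succ l hl ih =>
    obtain ⟨G', h1, h2, h3⟩ := ih (by omega)
    obtain ⟨G'', h4, h5, h6⟩ := step_proof V l (by omega) (by omega) G' h2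
    refine ⟨G'', h1.trans h4, h5, ?_⟩
    have h7 : eb (G'' \ G) univ univ ≤ eb (G'' \ G') univ univ + eb (G' \ G) univ univ := by
      refine (eb_mono (G' := (G'' \ G') ⊔ (G' \ G)) ?_ _ _).trans (eb_sup_le _ _ _ _)
      intro a b hab
      rw [SimpleGraph.sdiff_adj] at hab
      by_cases h : G'.Adj a b
      · right; exact ⟨h, hab.2⟩
      · left; exact ⟨hab.1, h⟩
    omega

end Pool.Agent.ConnAug
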