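import Pool.Agent.ConnAug.Basic

/-!
# The swapping argument (module STEP, part 1)
-/

set_option linter.unusedSectionVars false

namespace Pool.Agent.ConnAug

open Finset

variable {V : Type} [Fintype V] [DecidableEq V]

/-- `σ` is an involution pairing only non-adjacent vertices. -/
structure Inv (G : SimpleGraph V) (σ : V → V) : Prop where
  invol : ∀ v, σ (σ v) = v
  simp' : ∀ v, σ v ≠ v → ¬ G.Adj v (σ v)

/-- `Z` is a tight large set not crossed by the pairs of `σ`. -/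
def Violated (G : SimpleGraph V) (j : ℕ) (σ : V → V) (Z : Finset V) : Prop :=
  eb G Z Zᶜ = j ∧ j + 2 ≤ Z.card ∧ j + 2 ≤ (Zᶜ).card ∧ ∀ z ∈ Z, σ z ∈ Z

open Classical in
theorem two_cut_eq (G : SimpleGraph V) (X : Finset V) :
    2 * eb G X Xᶜ = ∑ a, ∑ b, if G.Adj a b ∧ ¬ (a ∈ X ↔ b ∈ X) then 1 else 0 := by
  have h1 : eb G X Xᶜ = ∑ a, ∑ b, if G.Adj a b ∧ a ∈ X ∧ b ∉ X then 1 else 0 := by
    unfold eb
    rw [← Finset.sum_filter_add_sum_filter_not univ (· ∈ X)]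
    have hz : ∑ x ∈ univ.filter (fun x => ¬ x ∈ X),
        ∑ b, (if G.Adj x b ∧ x ∈ X ∧ b ∉ X then 1 else 0) = 0 := by
      apply Finset.sum_eq_zero
      intro x hx
      apply Finset.sum_eq_zero
      intro y _
      rw [Finset.mem_filter] at hx
      simp [hx.2]
    rw [hz, add_zero, Finset.filter_mem_eq_inter, Finset.univ_inter]
    refine Finset.sum_congr rfl fun x hx => ?_
    rw [← Finset.sum_filter_add_sum_filter_not univ (· ∈ X)]
    have hz : ∑ b ∈ univ.filter (· ∈ X),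
        (if G.Adj x b ∧ x ∈ X ∧ b ∉ X then 1 else 0) = 0 := by
      apply Finset.sum_eq_zero
      intro y hy
      rw [Finset.mem_filter] at hy
      simp [hy.2]
    rw [hz, zero_add]
    have hf : univ.filter (fun b => ¬ b ∈ X) = Xᶜ := by ext b; simp
    rw [hf]
    refine Finset.sum_congr rfl fun y hy => ?_
    rw [Finset.mem_compl] at hy
    simp [hx, hy]
  have h2 : eb G X Xᶜ = ∑ a, ∑ b, if G.Adj a b ∧ b ∈ X ∧ a ∉ X then 1 else 0 := by
    rw [h1, Finset.sum_comm]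
    refine Finset.sum_congr rfl fun x _ => Finset.sum_congr rfl fun y _ => ?_
    simp only [G.adj_comm]
  rw [two_mul]
  conv_lhs => lhs; rw [h1]
  conv_lhs => rhs; rw [h2]
  rw [← Finset.sum_add_distrib]
  refine Finset.sum_congr rfl fun x _ => ?_
  rw [← Finset.sum_add_distrib]
  refine Finset.sum_congr rfl fun y _ => ?_
  by_cases ha : G.Adj x y <;> by_cases hx : x ∈ X <;> by_cases hy : y ∈ X <;> simp [ha, hx, hy]

/-- The three-set inequality. -/
theorem three_cut (G : SimpleGraph V) (Z W W' : Finset V) :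
    eb G (Z ∩ W ∩ W') (Z ∩ W ∩ W')ᶜ + eb G ((Z \ W) \ W') ((Z \ W) \ W')ᶜ +
      eb G ((W \ Z) \ W') ((W \ Z) \ W')ᶜ + eb G ((W' \ Z) \ W) ((W' \ Z) \ W)ᶜ ≤
    eb G Z Zᶜ + eb G W Wᶜ + eb G W' W'ᶜ := by
  classical
  have key : 2 * eb G (Z ∩ W ∩ W') (Z ∩ W ∩ W')ᶜ + 2 * eb G ((Z \ W) \ W') ((Z \ W) \ W')ᶜ +
      2 * eb G ((W \ Z) \ W') ((W \ Z) \ W')ᶜ + 2 * eb G ((W' \ Z) \ W) ((W' \ Z) \ W)ᶜ ≤
    2 * eb G Z Zᶜ + 2 * eb G W Wᶜ + 2 * eb G W' W'ᶜ := by
    simp only [two_cut_eq, ← Finset.sum_add_distrib]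
    refine Finset.sum_le_sum fun x _ => Finset.sum_le_sum fun y _ => ?_
    by_cases ha : G.Adj x y
    · by_cases h1 : x ∈ Z <;> by_cases h2 : x ∈ W <;> by_cases h3 : x ∈ W' <;>
      by_cases h4 : y ∈ Z <;> by_cases h5 : y ∈ W <;> by_cases h6 : y ∈ W' <;>
      simp [ha, h1, h2, h3, h4, h5, h6]
    · simp [ha]
  omega

/-- Three tight sets in the bad position do not exist. -/
theorem both_bad (G : SimpleGraph V) {j : ℕ} (hj : 1 ≤ j) (hG : EC j G) {Z W W' : Finset V}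
    (hZ : eb G Z Zᶜ = j) (hW : eb G W Wᶜ = j) (hW' : eb G W' W'ᶜ = j) {u v x y : V}
    (hu : u ∈ Z ∧ u ∈ W ∧ u ∈ W') (hv : v ∈ Z ∧ v ∉ W ∧ v ∉ W')
    (hx : x ∉ Z ∧ x ∈ W ∧ x ∉ W') (hy : y ∉ Z ∧ y ∉ W ∧ y ∈ W') : False := by
  have h := three_cut G Z W W'
  have h1 : j ≤ eb G (Z ∩ W ∩ W') (Z ∩ W ∩ W')ᶜ :=
    hG _ ⟨u, by simp [hu.1, hu.2.1, hu.2.2]⟩ ⟨v, by simp [hv.2.1]⟩
  have h2 : j ≤ eb G ((Z \ W) \ W') ((Z \ W) \ W')ᶜ :=
    hG _ ⟨v, by simp [hv.1, hv.2.1, hv.2.2]⟩ ⟨u, by simp [hu.2.1]⟩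
  have h3 : j ≤ eb G ((W \ Z) \ W') ((W \ Z) \ W')ᶜ :=
    hG _ ⟨x, by simp [hx.1, hx.2.1, hx.2.2]⟩ ⟨u, by simp [hu.1]⟩
  have h4 : j ≤ eb G ((W' \ Z) \ W) ((W' \ Z) \ W)ᶜ :=
    hG _ ⟨y, by simp [hy.1, hy.2.1, hy.2.2]⟩ ⟨u, by simp [hu.1]⟩
  omega

/-- Two crossing tight sets have no diagonal edges. -/
theorem no_diag (G : SimpleGraph V) {j : ℕ} (hG : EC j G) {Z W : Finset V}
    (hZ : eb G Z Zᶜ = j) (hW : eb G W Wᶜ = j) {u v x y : V}
    (hu : u ∈ Z ∧ u ∈ W) (hv : v ∈ Z ∧ v ∉ W)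
    (hx : x ∉ Z ∧ x ∈ W) (hy : y ∉ Z ∧ y ∉ W) : ¬ G.Adj u y ∧ ¬ G.Adj v x := by
  have h1 := cut_submod G Z W
  have h2 := cut_posi G Z W
  have a1 : j ≤ eb G (Z ∩ W) (Z ∩ W)ᶜ := hG _ ⟨u, by simp [hu.1, hu.2]⟩ ⟨v, by simp [hv.2]⟩
  have a2 : j ≤ eb G (Z ∪ W) (Z ∪ W)ᶜ := hG _ ⟨u, by simp [hu.1]⟩ ⟨y, by simp [hy.1, hy.2]⟩
  have a3 : j ≤ eb G (Z \ W) (Z \ W)ᶜ := hG _ ⟨v, by simp [hv.1, hv.2]⟩ ⟨u, by simp [hu.2]⟩
  have a4 : j ≤ eb G (W \ Z) (W \ Z)ᶜ := hG _ ⟨x, by simp [hx.1, hx.2]⟩ ⟨u, by simp [hu.1]⟩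
  have b1 : eb G (Z \ W) (W \ Z) = 0 := by omega
  have b2 : eb G (Z ∩ W) (Z ∪ W)ᶜ = 0 := by omega
  rw [eb_eq_zero_iff] at b1 b2
  refine ⟨b2 u ?_ y ?_, b1 v ?_ x ?_⟩
  · simp [hu.1, hu.2]
  · simp [hy.1, hy.2]
  · simp [hv.1, hv.2]
  · simp [hx.1, hx.2]

/-- The swapped involution. -/
def sw (σ : V → V) (u v x y w : V) : V :=
  if w = u then x else if w = x then u else if w = v then y else if w = y then v else σ w

structure SwHyp (σ : V → V) (u v x y : V) : Prop where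
  inv : ∀ w, σ (σ w) = w
  suv : σ u = v
  sxy : σ x = y
  uv : u ≠ v
  xy : x ≠ y
  ux : u ≠ x
  uy : u ≠ y
  vx : v ≠ x
  vy : v ≠ y

namespace SwHyp

variable {σ : V → V} {u v x y : V}

theorem svu (h : SwHyp σ u v x y) : σ v = u := by rw [← h.suv, h.inv]
theorem syx (h : SwHyp σ u v x y) : σ y = x := by rw [← h.sxy, h.inv]

theorem swu (h : SwHyp σ u v x y) : sw σ u v x y u = x := by simp [sw]
theorem swx (h : SwHyp σ u v x y) : sw σ u v x y x = u := by simp [sw, h.ux.symm]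
theorem swv (h : SwHyp σ u v x y) : sw σ u v x y v = y := by simp [sw, h.uv.symm, h.vx]
theorem swy (h : SwHyp σ u v x y) : sw σ u v x y y = v := by
  simp [sw, h.uy.symm, h.xy.symm, h.vy.symm]
theorem swo (h : SwHyp σ u v x y) {w : V} (h1 : w ≠ u) (h2 : w ≠ v) (h3 : w ≠ x) (h4 : w ≠ y) :
    sw σ u v x y w = σ w := by
  simp [sw, h1, h2, h3, h4]

theorem swo_ne (h : SwHyp σ u v x y) {w : V} (h1 : w ≠ u) (h2 : w ≠ v) (h3 : w ≠ x)
    (h4 : w ≠ y) : σ w ≠ u ∧ σ w ≠ v ∧ σ w ≠ x ∧ σ w ≠ y := by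
  refine ⟨?_, ?_, ?_, ?_⟩ <;> intro hc
  · apply h2; rw [← h.inv w, hc, h.suv]
  · apply h1; rw [← h.inv w, hc, h.svu]
  · apply h4; rw [← h.inv w, hc, h.sxy]
  · apply h3; rw [← h.inv w, hc, h.syx]

theorem invol (h : SwHyp σ u v x y) (w : V) : sw σ u v x y (sw σ u v x y w) = w := by
  by_cases h1 : w = u
  · subst h1; rw [h.swu, h.swx]
  by_cases h2 : w = v
  · subst h2; rw [h.swv, h.swy]
  by_cases h3 : w = x
  · subst h3; rw [h.swx, h.swu]
  by_cases h4 : w = y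
  · subst h4; rw [h.swy, h.swv]
  obtain ⟨a, b, c, d⟩ := h.swo_ne h1 h2 h3 h4
  rw [h.swo h1 h2 h3 h4, h.swo a b c d, h.inv]

theorem fix_iff (h : SwHyp σ u v x y) (w : V) : sw σ u v x y w = w ↔ σ w = w := by
  by_cases h1 : w = u
  · subst h1; rw [h.swu, h.suv]; exact ⟨fun e => absurd e.symm h.ux, fun e => absurd e.symm h.uv⟩
  by_cases h2 : w = v
  · subst h2; rw [h.swv, h.svu]; exact ⟨fun e => absurd e.symm h.vy, fun e => absurd e h.uv⟩
  by_cases h3 : w = x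
  · subst h3; rw [h.swx, h.sxy]; exact ⟨fun e => absurd e h.ux, fun e => absurd e.symm h.xy⟩
  by_cases h4 : w = y
  · subst h4; rw [h.swy, h.syx]; exact ⟨fun e => absurd e h.vy, fun e => absurd e h.xy⟩
  rw [h.swo h1 h2 h3 h4]

theorem toInv (h : SwHyp σ u v x y) {G : SimpleGraph V} (hI : Inv G σ) (h1 : ¬ G.Adj u x)
    (h2 : ¬ G.Adj v y) : Inv G (sw σ u v x y) := by
  refine ⟨h.invol, fun w hw => ?_⟩
  by_cases e1 : w = u
  · subst e1; rw [h.swu]; exact h1
  by_cases e2 : w = v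
  · subst e2; rw [h.swv]; exact h2
  by_cases e3 : w = x
  · subst e3; rw [h.swx, G.adj_comm]; exact h1
  by_cases e4 : w = y
  · subst e4; rw [h.swy, G.adj_comm]; exact h2
  rw [h.swo e1 e2 e3 e4] at hw ⊢
  exact hI.simp' w hw

/-- A new violated set of the swapped involution separates `u, x` from `v, y`. -/
theorem bad (h : SwHyp σ u v x y) {G : SimpleGraph V} {j : ℕ} {W : Finset V}
    (hW : Violated G j (sw σ u v x y) W) (hW' : ¬ Violated G j σ W) :
    ∃ W' : Finset V, eb G W' W'ᶜ = j ∧ u ∈ W' ∧ x ∈ W' ∧ v ∉ W' ∧ y ∉ W' := by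
  obtain ⟨hj, hc1, hc2, hcl⟩ := hW
  have hex : ∃ z ∈ W, σ z ∉ W := by
    by_contra hcon
    push Not at hcon
    exact hW' ⟨hj, hc1, hc2, hcon⟩
  have hux : u ∈ W ↔ x ∈ W := by
    constructor
    · intro hu; have := hcl u hu; rwa [h.swu] at this
    · intro hx; have := hcl x hx; rwa [h.swx] at this
  have hvy : v ∈ W ↔ y ∈ W := by
    constructor
    · intro hv; have := hcl v hv; rwa [h.swv] at this
    · intro hy; have := hcl y hy; rwa [h.swy] at this
  obtain ⟨z, hz, hσz⟩ := hex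
  have hcase : (u ∈ W ∧ v ∉ W) ∨ (v ∈ W ∧ u ∉ W) := by
    by_cases e1 : z = u
    · subst e1; left; rw [h.suv] at hσz; exact ⟨hz, hσz⟩
    by_cases e2 : z = v
    · subst e2; right; rw [h.svu] at hσz; exact ⟨hz, hσz⟩
    by_cases e3 : z = x
    · subst e3; left; rw [h.sxy] at hσz; exact ⟨hux.2 hz, fun hv => hσz (hvy.1 hv)⟩
    by_cases e4 : z = y
    · subst e4; right; rw [h.syx] at hσz; exact ⟨hvy.2 hz, fun hu => hσz (hux.1 hu)⟩
    exfalso
    have := hcl z hz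
    rw [h.swo e1 e2 e3 e4] at this
    exact hσz this
  rcases hcase with ⟨a, b⟩ | ⟨a, b⟩
  · exact ⟨W, hj, a, hux.1 a, b, fun hy => b (hvy.2 hy)⟩
  · refine ⟨Wᶜ, by rw [eb_compl_comm, hj], ?_, ?_, ?_, ?_⟩
    · simpa using b
    · rw [Finset.mem_compl]; exact fun hx => b (hux.2 hx)
    · simpa using a
    · simpa using hvy.1 a

end SwHyp

/-- Existence of an unblocked pair of pairs. -/
theorem exists_unblocked (G : SimpleGraph V) {j : ℕ} {σ : V → V} (hI : Inv G σ)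
    (hn : 2 * j + 4 ≤ Fintype.card V)
    (hU : ((univ : Finset V).filter fun v => σ v = v).card ≤ j + 1) {Z : Finset V}
    (hZ : Violated G j σ Z) :
    ∃ u ∈ Z, ∃ x, x ∉ Z ∧ σ u ≠ u ∧ σ x ≠ x ∧ ¬ G.Adj u x ∧ ¬ G.Adj (σ u) (σ x) := by
  classical
  obtain ⟨hj, hc1, hc2, hcl⟩ := hZ
  have hcl' : ∀ z, z ∉ Z → σ z ∉ Z := by
    intro z hz hc
    apply hz
    have := hcl _ hc
    rwa [hI.invol] at this
  by_contra hcon
  push Not at hcon
  set U := (univ : Finset V).filter fun v => σ v = v with hUdef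
  set N := Z.filter fun v => σ v ≠ v with hN
  set N' := (Zᶜ).filter fun v => σ v ≠ v with hN'
  have hsum : N.card + N'.card + U.card = Fintype.card V := by
    have h1 : N.card + (Z.filter fun v => ¬ σ v ≠ v).card = Z.card :=
      Finset.card_filter_add_card_filter_not _
    have h2 : N'.card + ((Zᶜ).filter fun v => ¬ σ v ≠ v).card = (Zᶜ).card :=
      Finset.card_filter_add_card_filter_not _
    have h3 : (Z.filter fun v => ¬ σ v ≠ v).card + ((Zᶜ).filter fun v => ¬ σ v ≠ v).card =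
        U.card := by
      rw [← Finset.card_union_of_disjoint]
      · congr 1
        ext v
        simp only [hUdef, Finset.mem_union, Finset.mem_filter, Finset.mem_compl, Finset.mem_univ,
          true_and, not_not]
        tauto
      · rw [Finset.disjoint_left]
        intro v
        simp only [Finset.mem_filter, Finset.mem_compl]
        tauto
    have h4 := Finset.card_add_card_compl Z
    omega
  have hpos : ∀ (A M : Finset V), M = A.filter (fun v => σ v ≠ v) → j + 2 ≤ A.card →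
      (∀ z ∈ A, σ z ∈ A) → 2 ≤ M.card := by
    intro A M hM hA hAcl
    have h1 : M.card + (A.filter fun v => ¬ σ v ≠ v).card = A.card := by
      rw [hM]; exact Finset.card_filter_add_card_filter_not _
    have h2 : (A.filter fun v => ¬ σ v ≠ v).card ≤ U.card := by
      apply Finset.card_le_card
      intro v
      simp only [hUdef, Finset.mem_filter, Finset.mem_univ, true_and, not_not]
      tauto
    have h3 : 1 ≤ M.card := by omega
    obtain ⟨a, ha⟩ := Finset.card_pos.1 h3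
    have ha' := ha
    rw [hM, Finset.mem_filter] at ha'
    have hb : σ a ∈ M := by
      rw [hM, Finset.mem_filter]
      refine ⟨hAcl a ha'.1, ?_⟩
      rw [hI.invol]
      exact ha'.2.symm
    have : 1 < M.card := Finset.one_lt_card.2 ⟨a, ha, σ a, hb, ha'.2.symm⟩
    omega
  have hP : 2 ≤ N.card := hpos Z N hN hc1 hcl
  have hQ : 2 ≤ N'.card := hpos Zᶜ N' hN' hc2 (by
    intro z hz
    rw [Finset.mem_compl] at hz ⊢
    exact hcl' z hz)
  -- double counting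
  have hbij : ∑ u ∈ N, ∑ x ∈ N', (if G.Adj (σ u) (σ x) then 1 else 0) =
      ∑ u ∈ N, ∑ x ∈ N', (if G.Adj u x then 1 else 0) := by
    refine Finset.sum_nbij' σ σ ?_ ?_ ?_ ?_ ?_
    · intro a ha
      rw [hN, Finset.mem_filter] at ha ⊢
      exact ⟨hcl a ha.1, by rw [hI.invol]; exact ha.2.symm⟩
    · intro a ha
      rw [hN, Finset.mem_filter] at ha ⊢
      exact ⟨hcl a ha.1, by rw [hI.invol]; exact ha.2.symm⟩
    · intro a _; exact hI.invol a
    · intro a _; exact hI.invol a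
    · intro a _
      refine Finset.sum_nbij' σ σ ?_ ?_ ?_ ?_ ?_
      · intro b hb
        rw [hN', Finset.mem_filter, Finset.mem_compl] at hb ⊢
        exact ⟨hcl' b hb.1, by rw [hI.invol]; exact hb.2.symm⟩
      · intro b hb
        rw [hN', Finset.mem_filter, Finset.mem_compl] at hb ⊢
        exact ⟨hcl' b hb.1, by rw [hI.invol]; exact hb.2.symm⟩
      · intro b _; exact hI.invol b
      · intro b _; exact hI.invol b
      · intro b _; rfl
  have hle : ∑ u ∈ N, ∑ x ∈ N', (if G.Adj u x then 1 else 0) ≤ eb G Z Zᶜ := by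
    have h1 : eb G N N' ≤ eb G Z Zᶜ :=
      (eb_mono_left G (Finset.filter_subset _ _) _).trans
        (eb_mono_right G _ (Finset.filter_subset _ _))
    refine le_trans (le_of_eq ?_) h1
    unfold eb
    refine Finset.sum_congr rfl fun _ _ => Finset.sum_congr rfl fun _ _ => ?_
    congr
  have hge : N.card * N'.card ≤ ∑ u ∈ N, ∑ x ∈ N', (if G.Adj u x then 1 else 0) +
      ∑ u ∈ N, ∑ x ∈ N', (if G.Adj (σ u) (σ x) then 1 else 0) := by
    rw [← Finset.sum_add_distrib]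
    calc N.card * N'.card = ∑ u ∈ N, ∑ x ∈ N', 1 := by simp
      _ ≤ _ := by
        refine Finset.sum_le_sum fun u hu => ?_
        rw [← Finset.sum_add_distrib]
        refine Finset.sum_le_sum fun x hx => ?_
        rw [hN, Finset.mem_filter] at hu
        rw [hN', Finset.mem_filter, Finset.mem_compl] at hx
        by_cases hux : G.Adj u x
        · simp [hux]
        · have := hcon u hu.1 x hx.1 hu.2 hx.2 hux
          simp [this]
  obtain ⟨p, hp⟩ : ∃ p, N.card = p + 2 := ⟨N.card - 2, by omega⟩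
  obtain ⟨q, hq⟩ : ∃ q, N'.card = q + 2 := ⟨N'.card - 2, by omega⟩
  have hprod : N.card * N'.card = p * q + 2 * p + 2 * q + 4 := by rw [hp, hq]; ring
  have h0 : 0 ≤ p * q := Nat.zero_le _
  omega

/-- The swapping theorem: all violated sets can be removed. -/
theorem swap_main (G : SimpleGraph V) {j : ℕ} (hj : 1 ≤ j) (hG : EC j G)
    (hn : 2 * j + 4 ≤ Fintype.card V) (σ : V → V) (hI : Inv G σ)
    (hU : ((univ : Finset V).filter fun v => σ v = v).card ≤ j + 1) :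
    ∃ τ : V → V, Inv G τ ∧ (∀ v, τ v = v ↔ σ v = v) ∧ ∀ Z, ¬ Violated G j τ Z := by
  classical
  induction hk : ((univ : Finset (Finset V)).filter fun Z => Violated G j σ Z).card
    using Nat.strong_induction_on generalizing σ with
  | _ k ih =>
    by_cases hex : ∃ Z, Violated G j σ Z
    swap
    · push Not at hex
      exact ⟨σ, hI, fun _ => Iff.rfl, hex⟩
    obtain ⟨Z, hZ⟩ := hex
    obtain ⟨u, huZ, x, hxZ, hsu, hsx, hb1, hb2⟩ := exists_unblocked G hI hn hU hZ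
    have hvZ : σ u ∈ Z := hZ.2.2.2 u huZ
    have hyZ : σ x ∉ Z := by
      intro hc
      apply hxZ
      have := hZ.2.2.2 _ hc
      rwa [hI.invol] at this
    have hyp1 : SwHyp σ u (σ u) x (σ x) :=
      { inv := hI.invol, suv := rfl, sxy := rfl, uv := hsu.symm, xy := hsx.symm
        ux := fun h => hxZ (h ▸ huZ), uy := fun h => hyZ (h ▸ huZ)
        vx := fun h => hxZ (h ▸ hvZ), vy := fun h => hyZ (h ▸ hvZ) }
    have hyp2 : SwHyp σ u (σ u) (σ x) x :=
      { inv := hI.invol, suv := rfl, sxy := hI.invol x, uv := hsu.symm, xy := hsx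
        ux := fun h => hyZ (h ▸ huZ), uy := fun h => hxZ (h ▸ huZ)
        vx := fun h => hyZ (h ▸ hvZ), vy := fun h => hxZ (h ▸ hvZ) }
    -- the step common to both pairings
    have step : ∀ x' y' : V, (h : SwHyp σ u (σ u) x' y') → x' ∉ Z → ¬ G.Adj u x' →
        ¬ G.Adj (σ u) y' →
        (∀ W, Violated G j (sw σ u (σ u) x' y') W → Violated G j σ W) →
        ∃ τ : V → V, Inv G τ ∧ (∀ v, τ v = v ↔ σ v = v) ∧ ∀ Z, ¬ Violated G j τ Z := by
      intro x' y' h hx' hn1 hn2 hno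
      have hlt : ((univ : Finset (Finset V)).filter
          fun Z => Violated G j (sw σ u (σ u) x' y') Z).card < k := by
        rw [← hk]
        apply Finset.card_lt_card
        rw [Finset.ssubset_iff_of_subset]
        · refine ⟨Z, by simpa using hZ, ?_⟩
          simp only [Finset.mem_filter, Finset.mem_univ, true_and]
          intro hc
          have := hc.2.2.2 u huZ
          rw [h.swu] at this
          exact hx' this
        · intro W
          simp only [Finset.mem_filter, Finset.mem_univ, true_and]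
          exact hno W
      have hfix : ((univ : Finset V).filter fun v => sw σ u (σ u) x' y' v = v) =
          (univ : Finset V).filter fun v => σ v = v := by
        ext v
        simp only [Finset.mem_filter, Finset.mem_univ, true_and]
        exact h.fix_iff v
      obtain ⟨τ, h1, h2, h3⟩ := ih _ hlt (sw σ u (σ u) x' y') (h.toInv hI hn1 hn2)
        (by rw [hfix]; exact hU) rfl
      exact ⟨τ, h1, fun v => (h2 v).trans (h.fix_iff v), h3⟩
    by_cases hno : ∀ W, Violated G j (sw σ u (σ u) x (σ x)) W → Violated G j σ W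
    · exact step x (σ x) hyp1 hxZ hb1 hb2 hno
    push Not at hno
    obtain ⟨W₀, hW₀, hW₀'⟩ := hno
    obtain ⟨W, hWj, hWu, hWx, hWv, hWy⟩ := hyp1.bad hW₀ hW₀'
    obtain ⟨hd1, hd2⟩ := no_diag G hG hZ.1 hWj ⟨huZ, hWu⟩ ⟨hvZ, hWv⟩ ⟨hxZ, hWx⟩ ⟨hyZ, hWy⟩
    refine step (σ x) x hyp2 hyZ hd1 hd2 ?_
    intro W₁ hW₁
    by_contra hW₁'
    obtain ⟨W', hWj', hWu', hWy', hWv', hWx'⟩ := hyp2.bad hW₁ hW₁'
    exact both_bad G hj hG hZ.1 hWj hWj' ⟨huZ, hWu, hWu'⟩ ⟨hvZ, hWv, hWv'⟩ ⟨hxZ, hWx, hWx'⟩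
      ⟨hyZ, hWy, hWy'⟩

end Pool.Agent.ConnAug
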