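import Pool.Agent.ConnAug.Basic

/-!
# Weak duality for simple `b`-matchings
-/

set_option autoImplicit false

namespace Pool.Agent.ConnAug

open Finset

theorem weakDual_proof : Stmt_WeakDual := by
  classical
  intro V _ _ H F b S T CC hFH hdeg hB
  set R : Finset V := (S ∪ T)ᶜ with hR
  -- degrees
  have hsum : ∀ X : Finset V, eb F X univ ≤ b * X.card := by
    intro X
    rw [eb_univ_right]
    calc ∑ v ∈ X, dg F v ≤ ∑ _v ∈ X, b := Finset.sum_le_sum fun v _ => hdeg v
      _ = b * X.card := by rw [Finset.sum_const, smul_eq_mul, mul_comm]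
  have hTR : Disjoint T R := by
    rw [Finset.disjoint_left]
    intro x hx
    simp [hR, hx]
  have hS_TR : Disjoint S (T ∪ R) := by
    rw [Finset.disjoint_union_right]
    refine ⟨hB.disj, ?_⟩
    rw [Finset.disjoint_left]
    intro x hx
    simp [hR, hx]
  have huniv : (univ : Finset V) = S ∪ (T ∪ R) := by
    ext x
    simp only [Finset.mem_univ, Finset.mem_union, hR, Finset.mem_compl, true_iff]
    tauto
  have e1 : eb F univ univ = eb F S univ + eb F (T ∪ R) univ := by
    conv_lhs => rw [huniv]
    rw [eb_union_left F hS_TR, ← huniv]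
  have e2 : eb F (T ∪ R) univ = eb F (T ∪ R) S + eb F (T ∪ R) (T ∪ R) := by
    conv_lhs => rw [huniv]
    rw [eb_union_right F _ hS_TR]
  have e3 : eb F (T ∪ R) S ≤ eb F S univ := by
    rw [eb_comm]
    exact eb_mono_right F S (Finset.subset_univ _)
  have e4 : eb F (T ∪ R) (T ∪ R) = eb F T T + eb F T R + (eb F R T + eb F R R) := by
    rw [eb_union_left F hTR, eb_union_right F _ hTR, eb_union_right F _ hTR]
  have e5 : eb F T R = eb F R T := eb_comm F T R
  have e6 : eb F T T ≤ eb H T T := eb_mono hFH T T
  have e7 := hsum S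
  -- sets inside `R`
  have hin : ∀ X : Finset V, X ⊆ R → eb F X R + eb F X T ≤ b * X.card := by
    intro X _
    refine le_trans ?_ (hsum X)
    rw [add_comm, ← eb_union_right F X hTR]
    exact eb_mono_right F X (Finset.subset_univ _)
  have hmem : ∀ C ∈ CC, C ⊆ R := by
    intro C hC x hx
    have := Finset.disjoint_left.1 (hB.sub C hC) hx
    simpa [hR] using this
  have hC : ∀ C ∈ CC, eb F C R + 2 * eb F C T + 1 ≤ b * C.card + eb H C T := by
    intro C hC
    have h1 := hin C (hmem C hC)
    have h2 : eb F C T ≤ eb H C T := eb_mono hFH C T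
    have h3 : eb F C R = eb F C C := by
      have h4 : eb F C (R \ C) = 0 := by
        rw [eb_eq_zero_iff]
        intro u hu v hv huv
        rw [Finset.mem_sdiff] at hv
        have h5 := hB.closed C hC u hu v hv.2 (hFH huv)
        have h6 := hv.1
        simp only [hR, Finset.mem_compl] at h6
        exact h6 h5
      have h5 := eb_inter_sdiff_right F C R C
      rw [h4, Finset.inter_eq_right.2 (hmem C hC)] at h5
      omega
    obtain ⟨r, hr⟩ := eb_self_even F C
    obtain ⟨q, hq⟩ := hB.odd C hC
    rw [h3] at h1 ⊢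
    omega
  set U := CC.biUnion id with hU
  have hUR : U ⊆ R := by
    intro x hx
    rw [hU, Finset.mem_biUnion] at hx
    obtain ⟨C, hC, hx⟩ := hx
    exact hmem C hC hx
  have hpw : ∀ C ∈ CC, ∀ D ∈ CC, C ≠ D → Disjoint (id C) (id D) := hB.pw
  have hcardU : U.card = ∑ C ∈ CC, C.card := by
    rw [hU, Finset.card_biUnion]
    · rfl
    · intro C hC D hD hCD
      exact hpw C hC D hD hCD
  have f1 : ∀ (G : SimpleGraph V) (X : Finset V), eb G U X = ∑ C ∈ CC, eb G C X := by
    intro G X
    rw [hU, eb_biUnion_left G CC id hpw]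
    rfl
  have f2 : eb F U R + 2 * eb F U T + CC.card ≤ b * U.card + eb H U T := by
    rw [f1, f1, f1, hcardU, Finset.mul_sum, Finset.mul_sum, Finset.card_eq_sum_ones,
      ← Finset.sum_add_distrib, ← Finset.sum_add_distrib, ← Finset.sum_add_distrib]
    exact Finset.sum_le_sum hC
  have f3 : eb F (R \ U) R + 2 * eb F (R \ U) T ≤ b * (R \ U).card + eb H (R \ U) T := by
    have h1 := hin (R \ U) Finset.sdiff_subset
    have h2 : eb F (R \ U) T ≤ eb H (R \ U) T := eb_mono hFH _ T
    omega
  have f4 : ∀ (G : SimpleGraph V) (X : Finset V), eb G R X = eb G U X + eb G (R \ U) X := by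
    intro G X
    have := eb_inter_sdiff_left G R U X
    rwa [Finset.inter_eq_right.2 hUR] at this
  have f5 : R.card = U.card + (R \ U).card := by
    rw [add_comm]
    exact (Finset.card_sdiff_add_card_eq_card hUR).symm
  have f6 : eb F R R + 2 * eb F R T + CC.card ≤ b * R.card + eb H R T := by
    have f7 : b * R.card = b * U.card + b * (R \ U).card := by rw [← Nat.mul_add, ← f5]
    rw [f4 F R, f4 F T, f4 H T, f7]
    omega
  unfold barVal
  rw [← hR]
  have e8 : 2 * b * S.card = 2 * (b * S.card) := by ring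
  omega

end Pool.Agent.ConnAug
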